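import Pool.Agent.H378R2.QG.V

/-!
# PQ-2: parameters and profiles for the covering weights (primes greater than `L ^ A`)

Adapted from the choice of parameters in `Pool.Agent.H378R2.QG.qcov` (helper378).
-/

set_option autoImplicit false

namespace Pool.Agent.TH325.PQ

namespace ParX

open Finset Filter Pool.Agent.H378R2.QG
open Pool.Agent.H256R2.SC (Col emb emb_mem emb_surj Asum)

theorem prof_good' {c₃ a z₀ z y₁ : ℝ} {m n : ℕ} (hc₃ : 0 < c₃) (ha : 0 < a)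
    (hlogz0 : Real.log z₀ = (2 / c₃ + 1) * a) (hz01 : 1 < z₀) (hz : z = z₀ ^ (2 ^ m))
    (hy1 : 0 < y₁) (hlogy : Real.log y₁ = a) (P g : Fin n → ℝ) (hP1 : ∀ i, 1 < P i)
    (hg0 : ∀ i, 0 ≤ g i)
    (hA : ∀ x, y₁ ≤ x → x ≤ z → c₃ * (Real.log x / Real.log y₁) - 1 ≤ Asum P g x) :
    ∃ h, Hyp P g h z (4 / (c₃ / (2 * a) * ((m + 1 : ℕ) : ℝ))) := by
  set C₀ : ℝ := 2 / c₃ + 1 with hC₀
  have hC1 : 1 ≤ C₀ := by
    rw [hC₀]
    have : 0 < 2 / c₃ := by positivity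
    linarith
  set lam : ℝ := c₃ / (2 * a) with hlam
  have hlam0 : 0 < lam := by positivity
  have hlogzj : ∀ j : ℕ, Real.log (z₀ ^ (2 ^ j)) = (2:ℝ) ^ j * (C₀ * a) := by
    intro j
    rw [Real.log_pow, hlogz0]
    push_cast
    ring
  have hA' : ∀ j < m + 1, 1 ≤ Asum P g (z₀ ^ (2 ^ j)) ∧
      lam * (2 ^ j * Real.log z₀) ≤ Asum P g (z₀ ^ (2 ^ j)) := by
    intro j hj
    have hxl := hlogzj j
    have h2j : (1:ℝ) ≤ 2 ^ j := one_le_pow₀ (by norm_num)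
    have hyx : y₁ ≤ z₀ ^ (2 ^ j) := by
      rw [← Real.log_le_log_iff hy1 (by positivity), hxl, hlogy]
      have h1 : a ≤ C₀ * a := by nlinarith
      have h2 : 1 * (C₀ * a) ≤ 2 ^ j * (C₀ * a) :=
        mul_le_mul_of_nonneg_right h2j (by positivity)
      linarith
    have hxz : z₀ ^ (2 ^ j) ≤ z := by
      rw [hz]
      exact pow_le_pow_right₀ hz01.le (Nat.pow_le_pow_right (by norm_num) (by omega))
    have h2 := hA (z₀ ^ (2 ^ j)) hyx hxz
    have h3 : c₃ * (Real.log (z₀ ^ (2 ^ j)) / Real.log y₁) = c₃ * (2 ^ j * C₀) := by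
      rw [hxl, hlogy]
      field_simp
    rw [h3] at h2
    have h4 : c₃ * C₀ = 2 + c₃ := by
      rw [hC₀]
      field_simp
    have h6 : 2 ≤ c₃ * (2 ^ j * C₀) := by
      calc (2:ℝ) ≤ c₃ * C₀ := by linarith
        _ = c₃ * (1 * C₀) := by ring
        _ ≤ c₃ * (2 ^ j * C₀) := by
          apply mul_le_mul_of_nonneg_left _ hc₃.le
          apply mul_le_mul_of_nonneg_right h2j (by linarith)
    refine ⟨by linarith, ?_⟩
    have h7 : lam * (2 ^ j * Real.log z₀) = c₃ * (2 ^ j * C₀) / 2 := by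
      rw [hlam, hlogz0]
      field_simp
    rw [h7]
    linarith
  obtain ⟨h, H⟩ := exists_h P g hP1 hg0 (m + 1) (by omega) z₀ lam hz01 hlam0 hA'
  have hzz : z₀ ^ (2 ^ (m + 1 - 1)) = z := by rw [hz, Nat.add_sub_cancel]
  rw [hzz] at H
  exact ⟨h, H⟩

theorem prof_bad' {c' a z : ℝ} {n : ℕ} (hc' : 0 < c') (ha : 0 < a) (hz1 : 1 < z)
    (P g : Fin n → ℝ) (hP1 : ∀ i, 1 < P i) (hg0 : ∀ i, 0 ≤ g i)
    (k1 : 2 ≤ c' * (Real.log z / a))
    (h1 : c' * (Real.log z / a) - 1 ≤ Asum P g z) :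
    ∃ h, Hyp P g h z (8 * a / c') := by
  set lam₂ : ℝ := c' / (2 * a) with hlam₂
  have hlam₂0 : 0 < lam₂ := by positivity
  have h4 : lam₂ * Real.log z = c' * (Real.log z / a) / 2 := by
    rw [hlam₂]
    field_simp
  obtain ⟨h, H⟩ := exists_h P g hP1 hg0 1 le_rfl z lam₂
    hz1 hlam₂0 (by
      intro j hj
      have hj0 : j = 0 := by omega
      subst hj0
      simp only [pow_zero, pow_one, one_mul]
      constructor
      · linarith
      · rw [h4]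
        linarith)
  simp only [Nat.sub_self, pow_zero, pow_one, Nat.cast_one, mul_one] at H
  have h5 : 4 / lam₂ = 8 * a / c' := by
    rw [hlam₂]
    field_simp
    norm_num
  rw [h5] at H
  exact ⟨h, H⟩

/-- the eventual facts -/
theorem ev (K CM : ℝ) (hK : 0 < K) : ∃ L₀ : ℝ, ∀ L : ℝ, L₀ ≤ L → 10 ≤ Real.log L ∧ 1000 ≤ L ∧
    K * (Real.log L) ^ 2 ≤ Real.exp (Real.log L / 5) ∧ CM ≤ Real.log (Real.log L) := by
  have h1 := (isLittleO_pow_exp_pos_mul_atTop (k := 2) (b := (1 / 5 : ℝ)) (by norm_num)).def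
    (show (0:ℝ) < 1 / K by positivity)
  have key : ∀ᶠ l : ℝ in atTop, 10 ≤ l ∧ K * l ^ 2 ≤ Real.exp (l / 5) ∧ CM ≤ Real.log l := by
    filter_upwards [h1, eventually_ge_atTop (10:ℝ),
      Real.tendsto_log_atTop.eventually_ge_atTop CM] with l h2 h3 h4
    refine ⟨h3, ?_, h4⟩
    rw [Real.norm_eq_abs, Real.norm_eq_abs, abs_of_nonneg (Real.exp_pos _).le,
      abs_of_nonneg (by positivity)] at h2
    have h5 : K * l ^ 2 ≤ K * (1 / K * Real.exp (1 / 5 * l)) :=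
      mul_le_mul_of_nonneg_left h2 hK.le
    have h6 : K * (1 / K * Real.exp (1 / 5 * l)) = Real.exp (l / 5) := by
      rw [← mul_assoc, mul_one_div_cancel hK.ne', one_mul]
      congr 1
      ring
    rw [h6] at h5
    exact h5
  obtain ⟨L₀, hL₀⟩ := Filter.eventually_atTop.mp
    ((Real.tendsto_log_atTop.eventually key).and (eventually_ge_atTop (1000:ℝ)))
  exact ⟨L₀, fun L hL => ⟨(hL₀ L hL).1.1, (hL₀ L hL).2, (hL₀ L hL).1.2.1, (hL₀ L hL).1.2.2⟩⟩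

/-- the scales -/
theorem scales' (C₁ a M L l : ℝ) (hl : l = Real.log L) (hC : 1 ≤ C₁) (ha : 0 < a) (hM : 0 < M)
    (h1 : 1 ≤ l) (h3 : M * C₁ * a * l ≤ L ^ (3 / 10 : ℝ)) (h5 : 1000 ≤ L) :
    ∃ m : ℕ, (2:ℝ) ^ m * (C₁ * a) ≤ L / (M * l) ∧
      L / (2 * M * l) ≤ (2:ℝ) ^ m * (C₁ * a) ∧ l ≤ m + 1 := by
  have hl0 : 0 < l := by linarith
  set W : ℝ := L / (M * C₁ * a * l) with hW
  have hden : 0 < M * C₁ * a * l := by positivity
  have hL0 : 0 < L := by linarith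
  have hW1 : L ^ (7 / 10 : ℝ) ≤ W := by
    rw [hW, le_div_iff₀ hden]
    calc L ^ (7 / 10 : ℝ) * (M * C₁ * a * l) ≤ L ^ (7 / 10 : ℝ) * L ^ (3 / 10 : ℝ) :=
          mul_le_mul_of_nonneg_left h3 (Real.rpow_nonneg hL0.le _)
      _ = L := by rw [← Real.rpow_add hL0]; norm_num
  have hW0 : 1 ≤ W := by
    refine le_trans ?_ hW1
    exact Real.one_le_rpow (by linarith) (by norm_num)
  have hfl : ⌊W⌋₊ ≠ 0 := by
    have : 1 ≤ ⌊W⌋₊ := Nat.le_floor (by simpa using hW0)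
    omega
  set m : ℕ := Nat.log 2 ⌊W⌋₊ with hm
  have hm1 : (2:ℝ) ^ m ≤ W := by
    have e1 : 2 ^ m ≤ ⌊W⌋₊ := Nat.pow_log_le_self 2 hfl
    calc (2:ℝ) ^ m ≤ (⌊W⌋₊ : ℝ) := by exact_mod_cast e1
      _ ≤ W := Nat.floor_le (by linarith)
  have hm2 : W < (2:ℝ) ^ (m + 1) := by
    have e1 : ⌊W⌋₊ < 2 ^ (m + 1) := Nat.lt_pow_succ_log_self (by norm_num) _
    have e2 : ⌊W⌋₊ + 1 ≤ 2 ^ (m + 1) := e1
    calc W < (⌊W⌋₊ : ℝ) + 1 := Nat.lt_floor_add_one W
      _ ≤ (2:ℝ) ^ (m + 1) := by exact_mod_cast e2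
  have hWl : W * (C₁ * a) = L / (M * l) := by
    rw [hW]
    field_simp
  refine ⟨m, ?_, ?_, ?_⟩
  · calc (2:ℝ) ^ m * (C₁ * a) ≤ W * (C₁ * a) :=
        mul_le_mul_of_nonneg_right hm1 (by positivity)
      _ = L / (M * l) := hWl
  · have e1 : W * (C₁ * a) ≤ (2:ℝ) ^ (m + 1) * (C₁ * a) :=
      mul_le_mul_of_nonneg_right hm2.le (by positivity)
    rw [hWl, pow_succ] at e1
    have e2 : L / (M * l) = 2 * (L / (2 * M * l)) := by
      field_simp
    rw [e2] at e1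
    nlinarith
  · by_contra hc
    push Not at hc
    have e1 : (2:ℝ) ^ (m + 1) ≤ L ^ (7 / 10 : ℝ) := by
      have e2 : (2:ℝ) ^ (m + 1) = Real.exp (Real.log 2 * (m + 1)) := by
        rw [← Real.rpow_natCast, Real.rpow_def_of_pos (by norm_num)]
        push_cast
        rfl
      rw [e2, Real.rpow_def_of_pos hL0]
      apply Real.exp_le_exp.mpr
      have e3 := Real.log_two_lt_d9
      have e4 : (0:ℝ) ≤ (m:ℝ) + 1 := by positivity
      have e5 : Real.log 2 * (m + 1) ≤ 0.7 * (m + 1) := by nlinarith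
      rw [← hl]
      nlinarith
    linarith

/-- the sum over the subsets without `ps` -/
theorem Asum_erase (Z : Finset ℕ) (ps : ℕ) (w : ℕ → ℝ) (hw : w ps = 0) (x : ℝ) :
    ∑ s ∈ ((Z.erase ps).powerset.filter
        (fun s : Finset ℕ => s.Nonempty ∧ ∏ p ∈ s, (p : ℝ) ≤ x)), ∏ p ∈ s, w p =
      ∑ s ∈ (Z.powerset.filter (fun s : Finset ℕ => s.Nonempty ∧ ∏ p ∈ s, (p : ℝ) ≤ x)),
        ∏ p ∈ s, w p := by
  classical
  apply Finset.sum_subset
  · intro s hs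
    rw [mem_filter, mem_powerset] at hs ⊢
    exact ⟨hs.1.trans (erase_subset _ _), hs.2⟩
  · intro s hs hns
    rw [mem_filter, mem_powerset] at hs hns
    have h1 : ps ∈ s := by
      by_contra h2
      apply hns
      refine ⟨fun p hp => mem_erase.2 ⟨?_, hs.1 hp⟩, hs.2⟩
      rintro rfl
      exact h2 hp
    exact prod_eq_zero h1 hw

/-- the sum of the costs -/
theorem Ksum_le' {κ : Type} [Fintype κ] [DecidableEq κ] (E : Finset κ)
    {K₁ K₂ c R L : ℝ} (hR : 0 < R) (hL : 0 ≤ L) (hK₁0 : 0 ≤ K₁) (hK₁ : K₁ ≤ R)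
    (hK₂0 : 0 ≤ K₂) (hcc : c ≤ 1 / (8000 * R)) (hc0 : 0 ≤ c)
    (huc : (Fintype.card κ : ℝ) ≤ c * L) (hE : (E.card : ℝ) ≤ L ^ (3 / 4 : ℝ))
    (k2 : L ^ (3 / 4 : ℝ) * K₂ ≤ L / 8000) :
    ∑ k, (if k ∈ E then K₂ else K₁) ≤ L / 4000 := by
  have h1 : ∑ k : κ, (if k ∈ E then K₂ else K₁) ≤
      ∑ k : κ, (K₁ + if k ∈ E then K₂ else 0) := by
    apply Finset.sum_le_sum
    intro k _
    split_ifs
    · linarith
    · linarith
  have h2 : ∑ k : κ, (K₁ + if k ∈ E then K₂ else 0) =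
      (Fintype.card κ : ℝ) * K₁ + (E.card : ℝ) * K₂ := by
    rw [Finset.sum_add_distrib, Finset.sum_const, Finset.card_univ, nsmul_eq_mul,
      ← Finset.sum_filter, Finset.sum_const, nsmul_eq_mul]
    congr 3
    rw [Finset.filter_mem_eq_inter, Finset.univ_inter]
  have h4 : (Fintype.card κ : ℝ) * K₁ ≤ L / 8000 := by
    calc (Fintype.card κ : ℝ) * K₁ ≤ (c * L) * R :=
          mul_le_mul huc hK₁ hK₁0 (by positivity)
      _ ≤ (1 / (8000 * R) * L) * R := by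
          apply mul_le_mul_of_nonneg_right _ hR.le
          exact mul_le_mul_of_nonneg_right hcc hL
      _ = L / 8000 := by field_simp
  have h5 : (E.card : ℝ) * K₂ ≤ L ^ (3 / 4 : ℝ) * K₂ :=
    mul_le_mul_of_nonneg_right hE hK₂0
  linarith

/-- the sum of the reciprocals -/
theorem sum_inv {CM₀ L l M z y₁ : ℝ} (hM₀ : ∀ n : ℕ, 3 ≤ n →
      |∑ p ∈ (Finset.Icc 1 n).filter Nat.Prime, (1 : ℝ) / p - Real.log (Real.log n)| ≤ CM₀)
    (hl : l = Real.log L) (hL : 0 < L) (hl0 : 0 < l) (hM : 1 ≤ M) (hCM : CM₀ ≤ Real.log l)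
    (hz3 : 3 ≤ z) (hzL : Real.log z ≤ L / (M * l)) (PP : Finset ℕ) (hPP : PP ⊆ PZ y₁ z) :
    ∑ p ∈ PP, 1 / (p:ℝ) ≤ l := by
  have hz3' : 3 ≤ ⌊z⌋₊ := Nat.le_floor (by push_cast; linarith)
  have h2 := (abs_le.mp (hM₀ ⌊z⌋₊ hz3')).2
  have h3 : ∑ p ∈ PP, 1 / (p:ℝ) ≤ ∑ p ∈ (Finset.Icc 1 ⌊z⌋₊).filter Nat.Prime, (1 : ℝ) / p := by
    apply Finset.sum_le_sum_of_subset_of_nonneg
    · intro p hp
      have hp' := hPP hp
      unfold PZ at hp'
      rw [Finset.mem_filter] at hp' ⊢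
      exact ⟨hp'.1, hp'.2.1⟩
    · intro p _ _
      positivity
  have h4 : Real.log (Real.log (⌊z⌋₊ : ℝ)) ≤ l - Real.log l := by
    have e1 : (3:ℝ) ≤ (⌊z⌋₊ : ℝ) := by exact_mod_cast hz3'
    have e2 : Real.log (⌊z⌋₊ : ℝ) ≤ L / l := by
      have h5 : Real.log (⌊z⌋₊ : ℝ) ≤ Real.log z :=
        Real.log_le_log (by linarith) (Nat.floor_le (by linarith))
      have h6 : L / (M * l) ≤ L / l := by
        apply div_le_div_of_nonneg_left hL.le hl0
        nlinarith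
      linarith
    have e3 : Real.log (L / l) = l - Real.log l := by
      rw [Real.log_div hL.ne' hl0.ne', ← hl]
    rw [← e3]
    exact Real.log_le_log (Real.log_pos (by linarith)) e2
  linarith

/-- the tail -/
theorem tail {L l u S z M : ℝ} {B : ℕ} (hLexp : L = Real.exp l) (hl1 : 1 ≤ l)
    (hu : u + 1 ≤ L) (hu0 : 0 ≤ u) (hz : 0 < z) (hlz : 0 < Real.log z)
    (hlz1 : Real.log z ≤ L / (M * l)) (hM : 2000 * ((B : ℝ) + 2) ≤ M) (hS : S ≤ L / 4000) :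
    (u + 1) * Real.exp (2 * S / Real.log z -
      Real.log (Real.exp (L / 1000) / z) / Real.log z) ≤ 1 / L ^ B := by
  have hL0 : 0 < L := by rw [hLexp]; exact Real.exp_pos _
  have hl0 : 0 < l := by linarith
  have hB0 : (0:ℝ) ≤ B := Nat.cast_nonneg B
  have hM0 : 0 < M := by linarith
  have h1 : 2 * S / Real.log z - Real.log (Real.exp (L / 1000) / z) / Real.log z ≤
      1 - M * l / 2000 := by
    rw [Real.log_div (by positivity) hz.ne', Real.log_exp, ← sub_div, div_le_iff₀ hlz]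
    have h2 : M * l / 2000 * Real.log z ≤ L / 2000 := by
      calc M * l / 2000 * Real.log z ≤ M * l / 2000 * (L / (M * l)) :=
            mul_le_mul_of_nonneg_left hlz1 (by positivity)
        _ = L / 2000 := by field_simp
    linarith
  have h2 : 1 - M * l / 2000 ≤ -((B:ℝ) + 1) * l := by
    have h3 : 2000 * ((B : ℝ) + 2) * l ≤ M * l := mul_le_mul_of_nonneg_right hM hl0.le
    linarith
  calc (u + 1) * Real.exp (2 * S / Real.log z -
        Real.log (Real.exp (L / 1000) / z) / Real.log z)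
      ≤ Real.exp l * Real.exp (-((B:ℝ) + 1) * l) := by
        rw [← hLexp]
        exact mul_le_mul hu (Real.exp_le_exp.mpr (h1.trans h2)) (Real.exp_pos _).le hL0.le
    _ = Real.exp (-((B:ℝ) * l)) := by
        rw [← Real.exp_add]
        congr 1
        ring
    _ = 1 / L ^ B := by
        rw [Real.exp_neg, Real.exp_nat_mul, ← hLexp, one_div]

/-- the moment -/
theorem mom {L l u : ℝ} {B J : ℕ} (hLexp : L = Real.exp l) (hl1 : 1 ≤ l)
    (hu : u + 1 ≤ L) (hu0 : 0 ≤ u) (hJ : ((B : ℝ) + 101) * l ≤ J) :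
    (u + 1) * (1 / 8) ^ J * Real.exp (50 * (2 * l)) ≤ 1 / L ^ B := by
  have hL0 : 0 < L := by rw [hLexp]; exact Real.exp_pos _
  have h1 : (1 / (8:ℝ)) ^ J ≤ Real.exp (-((J:ℝ))) := by
    have e1 : (1 / (8:ℝ)) = Real.exp (-(Real.log 8)) := by
      rw [Real.exp_neg, Real.exp_log (by norm_num)]; norm_num
    rw [e1, ← Real.exp_nat_mul]
    apply Real.exp_le_exp.mpr
    have e2 : (1:ℝ) ≤ Real.log 8 := by
      rw [Real.le_log_iff_exp_le (by norm_num)]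
      have := Real.exp_one_lt_d9
      linarith
    have e4 : (0:ℝ) ≤ J := Nat.cast_nonneg J
    nlinarith
  calc (u + 1) * (1 / 8) ^ J * Real.exp (50 * (2 * l))
      ≤ Real.exp l * Real.exp (-((J:ℝ))) * Real.exp (50 * (2 * l)) := by
        rw [← hLexp]
        exact mul_le_mul_of_nonneg_right (mul_le_mul hu h1 (by positivity) hL0.le)
          (Real.exp_pos _).le
    _ = Real.exp (101 * l - J) := by
        rw [← Real.exp_add, ← Real.exp_add]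
        congr 1
        ring
    _ ≤ Real.exp (-((B:ℝ) * l)) := by
        apply Real.exp_le_exp.mpr
        linarith
    _ = 1 / L ^ B := by
        rw [Real.exp_neg, Real.exp_nat_mul, ← hLexp, one_div]

end ParX

open Finset Pool.Agent.H378R2.QG
open Pool.Agent.H256R2.SC (Col emb)

open ParX in
open Pool.Agent.H256R2.SC (emb_mem emb_surj Asum) in
theorem par_exists (C₀ : ℝ) (hC₀ : 0 ≤ C₀) (A B : ℕ) (hA : 3 ≤ A) : ∃ c : ℝ, 0 < c ∧ ∃ L₀ : ℝ,
    ∀ L : ℝ, L₀ ≤ L → ∀ (ps : ℕ) (κ : Type) [Fintype κ] [DecidableEq κ],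
    (Fintype.card κ : ℝ) ≤ c * L →
    ∀ (χ : κ → ℕ → ℝ) (E : Finset κ), (∀ k p, |χ k p| ≤ 1) → (∀ k, χ k ps = -1) →
    (E.card : ℝ) ≤ L ^ (3 / 4 : ℝ) →
    (∀ k w, L ^ A ≤ w → w ≤ Real.exp L → -(C₀ + Real.log L / 20) ≤ Tc (χ k) (L ^ A) w) →
    (∀ k, k ∉ E → ∀ w, L ^ A ≤ w → w ≤ Real.exp L → -C₀ ≤ Tc (χ k) (L ^ A) w) →
    ∃ (z : ℝ) (PP : Finset ℕ) (h : κ → Finset (Fin PP.card) → ℝ) (Kc : κ → ℝ) (J : ℕ),
      Even J ∧ 1 < z ∧ z ≤ Real.exp (L / 1000) ∧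
      (∀ p ∈ PP, p.Prime ∧ L ^ A < (p : ℝ) ∧ (p : ℝ) ≤ z ∧ p ≠ ps) ∧
      z ^ J ≤ Real.exp (L / 10) ∧ ((PP.card : ℝ) + 1) ^ J ≤ Real.exp (L / 10) ∧
      ∑ i : Fin PP.card, 1 / ((emb PP i : ℕ) : ℝ) ≤ Real.log L ∧
      (∀ k, Hyp (fun i => ((emb PP i : ℕ) : ℝ))
        (fun i => (1 + χ k (emb PP i)) / ((emb PP i : ℕ) : ℝ)) (h k) z (Kc k)) ∧
      ((Fintype.card κ : ℝ) + 1) * Real.exp (2 * (∑ k, Kc k) / Real.log z -
        Real.log (Real.exp (L / 1000) / z) / Real.log z) ≤ 1 / L ^ B ∧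
      ((Fintype.card κ : ℝ) + 1) * (1 / 8) ^ J * Real.exp (50 * (2 * Real.log L)) ≤ 1 / L ^ B := by
  classical
  obtain ⟨c₂, hc₂, hAl⟩ := A_lower
  obtain ⟨CM₀, hM₀⟩ := Pool.Agent.Helper256.KM.mertens_inv
  have hc₃ : 0 < c₂ * Real.exp (-C₀) := mul_pos hc₂ (Real.exp_pos _)
  obtain ⟨c₃, hc3⟩ : ∃ c₃, c₃ = c₂ * Real.exp (-C₀) := ⟨_, rfl⟩
  rw [← hc3] at hc₃
  obtain ⟨C₁, hC₁⟩ : ∃ C₁ : ℝ, C₁ = 2 / c₃ + 1 := ⟨_, rfl⟩
  have hC1 : 1 ≤ C₁ := by
    rw [hC₁]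
    have : 0 < 2 / c₃ := by positivity
    linarith
  have hB0 : (0:ℝ) ≤ B := Nat.cast_nonneg B
  obtain ⟨M, hM⟩ : ∃ M : ℝ, M = 2000 * ((B:ℝ) + 102) := ⟨_, rfl⟩
  have hM1 : 204000 ≤ M := by rw [hM]; linarith
  have hM0 : 0 < M := by linarith
  have hA0 : (3:ℝ) ≤ A := by exact_mod_cast hA
  have hA1 : (0:ℝ) < A := by linarith
  obtain ⟨R, hR⟩ : ∃ R : ℝ, R = 8 * A / c₃ := ⟨_, rfl⟩
  have hR0 : 0 < R := by rw [hR]; positivity
  obtain ⟨c, hc⟩ : ∃ c : ℝ, c = min (1 / 2) (1 / (8000 * R)) := ⟨_, rfl⟩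
  have hc0 : 0 < c := by rw [hc]; exact lt_min (by norm_num) (by positivity)
  have hc8 : c ≤ 1 / 2 := by rw [hc]; exact min_le_left _ _
  have hcc : c ≤ 1 / (8000 * R) := by rw [hc]; exact min_le_right _ _
  obtain ⟨K, hK⟩ : ∃ K : ℝ, K = M * C₁ * A + 4 * M * A / c₃ + 8000 * R := ⟨_, rfl⟩
  have hKa : 0 < M * C₁ * A := by positivity
  have hKb : 0 < 4 * M * A / c₃ := by positivity
  have hKc : 0 < 8000 * R := by positivity
  have hK0 : 0 < K := by rw [hK]; positivity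
  obtain ⟨L₀, hL₀⟩ := ev K CM₀ hK0
  refine ⟨c, hc0, L₀, ?_⟩
  intro L hL ps κ _ _ huc χ E hχ hps hE hTb hTg
  obtain ⟨f1, f2, f3, f4⟩ := hL₀ L hL
  obtain ⟨l, hl⟩ : ∃ l, l = Real.log L := ⟨_, rfl⟩
  rw [← hl] at f1 f3 f4 hTb ⊢
  have hl0 : 0 < l := by linarith
  have hl1 : 1 ≤ l := by linarith
  have hLpos : 0 < L := by linarith
  have hLexp : L = Real.exp l := by rw [hl]; exact (Real.exp_log hLpos).symm
  have hLr : ∀ s : ℝ, L ^ s = Real.exp (s * l) := fun s => by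
    rw [Real.rpow_def_of_pos hLpos, ← hl, mul_comm]
  have hKl : ∀ K' : ℝ, K' ≤ K → K' * l ^ 2 ≤ Real.exp (l / 5) := fun K' hK' =>
    (mul_le_mul_of_nonneg_right hK' (by positivity)).trans f3
  -- the scales
  obtain ⟨a, ha⟩ : ∃ a : ℝ, a = A * l := ⟨_, rfl⟩
  have ha0 : 0 < a := by rw [ha]; positivity
  have hl3 : l ≤ l ^ 2 := by nlinarith
  obtain ⟨m, hm1, hm2, hm3⟩ := scales' C₁ a M L l hl hC1 ha0 hM0 hl1 (by
    have h1 := hKl (M * C₁ * A) (by rw [hK]; linarith)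
    rw [hLr]
    calc M * C₁ * a * l = M * C₁ * A * l ^ 2 := by rw [ha]; ring
      _ ≤ Real.exp (l / 5) := h1
      _ ≤ Real.exp (3 / 10 * l) := Real.exp_le_exp.mpr (by linarith)) f2
  obtain ⟨z₀, hz₀⟩ : ∃ z₀, z₀ = Real.exp (C₁ * a) := ⟨_, rfl⟩
  obtain ⟨z, hz⟩ : ∃ z, z = z₀ ^ (2 ^ m) := ⟨_, rfl⟩
  have hlogz0 : Real.log z₀ = C₁ * a := by rw [hz₀]; exact Real.log_exp _
  have hz01 : 1 < z₀ := by rw [hz₀]; exact Real.one_lt_exp_iff.mpr (by positivity)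
  have hlogz : Real.log z = (2:ℝ) ^ m * (C₁ * a) := by
    rw [hz, Real.log_pow, hlogz0]
    push_cast
    ring
  have hzpos : 0 < z := by rw [hz]; positivity
  have hlz1 : Real.log z ≤ L / (M * l) := by rw [hlogz]; exact hm1
  have hlz2 : L / (2 * M * l) ≤ Real.log z := by rw [hlogz]; exact hm2
  have hyz' : a ≤ Real.log z := by
    rw [hlogz]
    have h2j : (1:ℝ) ≤ 2 ^ m := one_le_pow₀ (by norm_num)
    have h1 : a ≤ C₁ * a := by nlinarith
    have h2 : 1 * (C₁ * a) ≤ 2 ^ m * (C₁ * a) :=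
      mul_le_mul_of_nonneg_right h2j (by positivity)
    linarith
  have hlzpos : 0 < Real.log z := by linarith
  have hzexp : z = Real.exp (Real.log z) := (Real.exp_log hzpos).symm
  have hz1 : 1 < z := by rw [hzexp]; exact Real.one_lt_exp_iff.mpr hlzpos
  have hlzL : Real.log z ≤ L / 1000 := by
    refine hlz1.trans ?_
    apply div_le_div_of_nonneg_left hLpos.le (by norm_num)
    nlinarith
  have hzL : z ≤ Real.exp L := by
    rw [hzexp]
    exact Real.exp_le_exp.mpr (by linarith)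
  have hlogy : Real.log (L ^ A) = a := by rw [Real.log_pow, ← hl, ha]
  have hyL : L ≤ L ^ A := le_self_pow₀ (by linarith) (by omega)
  have hy1 : 3 ≤ L ^ A := by linarith
  have hyz : L ^ A ≤ z := by
    rw [← Real.log_le_log_iff (by linarith) hzpos, hlogy]
    exact hyz'
  have hz3 : 3 ≤ z := by linarith
  -- the sieving primes
  obtain ⟨PP, hPP⟩ : ∃ PP, PP = (PZ (L ^ A) z).erase ps := ⟨_, rfl⟩
  have hPPsub : PP ⊆ PZ (L ^ A) z := by rw [hPP]; exact erase_subset _ _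
  have hPPmem : ∀ p ∈ PP, p.Prime ∧ L ^ A < (p:ℝ) ∧ (p:ℝ) ≤ z ∧ p ≠ ps := by
    intro p hp
    have hne : p ≠ ps := by
      rw [hPP] at hp
      exact (mem_erase.1 hp).1
    have hp' := hPPsub hp
    unfold PZ at hp'
    rw [Finset.mem_filter, Finset.mem_Icc] at hp'
    refine ⟨hp'.2.1, hp'.2.2, ?_, hne⟩
    calc (p:ℝ) ≤ (⌊z⌋₊ : ℝ) := by exact_mod_cast hp'.1.2
      _ ≤ z := Nat.floor_le hzpos.le
  have hn1 : (PP.card:ℝ) + 1 ≤ z := by
    have h1 : PP ⊆ Finset.Icc 2 ⌊z⌋₊ := by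
      intro p hp
      have hp' := hPPsub hp
      unfold PZ at hp'
      rw [Finset.mem_filter, Finset.mem_Icc] at hp'
      rw [Finset.mem_Icc]
      exact ⟨hp'.2.1.two_le, hp'.1.2⟩
    have h2 := Finset.card_le_card h1
    rw [Nat.card_Icc] at h2
    have h3 : 1 ≤ ⌊z⌋₊ := Nat.le_floor (by
      push_cast
      exact hz1.le)
    have h4 : PP.card + 1 ≤ ⌊z⌋₊ := by omega
    calc (PP.card:ℝ) + 1 ≤ (⌊z⌋₊ : ℝ) := by exact_mod_cast h4
      _ ≤ z := Nat.floor_le hzpos.le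
  have hPy : ∀ i : Fin PP.card, L ^ A < ((emb PP i : ℕ) : ℝ) :=
    fun i => (hPPmem _ (emb_mem PP i)).2.1
  have hP1 : ∀ i : Fin PP.card, 1 < ((emb PP i : ℕ) : ℝ) := fun i => by linarith [hPy i]
  have hP0 : ∀ i : Fin PP.card, 0 < ((emb PP i : ℕ) : ℝ) := fun i => by linarith [hPy i]
  have hg0 : ∀ (i : Fin PP.card) (k : κ), 0 ≤ (1 + χ k (emb PP i)) / ((emb PP i : ℕ) : ℝ) :=
    fun i k => by
      apply div_nonneg _ (hP0 i).le
      have := (abs_le.mp (hχ k (emb PP i))).1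
      linarith
  have hAsum : ∀ (k : κ) (x : ℝ), Asum (fun i => ((emb PP i : ℕ) : ℝ))
      (fun i => (1 + χ k (emb PP i)) / ((emb PP i : ℕ) : ℝ)) x =
      ∑ s ∈ ((PZ (L ^ A) z).powerset.filter
        (fun s : Finset ℕ => s.Nonempty ∧ ∏ p ∈ s, (p : ℝ) ≤ x)), ∏ p ∈ s, (1 + χ k p) / p := by
    intro k x
    rw [← Asum_erase (PZ (L ^ A) z) ps (fun p => (1 + χ k p) / p) (by
      show (1 + χ k ps) / (ps : ℝ) = 0
      rw [hps k]
      simp) x, ← hPP]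
    have := Asum_enum PP (fun p => (1 + χ k p) / p) x
    refine this.trans ?_
    congr
  obtain ⟨K₁, hK₁⟩ : ∃ K₁, K₁ = 4 / (c₃ / (2 * a) * ((m + 1 : ℕ) : ℝ)) := ⟨_, rfl⟩
  obtain ⟨c', hc'⟩ : ∃ c' : ℝ, c' = c₃ * Real.exp (-(l / 20)) := ⟨_, rfl⟩
  have hc'0 : 0 < c' := by rw [hc']; positivity
  obtain ⟨K₂, hK₂⟩ : ∃ K₂, K₂ = 8 * a / c' := ⟨_, rfl⟩
  have hgood : ∀ k : κ, k ∉ E → ∃ h, Hyp (fun i => ((emb PP i : ℕ) : ℝ))
      (fun i => (1 + χ k (emb PP i)) / ((emb PP i : ℕ) : ℝ)) h z K₁ := by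
    intro k hk
    rw [hK₁]
    apply prof_good' hc₃ ha0 (by rw [hlogz0, hC₁]) hz01 hz (by linarith : 0 < L ^ A) hlogy _ _ hP1
      (fun i => hg0 i k)
    intro x hx1 hx2
    have h1 := hAl (L ^ A) z x C₀ (χ k) (hχ k) hy1 hx1 hx2 hC₀
      (fun w hw1 hw2 => hTg k hk w hw1 (hw2.trans hzL))
    rw [← hc3] at h1
    rw [hAsum]
    refine h1.trans (le_of_eq ?_)
    congr
  have hbad : ∀ k : κ, ∃ h, Hyp (fun i => ((emb PP i : ℕ) : ℝ))
      (fun i => (1 + χ k (emb PP i)) / ((emb PP i : ℕ) : ℝ)) h z K₂ := by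
    intro k
    rw [hK₂]
    apply prof_bad' hc'0 ha0 hz1 _ _ hP1 (fun i => hg0 i k)
    · have h1 := hKl (4 * M * A / c₃) (by rw [hK]; linarith)
      have h2 : c' * ((L / (2 * M * l)) / a) ≤ c' * (Real.log z / a) :=
        mul_le_mul_of_nonneg_left (div_le_div_of_nonneg_right hlz2 ha0.le) hc'0.le
      refine le_trans ?_ h2
      have h3 : c' * ((L / (2 * M * l)) / a) =
          c₃ * (Real.exp (-(l / 20)) * Real.exp l) / (2 * M * A * l ^ 2) := by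
        rw [hc', ha, ← hLexp]
        field_simp
      rw [h3, le_div_iff₀ (by positivity), ← Real.exp_add]
      have h4 : Real.exp (l / 5) ≤ Real.exp (-(l / 20) + l) :=
        Real.exp_le_exp.mpr (by linarith)
      have h5 : c₃ * (4 * M * A / c₃ * l ^ 2) ≤ c₃ * Real.exp (-(l / 20) + l) :=
        mul_le_mul_of_nonneg_left (h1.trans h4) hc₃.le
      have h6 : c₃ * (4 * M * A / c₃ * l ^ 2) = 2 * (2 * M * A * l ^ 2) := by
        field_simp
        ring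
      rw [h6] at h5
      exact h5
    · have h1 := hAl (L ^ A) z z (C₀ + l / 20) (χ k) (hχ k) hy1 hyz le_rfl (by positivity)
        (fun w hw1 hw2 => hTb k w hw1 (hw2.trans hzL))
      have h2 : c₂ * Real.exp (-(C₀ + l / 20)) = c' := by
        rw [hc', hc3, mul_assoc, ← Real.exp_add]
        congr 2
        ring
      rw [h2, hlogy] at h1
      rw [hAsum]
      refine h1.trans (le_of_eq ?_)
      congr
  have hprof : ∀ k : κ, ∃ h, Hyp (fun i => ((emb PP i : ℕ) : ℝ))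
      (fun i => (1 + χ k (emb PP i)) / ((emb PP i : ℕ) : ℝ)) h z
      (if k ∈ E then K₂ else K₁) := by
    intro k
    by_cases hk : k ∈ E
    · obtain ⟨h, H⟩ := hbad k
      refine ⟨h, ?_⟩
      rw [if_pos hk]
      exact H
    · obtain ⟨h, H⟩ := hgood k hk
      refine ⟨h, ?_⟩
      rw [if_neg hk]
      exact H
  choose h H using hprof
  have hK16 : K₁ ≤ R := by
    rw [hK₁, hR, div_le_div_iff₀ (by positivity) hc₃]
    have h1 : c₃ / (2 * A) ≤ c₃ / (2 * a) * ((m + 1 : ℕ) : ℝ) := by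
      push_cast
      calc c₃ / (2 * A) = c₃ / (2 * a) * l := by
            rw [ha]
            field_simp
        _ ≤ c₃ / (2 * a) * (m + 1) := mul_le_mul_of_nonneg_left hm3 (by positivity)
    have h2 : 8 * (A:ℝ) * (c₃ / (2 * A)) = 4 * c₃ := by
      field_simp
      norm_num
    calc 4 * c₃ = 8 * (A:ℝ) * (c₃ / (2 * A)) := h2.symm
      _ ≤ 8 * (A:ℝ) * (c₃ / (2 * a) * ((m + 1 : ℕ) : ℝ)) :=
          mul_le_mul_of_nonneg_left h1 (by positivity)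
  have hK₁0 : 0 ≤ K₁ := by rw [hK₁]; positivity
  have hK₂0 : 0 ≤ K₂ := by rw [hK₂]; positivity
  have hk2 : L ^ (3 / 4 : ℝ) * K₂ ≤ L / 8000 := by
    have h1 := hKl (8000 * R) (by rw [hK]; linarith)
    have h2 : K₂ = R * l * Real.exp (l / 20) := by
      rw [hK₂, hc', ha, hR, Real.exp_neg]
      field_simp
    have h3 : 8000 * (R * l) ≤ Real.exp (l / 5) := by
      refine le_trans ?_ h1
      have : R * l ≤ R * l ^ 2 := mul_le_mul_of_nonneg_left hl3 hR0.le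
      linarith
    rw [h2, hLr]
    calc Real.exp (3 / 4 * l) * (R * l * Real.exp (l / 20))
        = (8000 * (R * l)) * (Real.exp (3 / 4 * l) * Real.exp (l / 20)) / 8000 := by ring
      _ ≤ Real.exp (l / 5) * (Real.exp (3 / 4 * l) * Real.exp (l / 20)) / 8000 := by
          apply div_le_div_of_nonneg_right _ (by norm_num)
          exact mul_le_mul_of_nonneg_right h3 (by positivity)
      _ = Real.exp (l / 5 + (3 / 4 * l + l / 20)) / 8000 := by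
          rw [← Real.exp_add, ← Real.exp_add]
      _ ≤ Real.exp l / 8000 := by
          apply div_le_div_of_nonneg_right _ (by norm_num)
          apply Real.exp_le_exp.mpr
          linarith
      _ = L / 8000 := by rw [← hLexp]
  have hKsum : ∑ k, (if k ∈ E then K₂ else K₁) ≤ L / 4000 :=
    Ksum_le' E hR0 hLpos.le hK₁0 hK16 hK₂0 hcc hc0.le huc hE hk2
  have hu0 : (0:ℝ) ≤ (Fintype.card κ : ℝ) := Nat.cast_nonneg _
  have huL : (Fintype.card κ : ℝ) + 1 ≤ L := by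
    have : c * L ≤ 1 / 2 * L := mul_le_mul_of_nonneg_right hc8 hLpos.le
    linarith
  -- the number of factors
  obtain ⟨J, hJ⟩ : ∃ J : ℕ, J = 2 * ⌈((B:ℝ) + 101) * l⌉₊ := ⟨_, rfl⟩
  have hJ1 : ((B:ℝ) + 101) * l ≤ (J:ℝ) := by
    have h1 := Nat.le_ceil (((B:ℝ) + 101) * l)
    have h2 : 0 ≤ ((B:ℝ) + 101) * l := by positivity
    rw [hJ]; push_cast; linarith
  have hJ2 : (J:ℝ) ≤ 2 * ((B:ℝ) + 102) * l := by
    have h1 := Nat.ceil_lt_add_one (show 0 ≤ ((B:ℝ) + 101) * l by positivity)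
    rw [hJ]; push_cast; linarith
  have hJe : Even J := ⟨⌈((B:ℝ) + 101) * l⌉₊, by rw [hJ]; ring⟩
  have hzJ : z ^ J ≤ Real.exp (L / 10) := by
    rw [hzexp, ← Real.exp_nat_mul]
    apply Real.exp_le_exp.mpr
    calc (J:ℝ) * Real.log z ≤ (2 * ((B:ℝ) + 102) * l) * (L / (M * l)) :=
          mul_le_mul hJ2 hlz1 hlzpos.le (by positivity)
      _ = L / 1000 := by
          rw [hM]
          field_simp
          norm_num
      _ ≤ L / 10 := by linarith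
  have hsumP : ∑ i : Fin PP.card, 1 / ((emb PP i : ℕ) : ℝ) ≤ l := by
    have h1 : ∑ i : Fin PP.card, 1 / ((emb PP i : ℕ) : ℝ) = ∑ p ∈ PP, 1 / (p:ℝ) := by
      have : PP = univ.map (emb PP) := by
        ext p
        rw [Finset.mem_map]
        constructor
        · intro hp
          obtain ⟨i, hi⟩ := emb_surj PP hp
          exact ⟨i, Finset.mem_univ _, hi⟩
        · rintro ⟨i, _, rfl⟩
          exact emb_mem PP i
      conv_rhs => rw [this]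
      rw [Finset.sum_map]
    rw [h1]
    exact sum_inv hM₀ hl hLpos hl0 (by linarith) f4 hz3 hlz1 PP hPPsub
  refine ⟨z, PP, h, fun k => if k ∈ E then K₂ else K₁, J, hJe, hz1, ?_, hPPmem, hzJ, ?_, hsumP,
    H, ?_, ?_⟩
  · rw [hzexp]
    exact Real.exp_le_exp.mpr hlzL
  · exact (pow_le_pow_left₀ (add_nonneg (Nat.cast_nonneg _) zero_le_one) hn1 J).trans hzJ
  · exact tail hLexp hl1 huL hu0 hzpos hlzpos hlz1 (by rw [hM]; linarith) hKsum
  · exact mom hLexp hl1 huL hu0 hJ1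

end Pool.Agent.TH325.PQ
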