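import Pool.Agent.TH325.PQ.Mass
import Pool.Agent.TH325.PQ.Par
import Pool.Agent.H312R2.RG.VW4
import Pool.Agent.H312R2.RG.V2
import Pool.Agent.H312R2.RG.DS

set_option autoImplicit false
set_option linter.unusedSectionVars false

/-! # The weights at a fixed `X` (helper325) -/

namespace Pool.Agent.TH325.PQ

open Finset
open Pool.Agent.H256R2.SC (Col Lv qq SS emb emb_mem)
open Pool.Agent.H312R2.RG (pP gP gQ)

variable {κ : Type} [Fintype κ] [DecidableEq κ]

/-- densities of the colours for the sieving primes `PP` -/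
noncomputable def gRP (PP : Finset ℕ) (R : ℕ → κ → Finset ℕ) (i : Fin PP.card) (k : κ) : ℝ :=
  gR (pP PP) (fun i => R (emb PP i)) i k

/-- the square of the sieve weight -/
noncomputable def V1 (PP : Finset ℕ) (R : ℕ → κ → Finset ℕ) (h : κ → Finset (Fin PP.card) → ℝ) (Q : ℝ)
    (y : Col PP.card κ) : ℝ :=
  (Pool.Agent.H378R2.QG.VV (gRP PP R) (Pool.Agent.H378R2.QG.yT (pP PP) h Q) y) ^ 2

/-- the majorant of the number of missing colours -/
noncomputable def T1 (PP : Finset ℕ) (J : ℕ) (y : Col PP.card κ) : ℝ := ∑ k, SS J k y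

/-- the colouring realised by the classes -/
noncomputable def lf (PP : Finset ℕ) (R : ℕ → κ → Finset ℕ) (r : ℕ → κ × Fin 2 → ℕ) (x : Col PP.card (κ × Fin 2)) :
    Col PP.card κ :=
  lft (fun i => R (emb PP i)) (fun i => r (emb PP i)) x

/-- data at a fixed `X` -/
structure Dat (L : ℝ) (A ps : ℕ) (PP : Finset ℕ) (z : ℝ) (J : ℕ) (h : κ → Finset (Fin PP.card) → ℝ)
    (Kc : κ → ℝ) (R : ℕ → κ → Finset ℕ) (r : ℕ → κ × Fin 2 → ℕ) : Prop where
  hL : 10000 ≤ L
  hA : 64 ≤ A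
  cu : (Fintype.card κ : ℝ) * 2 ≤ L
  med : ∀ p ∈ PP, p.Prime ∧ L ^ A < (p : ℝ) ∧ (p : ℝ) ≤ z ∧ p ≠ ps
  z1 : 1 < z
  zz : z ≤ Real.exp (L / 1000)
  Je : Even J
  zJ : z ^ J ≤ Real.exp (L / 10)
  nJ : ((PP.card : ℝ) + 1) ^ J ≤ Real.exp (L / 10)
  sP : ∑ i : Fin PP.card, 1 / ((emb PP i : ℕ) : ℝ) ≤ Real.log L
  H : ∀ k, Pool.Agent.H378R2.QG.Hyp (pP PP) (fun i => gRP PP R i k) (h k) z (Kc k)
  par1 : ((Fintype.card κ : ℝ) + 1) * Real.exp (2 * (∑ k, Kc k) / Real.log z -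
        Real.log (Real.exp (L / 1000) / z) / Real.log z) ≤ 1 / L ^ 3
  par2 : ((Fintype.card κ : ℝ) + 1) * (1 / 8) ^ J * Real.exp (50 * (2 * Real.log L)) ≤ 1 / L ^ 3
  rin : ∀ p ∈ PP, ∀ c, r p c ∈ Ioo 0 p
  rinj : ∀ p ∈ PP, Function.Injective (r p)
  rR : ∀ p ∈ PP, ∀ k, ((univ : Finset (Fin 2)).filter (fun j => r p (k, j) ∈ R p k)).card = (R p k).card
  cR : ∀ p ∈ PP, ∀ k, (R p k).card ≤ 2

section
variable {L : ℝ} {A ps : ℕ} {PP : Finset ℕ} {z : ℝ} {J : ℕ} {h : κ → Finset (Fin PP.card) → ℝ}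
  {Kc : κ → ℝ} {R : ℕ → κ → Finset ℕ} {r : ℕ → κ × Fin 2 → ℕ}

theorem Dat.L0 (D : Dat L A ps PP z J h Kc R r) : 0 < L := by linarith [D.hL]

theorem Dat.pL (D : Dat L A ps PP z J h Kc R r) (i : Fin PP.card) : L ^ A < pP PP i :=
  (D.med _ (emb_mem PP i)).2.1

theorem Dat.powA (D : Dat L A ps PP z J h Kc R r) {m : ℕ} (hm : m ≤ 64) : L ^ m ≤ L ^ A :=
  pow_le_pow_right₀ (by linarith [D.hL]) (hm.trans D.hA)

theorem Dat.p100 (D : Dat L A ps PP z J h Kc R r) (i : Fin PP.card) : 100 * L ≤ pP PP i := by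
  have h1 := D.pL i
  have h2 := D.powA (m := 2) (by norm_num)
  have h3 := D.hL
  nlinarith

theorem Dat.dens (D : Dat L A ps PP z J h Kc R r) :
    Dens (pP PP) (fun i => R (emb PP i)) (fun i => r (emb PP i)) L where
  u1 := by linarith [D.hL]
  cu := by exact_mod_cast D.cu
  cR := fun i k => D.cR _ (emb_mem PP i) k
  hc := fun i k => D.rR _ (emb_mem PP i) k
  hp := D.p100

theorem Dat.p0 (D : Dat L A ps PP z J h Kc R r) (i : Fin PP.card) : 0 < pP PP i := by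
  have := D.p100 i
  have := D.hL
  linarith

theorem Dat.p1 (D : Dat L A ps PP z J h Kc R r) (i : Fin PP.card) : 1 ≤ pP PP i := by
  have := D.p100 i
  have := D.hL
  linarith

theorem Dat.g0 (D : Dat L A ps PP z J h Kc R r) (i : Fin PP.card) (k : κ) : 0 ≤ gRP PP R i k :=
  D.dens.g0 i k

theorem Dat.g2 (D : Dat L A ps PP z J h Kc R r) (i : Fin PP.card) (k : κ) :
    gRP PP R i k ≤ 2 / pP PP i := by
  unfold gRP gR
  apply div_le_div_of_nonneg_right _ (D.p0 i).le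
  exact_mod_cast D.cR _ (emb_mem PP i) k

theorem Dat.gL (D : Dat L A ps PP z J h Kc R r) (i : Fin PP.card) (k : κ) :
    gRP PP R i k ≤ 2 / L ^ A := by
  refine (D.g2 i k).trans ?_
  have := D.L0
  exact div_le_div_of_nonneg_left (by norm_num) (by positivity) (D.pL i).le

theorem Dat.LA (D : Dat L A ps PP z J h Kc R r) : 2 / L ^ A ≤ 1 / 1000 := by
  have h0 := D.L0
  have h1 := D.powA (m := 1) (by norm_num)
  rw [pow_one] at h1
  have h2 := D.hL
  rw [div_le_div_iff₀ (by positivity) (by norm_num)]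
  linarith

theorem Dat.gsum (D : Dat L A ps PP z J h Kc R r) (i : Fin PP.card) : ∑ k, gRP PP R i k ≤ 1 / 100 :=
  (D.dens.gsum i).trans (D.dens.up i)

theorem Dat.sPp (D : Dat L A ps PP z J h Kc R r) : ∑ i : Fin PP.card, 1 / pP PP i ≤ Real.log L := D.sP

theorem Dat.logL (D : Dat L A ps PP z J h Kc R r) : Real.log L ≤ L :=
  (Real.log_le_sub_one_of_pos D.L0).trans (by linarith)

theorem Dat.logL1 (D : Dat L A ps PP z J h Kc R r) : 1 ≤ Real.log L := by
  rw [Real.le_log_iff_exp_le D.L0]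
  have := Real.exp_one_lt_d9
  linarith [D.hL]

/-- sum of the inverse squares -/
theorem Dat.isq (D : Dat L A ps PP z J h Kc R r) : ∑ i, 1 / (pP PP i) ^ 2 ≤ L / L ^ A := by
  have h0 := D.L0
  have h1 : ∀ i ∈ (univ : Finset (Fin PP.card)), 1 / (pP PP i) ^ 2 ≤ (1 / L ^ A) * (1 / pP PP i) := by
    intro i _
    have h2 := D.p0 i
    have h3 := D.pL i
    rw [one_div_mul_one_div]
    apply one_div_le_one_div_of_le (by positivity)
    rw [sq]
    exact mul_le_mul_of_nonneg_right h3.le h2.le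
  refine (Finset.sum_le_sum h1).trans ?_
  rw [← Finset.mul_sum]
  calc (1 / L ^ A) * ∑ i, 1 / pP PP i ≤ (1 / L ^ A) * L := by
        apply mul_le_mul_of_nonneg_left (D.sPp.trans D.logL) (by positivity)
    _ = _ := by ring

theorem Dat.LLA (D : Dat L A ps PP z J h Kc R r) : L ^ 3 / L ^ A ≤ 1 / L ^ 3 := by
  have h0 := D.L0
  rw [div_le_div_iff₀ (by positivity) (by positivity), one_mul, ← pow_add]
  exact D.powA (by norm_num)

theorem Dat.hs (D : Dat L A ps PP z J h Kc R r) :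
    2 * (Fintype.card κ : ℝ) * ∑ i, 1 / (pP PP i) ^ 2 ≤ 1 := by
  have h0 := D.L0
  have hL := D.hL
  have h1 := D.isq
  have h2 := D.cu
  have h3 : 2 * (Fintype.card κ : ℝ) * ∑ i, 1 / (pP PP i) ^ 2 ≤ L * (L / L ^ A) := by
    apply mul_le_mul (by linarith) h1 (Finset.sum_nonneg fun i _ => by positivity) h0.le
  have h4 : L * (L / L ^ A) ≤ L ^ 3 / L ^ A := by
    rw [mul_div_assoc']
    apply div_le_div_of_nonneg_right _ (by positivity)
    nlinarith [mul_pos h0 h0]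
  have h5 := D.LLA
  have h6 : 1 / L ^ 3 ≤ 1 := by
    rw [div_le_one (by positivity)]
    exact one_le_pow₀ (by linarith)
  linarith

theorem Dat.Q1 (D : Dat L A ps PP z J h Kc R r) : 1 ≤ Real.exp (L / 1000) :=
  Real.one_le_exp (by linarith [D.L0])

theorem Dat.yT1 (D : Dat L A ps PP z J h Kc R r) (Q : ℝ) (E : Col PP.card κ) :
    |Pool.Agent.H378R2.QG.yT (pP PP) h Q E| ≤ 1 := by
  unfold Pool.Agent.H378R2.QG.yT
  split_ifs
  · exact Pool.Agent.H378R2.QG.QJx.yy_abs_le (fun k => (D.H k).h0) (fun k => (D.H k).h1) E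
  · simp

/-- level of the weight -/
theorem Dat.LvV (D : Dat L A ps PP z J h Kc R r) {Q : ℝ} (hQ : 0 < Q) :
    Lv (pP PP) (Q ^ 2) (9 * Q ^ 4) (V1 PP R h Q) := by
  have hVL : Lv (pP PP) Q (3 * Q ^ 2) (Pool.Agent.H378R2.QG.VV (gRP PP R)
      (Pool.Agent.H378R2.QG.yT (pP PP) h Q)) := by
    refine Pool.Agent.H256R2.SC.Lv_mono le_rfl
      (Pool.Agent.H256R2.SC.count_assign (κ := κ) (pP PP) D.p1 D.hs Q hQ) ?_
    refine Pool.Agent.H378R2.QG.Lv_VV (pP PP) (gRP PP R) D.p1 D.g0 (fun i k => ?_) _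
      (D.yT1 Q) Q ?_
    · have := D.gL i k
      have := D.LA
      linarith
    · intro E hE
      by_contra hc
      exact hE (by unfold Pool.Agent.H378R2.QG.yT; rw [if_neg hc])
  have h1 := Pool.Agent.H256R2.SC.Lv_mul D.p1 hVL hVL
  have e2 : V1 PP R h Q = fun x => Pool.Agent.H378R2.QG.VV (gRP PP R)
      (Pool.Agent.H378R2.QG.yT (pP PP) h Q) x * Pool.Agent.H378R2.QG.VV (gRP PP R)
      (Pool.Agent.H378R2.QG.yT (pP PP) h Q) x := by
    funext x
    unfold V1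
    ring
  rw [e2]
  exact Pool.Agent.H256R2.SC.Lv_mono (le_of_eq (by ring)) (le_of_eq (by ring)) h1

theorem Dat.LvT (D : Dat L A ps PP z J h Kc R r) :
    Lv (pP PP) (z ^ J) (Fintype.card κ * ((PP.card : ℝ) + 1) ^ J) (T1 (κ := κ) PP J) := by
  have e2 := Pool.Agent.H256R2.SC.Lv_sum (p := pP PP) (Q := z ^ J) (univ : Finset κ)
    (fun _ => ((PP.card : ℝ) + 1) ^ J) (fun k => (SS J k : Col PP.card κ → ℝ))
    (fun k _ => Pool.Agent.H256R2.SC.Lv_SS (pP PP) D.p1 z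
      (fun i => (D.med _ (emb_mem PP i)).2.2.1) D.z1.le J k)
  refine Pool.Agent.H256R2.SC.Lv_mono le_rfl ?_ e2
  rw [Finset.sum_const, Finset.card_univ, nsmul_eq_mul]

/-- level of the lifted functions -/
theorem Dat.lift (D : Dat L A ps PP z J h Kc R r) {Q B : ℝ} {G : Col PP.card κ → ℝ} (hQ : 0 ≤ Q)
    (hG : Lv (pP PP) Q B G) : Lv (pP PP) Q (B * Q) (fun x => G (lf PP R r x)) := by
  refine Lv_lift (fun i => pim (R (emb PP i)) (r (emb PP i))) (fun i => rfl) ?_ hQ hG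
  intro i k
  have h1 := sum_pim_some (R (emb PP i)) (r (emb PP i)) (fun _ => (1 : ℝ)) 1 (fun _ => rfl) k
  rw [Finset.sum_const, nsmul_eq_mul, mul_one, mul_one, D.rR _ (emb_mem PP i)] at h1
  rw [h1]
  have h2 : ((R (emb PP i) k).card : ℝ) ≤ 2 := by exact_mod_cast D.cR _ (emb_mem PP i) k
  have := D.p100 i
  have := D.hL
  linarith

theorem Dat.supp (D : Dat L A ps PP z J h Kc R r) (E : Col PP.card κ)
    (hE : qq (pP PP) E ≤ Real.exp (L / 1000)) (k : κ) :
    2 * ∑ i with E i ≠ none, gRP PP R i k ≤ 1 / L ^ 3 := by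
  have h0 := D.L0
  have hL := D.hL
  have hp2 : ∀ i, L ^ 2 < pP PP i := fun i => (D.powA (by norm_num)).trans_lt (D.pL i)
  have h1 := Pool.Agent.H378R2.QG.supp_card_le (pP PP) (Real.exp_log h0).symm (by linarith) hp2 E
    (L / 1000) hE
  have h2 : ((Pool.Agent.H256R2.SC.supp E).card : ℝ) ≤ L / 1000 := by
    have h3 : 0 ≤ ((Pool.Agent.H256R2.SC.supp E).card : ℝ) := Nat.cast_nonneg _
    nlinarith [D.logL1]
  have h3 : ∑ i with E i ≠ none, gRP PP R i k ≤ (Pool.Agent.H256R2.SC.supp E).card * (2 / L ^ A) := by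
    have : ∑ i ∈ Pool.Agent.H256R2.SC.supp E, gRP PP R i k ≤
        ∑ i ∈ Pool.Agent.H256R2.SC.supp E, (2 / L ^ A) :=
      Finset.sum_le_sum (fun i _ => D.gL i k)
    rw [Finset.sum_const, nsmul_eq_mul] at this
    exact this
  have h4 : ((Pool.Agent.H256R2.SC.supp E).card : ℝ) * (2 / L ^ A) ≤ L / 1000 * (2 / L ^ A) :=
    mul_le_mul_of_nonneg_right h2 (by positivity)
  have h5 : 2 * (L / 1000 * (2 / L ^ A)) ≤ L ^ 3 / L ^ A := by
    rw [mul_div_assoc', mul_div_assoc']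
    apply div_le_div_of_nonneg_right _ (by positivity)
    have : 1 ≤ L ^ 2 := one_le_pow₀ (by linarith)
    nlinarith
  linarith [D.LLA]

/-- total mass -/
theorem Dat.Z1 (D : Dat L A ps PP z J h Kc R r) :
    1 ≤ Pool.Agent.H378R2.QG.Zs (gRP PP R) h :=
  Pool.Agent.H378R2.QG.QJx.Zs_ge_one D.g0

theorem Dat.tailE (D : Dat L A ps PP z J h Kc R r) :
    Real.exp (2 * (∑ k, Kc k) / Real.log z - Real.log (Real.exp (L / 1000) / z) / Real.log z) ≤
      1 / L ^ 3 := by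
  refine le_trans ?_ D.par1
  have h1 := Real.exp_pos (2 * (∑ k, Kc k) / Real.log z -
    Real.log (Real.exp (L / 1000) / z) / Real.log z)
  have h2 : (0 : ℝ) ≤ Fintype.card κ := Nat.cast_nonneg _
  nlinarith

theorem Dat.L3 (D : Dat L A ps PP z J h Kc R r) : 1 / L ^ 3 ≤ 1 / 10000 := by
  have h0 := D.L0
  apply one_div_le_one_div_of_le (by norm_num)
  have hL := D.hL
  have : 1 ≤ L ^ 2 := one_le_pow₀ (by linarith)
  nlinarith

theorem Dat.uL3 (D : Dat L A ps PP z J h Kc R r) : (Fintype.card κ : ℝ) * (1 / L ^ 3) ≤ 1 / 10000 := by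
  have h0 := D.L0
  have hL := D.hL
  have h2 : (0 : ℝ) ≤ Fintype.card κ := Nat.cast_nonneg _
  have h3 : (Fintype.card κ : ℝ) * (1 / L ^ 3) ≤ L * (1 / L ^ 3) :=
    mul_le_mul_of_nonneg_right (by linarith [D.cu]) (by positivity)
  have h4 : L * (1 / L ^ 3) = 1 / L ^ 2 := by field_simp
  have h5 : 1 / L ^ 2 ≤ 1 / 10000 := by
    apply one_div_le_one_div_of_le (by norm_num)
    nlinarith
  linarith

/-- lower bound of the mass -/
theorem Dat.low (D : Dat L A ps PP z J h Kc R r) :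
    3 / 4 * Pool.Agent.H378R2.QG.Zs (gRP PP R) h ≤
      Pool.Agent.H378R2.QG.EE (gRP PP R) (V1 PP R h (Real.exp (L / 1000))) := by
  have hQ0 : 0 < Real.exp (L / 1000) := Real.exp_pos _
  have hT := Pool.Agent.H378R2.QG.tail_bound D.H D.z1 (Real.exp (L / 1000) / z)
    (div_pos hQ0 (by linarith [D.z1]))
  refine Pool.Agent.H378R2.QG.QJx.second_lower (z := z) (Real.exp (L / 1000)) (1 / L ^ 3) _ D.g0 D.z1
    (fun i => (D.gsum i).trans (by norm_num)) D.supp ?_ hQ0 hT ?_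
  · linarith [D.uL3]
  · have h1 := D.tailE
    have h2 := D.L3
    have h3 := D.Z1
    apply mul_le_mul_of_nonneg_right _ (by linarith)
    linarith

/-- upper bound for the missing colours -/
theorem Dat.up (D : Dat L A ps PP z J h Kc R r) :
    Pool.Agent.H378R2.QG.EE (gRP PP R) (fun y => V1 PP R h (Real.exp (L / 1000)) y * T1 PP J y) ≤
      3 / L ^ 3 * Pool.Agent.H378R2.QG.Zs (gRP PP R) h := by
  have h0 := D.L0
  have hL := D.hL
  have hQ0 : 0 < Real.exp (L / 1000) := Real.exp_pos _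
  have hT := Pool.Agent.H378R2.QG.tail_bound D.H D.z1 (Real.exp (L / 1000) / z)
    (div_pos hQ0 (by linarith [D.z1]))
  set E := Real.exp (2 * (∑ k, Kc k) / Real.log z -
    Real.log (Real.exp (L / 1000) / z) / Real.log z) with hE
  set Z := Pool.Agent.H378R2.QG.Zs (gRP PP R) h with hZ
  have hZ1 : 1 ≤ Z := D.Z1
  have hG : ∀ k, ∑ i, gRP PP R i k ≤ 2 * Real.log L := by
    intro k
    calc ∑ i, gRP PP R i k ≤ ∑ i, 2 * (1 / pP PP i) := by
          apply Finset.sum_le_sum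
          intro i _
          have := D.g2 i k
          have e : 2 * (1 / pP PP i) = 2 / pP PP i := by ring
          rw [e]
          exact this
      _ = 2 * ∑ i, 1 / pP PP i := by rw [Finset.mul_sum]
      _ ≤ 2 * Real.log L := by linarith [D.sPp]
  have h1 : ∀ k : κ, Pool.Agent.H378R2.QG.EE (gRP PP R)
      (fun x => V1 PP R h (Real.exp (L / 1000)) x * SS J k x) ≤
      (1 / L ^ 3) ^ 2 * Z + E * Z + (1 / 8) ^ J * (Real.exp ((2 + 6 * 8) * (2 * Real.log L)) * Z) := by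
    intro k
    exact Pool.Agent.H378R2.QG.QJx.second_upper D.H (Real.exp (L / 1000)) (1 / L ^ 3) 8 (E * Z)
      (2 * Real.log L) J D.Je (by norm_num)
      (fun i k => by
        have := D.gL i k
        have := D.LA
        linarith) D.g0 hG (fun i => (D.gsum i).trans (by norm_num)) hQ0 D.supp hT k
  have e1 : Pool.Agent.H378R2.QG.EE (gRP PP R)
      (fun y => V1 PP R h (Real.exp (L / 1000)) y * T1 PP J y) =
      ∑ k, Pool.Agent.H378R2.QG.EE (gRP PP R)
        (fun x => V1 PP R h (Real.exp (L / 1000)) x * SS J k x) := by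
    rw [← Pool.Agent.H378R2.QG.QJx.EE_sum]
    congr 1
    funext x
    unfold T1
    rw [Finset.mul_sum]
  rw [e1]
  refine (Finset.sum_le_sum fun k _ => h1 k).trans ?_
  rw [Finset.sum_const, Finset.card_univ, nsmul_eq_mul]
  set u : ℝ := (Fintype.card κ : ℝ) with hu
  have hu0 : 0 ≤ u := Nat.cast_nonneg _
  have p1 : (u + 1) * E ≤ 1 / L ^ 3 := D.par1
  have p2 : (u + 1) * (1 / 8) ^ J * Real.exp (50 * (2 * Real.log L)) ≤ 1 / L ^ 3 := D.par2
  have e2 : (2 + 6 * 8 : ℝ) * (2 * Real.log L) = 50 * (2 * Real.log L) := by norm_num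
  rw [e2]
  have q1 : u * (1 / L ^ 3) ^ 2 ≤ 1 / L ^ 3 := by
    have h3 := D.uL3
    have h4 : u * (1 / L ^ 3) ^ 2 = (u * (1 / L ^ 3)) * (1 / L ^ 3) := by ring
    rw [h4]
    have h5 : 0 ≤ 1 / L ^ 3 := by positivity
    nlinarith
  have q2 : u * E ≤ 1 / L ^ 3 := by
    have := Real.exp_pos (2 * (∑ k, Kc k) / Real.log z -
      Real.log (Real.exp (L / 1000) / z) / Real.log z)
    rw [← hE] at this
    linarith
  have q3 : u * ((1 / 8) ^ J * Real.exp (50 * (2 * Real.log L))) ≤ 1 / L ^ 3 := by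
    have : 0 < (1 / 8 : ℝ) ^ J * Real.exp (50 * (2 * Real.log L)) := by positivity
    have e3 : (u + 1) * (1 / 8) ^ J * Real.exp (50 * (2 * Real.log L)) =
      u * ((1 / 8) ^ J * Real.exp (50 * (2 * Real.log L))) +
        (1 / 8) ^ J * Real.exp (50 * (2 * Real.log L)) := by ring
    rw [e3] at p2
    linarith
  calc u * ((1 / L ^ 3) ^ 2 * Z + E * Z + (1 / 8) ^ J * (Real.exp (50 * (2 * Real.log L)) * Z)) =
      (u * (1 / L ^ 3) ^ 2 + u * E + u * ((1 / 8) ^ J * Real.exp (50 * (2 * Real.log L)))) * Z := by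
        ring
    _ ≤ (1 / L ^ 3 + 1 / L ^ 3 + 1 / L ^ 3) * Z :=
        mul_le_mul_of_nonneg_right (by linarith) (by linarith)
    _ = _ := by ring

theorem Dat.V0 (D : Dat L A ps PP z J h Kc R r) (Q : ℝ) (y : Col PP.card κ) : 0 ≤ V1 PP R h Q y := by
  have := D.L0
  unfold V1
  positivity

theorem Dat.T0 (D : Dat L A ps PP z J h Kc R r) (y : Col PP.card κ) : 0 ≤ T1 PP J y := by
  unfold T1
  apply Finset.sum_nonneg
  intro l _
  refine le_trans ?_ (Pool.Agent.H256R2.SC.SS_lower J D.Je l y)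
  split_ifs <;> norm_num

theorem Dat.T_lt (D : Dat L A ps PP z J h Kc R r) (y : Col PP.card κ) (hy : T1 PP J y < 1) (k : κ) :
    ∃ i, y i = some k := by
  by_contra hk
  push Not at hk
  have h3 := Pool.Agent.H256R2.SC.SS_lower J D.Je k y
  rw [if_pos hk] at h3
  have h2 : SS J k y ≤ ∑ l, SS J l y := by
    apply Finset.single_le_sum (f := fun l => SS J l y) (fun l _ => ?_) (Finset.mem_univ k)
    refine le_trans ?_ (Pool.Agent.H256R2.SC.SS_lower J D.Je l y)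
    split_ifs <;> norm_num
  unfold T1 at hy
  linarith

/-- the masses for the classes: all integers -/
theorem Dat.EP (D : Dat L A ps PP z J h Kc R r) (F : Col PP.card κ → ℝ) :
    Pool.Agent.H256R2.SC.EE (gP PP) (fun x : Col PP.card (κ × Fin 2) => F (lf PP R r x)) =
      Pool.Agent.H378R2.QG.EE (gRP PP R) F :=
  EEP (pP PP) (fun i => R (emb PP i)) (fun i => r (emb PP i)) D.dens.hc F

/-- the masses for the classes: primes -/
theorem Dat.EQ (D : Dat L A ps PP z J h Kc R r) (F : Col PP.card κ → ℝ) (hF : ∀ x, 0 ≤ F x) :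
    1 / 2 * Pool.Agent.H378R2.QG.EE (gRP PP R) F ≤
      Pool.Agent.H256R2.SC.EE (gQ PP) (fun x : Col PP.card (κ × Fin 2) => F (lf PP R r x)) := by
  have h1 := D.dens.EEQ_lower F hF
  have h2 : 0 ≤ Pool.Agent.H378R2.QG.EE (gRP PP R) F := by
    unfold Pool.Agent.H378R2.QG.EE
    exact Finset.sum_nonneg fun x _ => mul_nonneg (Finset.prod_nonneg fun i _ => D.dens.wt0 i _) (hF x)
  have h3 : ∑ i, 4 * L / (pP PP i) ^ 2 ≤ 1 / 2 := by
    have h0 := D.L0
    have hL := D.hL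
    have h4 : ∑ i, 4 * L / (pP PP i) ^ 2 = 4 * L * ∑ i, 1 / (pP PP i) ^ 2 := by
      rw [Finset.mul_sum]
      apply Finset.sum_congr rfl
      intro i _
      ring
    rw [h4]
    have h5 : 4 * L * ∑ i, 1 / (pP PP i) ^ 2 ≤ 4 * L * (L / L ^ A) :=
      mul_le_mul_of_nonneg_left D.isq (by positivity)
    have h6 : 4 * L * (L / L ^ A) ≤ L ^ 3 / L ^ A := by
      rw [mul_div_assoc']
      apply div_le_div_of_nonneg_right _ (by positivity)
      nlinarith [mul_pos h0 h0]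
    linarith [D.LLA, D.L3]
  have h4 : 1 / 2 * Pool.Agent.H378R2.QG.EE (gRP PP R) F ≤
      (1 - ∑ i, 4 * L / (pP PP i) ^ 2) * Pool.Agent.H378R2.QG.EE (gRP PP R) F :=
    mul_le_mul_of_nonneg_right (by linarith) h2
  exact h4.trans h1

end

end Pool.Agent.TH325.PQ
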