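import Pool.Agent.TH325.PQ.Core1

set_option autoImplicit false
set_option linter.unusedSectionVars false

/-! # The large sieve error at one modulus (helper325) -/

namespace Pool.Agent.TH325.PQ

open Finset
open Pool.Agent.H256R2.SC (Col Lv qq SS emb emb_mem)
open Pool.Agent.H312R2.RG (pP gP gQ fw cut MedP F2 F2_facts prod_emb_cast prod_emb_primeFactors)
open Pool.Agent.H378R2 (GoodP GoodS WW)
open Pool.Agent.H378R2.LSBV (QQ TT TT_nonneg)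

/-- the modulus `1` of the total large sieve bound -/
theorem ls_one : ∃ C X0 : ℝ, 0 < C ∧ ∀ X : ℝ, X0 ≤ X → ∀ (Z ps : ℕ) (S : Finset ℕ),
    GoodP Z ps → ∀ (y₁ : ℝ) (F₂ : Finset ℕ), 1 ≤ y₁ →
    (∀ f ∈ F₂, 1 < f ∧ y₁ ≤ (f : ℝ) ∧ (f : ℝ) ≤ X ^ (1 / 200 : ℝ) ∧ Squarefree f ∧
      f.Coprime (WW X S ps * ps)) →
    (1 / (Nat.totient (WW X S ps) : ℝ)) *
        ∑ f₂ ∈ F₂, (1 / (f₂ : ℝ) ^ (3 / 4 : ℝ)) *
          ∑ f ∈ (WW X S ps).divisors, TT X (f * f₂) ≤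
      X / (Nat.totient (WW X S ps) : ℝ) * (C * (Real.log X) ^ 10 / y₁ ^ (1 / 4 : ℝ)) := by
  obtain ⟨C, X0, hC, h⟩ := Pool.Agent.H312R2.RG.large_total 0
  refine ⟨C, max X0 1, hC, fun X hX Z ps S hP y₁ F₂ hy hF => ?_⟩
  have hX1 : 1 ≤ X := (le_max_right _ _).trans hX
  have h1 := h X ((le_max_left _ _).trans hX) Z ps S hP y₁ F₂ hy hF
  refine le_trans ?_ h1
  have hmem : 1 ∈ QQ (WW X S ps) ps ⌊X ^ (1 / 100 : ℝ)⌋₊ := by
    rw [Pool.Agent.H378R2.LSBV.mem_QQ]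
    refine ⟨⟨le_rfl, ?_⟩, squarefree_one, Nat.coprime_one_left _⟩
    apply Nat.le_floor
    rw [Nat.cast_one]
    exact Real.one_le_rpow hX1 (by norm_num)
  refine le_trans ?_ (Finset.single_le_sum (f := fun q : ℕ => (q.divisors.card : ℝ) ^ 0 *
      ((1 / (Nat.totient (WW X S ps * q) : ℝ)) *
        ∑ f₂ ∈ F₂.filter (fun f => f.Coprime q), (1 / (f₂ : ℝ) ^ (3 / 4 : ℝ)) *
          ∑ f ∈ (WW X S ps * q).divisors, TT X (f * f₂))) (fun q _ => ?_) hmem)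
  · simp only [pow_zero, one_mul, mul_one]
    rw [Finset.filter_true_of_mem (fun f _ => Nat.coprime_one_right f)]
  · apply mul_nonneg (by positivity)
    apply mul_nonneg (by positivity)
    apply Finset.sum_nonneg
    intro f _
    apply mul_nonneg (by positivity)
    exact Finset.sum_nonneg fun a _ => TT_nonneg X _

variable {κ : Type} [Fintype κ] [DecidableEq κ]

section
variable {L : ℝ} {A ps : ℕ} {PP : Finset ℕ} {z : ℝ} {J : ℕ} {h : κ → Finset (Fin PP.card) → ℝ}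
  {Kc : κ → ℝ} {R : ℕ → κ → Finset ℕ} {r : ℕ → κ × Fin 2 → ℕ}

theorem Dat.prod34 (D : Dat L A ps PP z J h Kc R r) (s : Finset (Fin PP.card)) :
    ∏ i ∈ s, 100 * L / pP PP i ≤ 1 / (∏ i ∈ s, pP PP i) ^ (3 / 4 : ℝ) := by
  have h0 := D.L0
  have hL := D.hL
  have h5 : ∏ i ∈ s, 100 * L / pP PP i ≤ ∏ i ∈ s, (pP PP i) ^ (-(3 / 4) : ℝ) := by
    apply Finset.prod_le_prod
    · intro i _
      have := D.p0 i
      positivity
    · intro i _
      have hp := D.p0 i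
      have h6 : 100 * L ≤ (pP PP i) ^ (1 / 4 : ℝ) := by
        have h7 : L ^ 8 ≤ L ^ A := D.powA (by norm_num)
        have h8 : (L ^ 8) ^ (1 / 4 : ℝ) ≤ (pP PP i) ^ (1 / 4 : ℝ) :=
          Real.rpow_le_rpow (by positivity) (h7.trans (D.pL i).le) (by norm_num)
        have h9 : (L ^ 8) ^ (1 / 4 : ℝ) = L ^ 2 := by
          rw [← Real.rpow_natCast, ← Real.rpow_mul h0.le]
          norm_num
        rw [h9] at h8
        refine le_trans ?_ h8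
        nlinarith
      rw [div_le_iff₀ hp]
      refine h6.trans (le_of_eq ?_)
      have h7 : (pP PP i) ^ (-(3 / 4) : ℝ) * pP PP i = (pP PP i) ^ (-(3 / 4) : ℝ) * (pP PP i) ^ (1 : ℝ) := by
        rw [Real.rpow_one]
      rw [h7, ← Real.rpow_add hp]
      norm_num
  refine h5.trans (le_of_eq ?_)
  rw [← Real.finsetProd_rpow _ _ (fun i _ => (D.p0 i).le), one_div, ← Finset.prod_inv_distrib]
  apply Finset.prod_congr rfl
  intro i _
  rw [Real.rpow_neg (D.p0 i).le]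

/-- the Fourier weights -/
theorem Dat.fwB (D : Dat L A ps PP z J h Kc R r) (Q : ℝ) (s : Finset (Fin PP.card)) :
    Pool.Agent.H256R2.SC.EE (gQ PP) (fun x : Col PP.card (κ × Fin 2) =>
      |V1 PP R h Q (lf PP R r x)| * fw (gQ PP) s x) ≤
      L ^ 4 * Pool.Agent.H378R2.QG.Zs (gRP PP R) h * (1 / (∏ i ∈ s, pP PP i) ^ (3 / 4 : ℝ)) := by
  have h1 := D.dens.EEQ_fw D.H Q s
  have h0 := D.L0
  have h2 : Real.exp (4 * ∑ i, 1 / pP PP i) ≤ L ^ 4 := by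
    have h3 : L ^ 4 = Real.exp (4 * Real.log L) := by
      rw [mul_comm, Real.exp_mul, Real.exp_log h0]
      norm_cast
    rw [h3]
    apply Real.exp_le_exp.mpr
    linarith [D.sPp]
  have hZ0 : 0 ≤ Pool.Agent.H378R2.QG.Zs (gRP PP R) h := by linarith [D.Z1]
  have h4 := D.prod34 s
  have h5 : 0 ≤ ∏ i ∈ s, 100 * L / pP PP i := Finset.prod_nonneg fun i _ => by
    have := D.p0 i
    positivity
  refine (show _ ≤ _ from h1).trans ?_
  change (∏ i ∈ s, 100 * L / pP PP i) * Real.exp (4 * ∑ i, 1 / pP PP i) *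
    Pool.Agent.H378R2.QG.Zs (gRP PP R) h ≤ _
  have h6 : (∏ i ∈ s, 100 * L / pP PP i) * Real.exp (4 * ∑ i, 1 / pP PP i) ≤
      (1 / (∏ i ∈ s, pP PP i) ^ (3 / 4 : ℝ)) * L ^ 4 :=
    mul_le_mul h4 h2 (Real.exp_pos _).le (h5.trans h4)
  calc (∏ i ∈ s, 100 * L / pP PP i) * Real.exp (4 * ∑ i, 1 / pP PP i) *
      Pool.Agent.H378R2.QG.Zs (gRP PP R) h ≤ ((1 / (∏ i ∈ s, pP PP i) ^ (3 / 4 : ℝ)) * L ^ 4) *
      Pool.Agent.H378R2.QG.Zs (gRP PP R) h := mul_le_mul_of_nonneg_right h6 hZ0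
    _ = _ := by ring

theorem Dat.medP (D : Dat L A ps PP z J h Kc R r) : MedP ps (L ^ A) PP := fun p hp =>
  ⟨(D.med p hp).1, (D.med p hp).2.1, (D.med p hp).2.2.2⟩

/-- comparison of the large sieve parts -/
theorem Dat.partLS {X : ℝ} (D : Dat (Real.log X) A ps PP z J h Kc R r) (Q Q₁ : ℝ) (S : Finset ℕ) :
    ∑ s ∈ (univ : Finset (Fin PP.card)).powerset.filter
          (fun s => s.Nonempty ∧ Disjoint s (∅ : Finset (Fin PP.card)) ∧ ∏ i ∈ s, pP PP i ≤ Q₁),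
          Pool.Agent.H256R2.SC.EE (gQ PP) (fun x : Col PP.card (κ × Fin 2) =>
            |V1 PP R h Q (lf PP R r (cut (∅ : Finset (Fin PP.card)) x))| * fw (gQ PP) s x) *
            ∑ f ∈ (WW X S ps).divisors, TT X (f * ∏ i ∈ s, (emb PP i : ℕ)) ≤
      (Real.log X) ^ 4 * Pool.Agent.H378R2.QG.Zs (gRP PP R) h *
        ∑ f₂ ∈ F2 PP Q₁, (1 / (f₂ : ℝ) ^ (3 / 4 : ℝ)) *
          ∑ f ∈ (WW X S ps).divisors, TT X (f * f₂) := by
  classical
  have hP : ∀ p ∈ PP, p.Prime := fun p hp => (D.med p hp).1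
  have hL0 := D.L0
  have hZ0 : 0 ≤ Pool.Agent.H378R2.QG.Zs (gRP PP R) h := by linarith [D.Z1]
  set φ : ℕ → ℝ := fun f₂ => (1 / (f₂ : ℝ) ^ (3 / 4 : ℝ)) * ∑ f ∈ (WW X S ps).divisors, TT X (f * f₂) with hφ
  have hφ0 : ∀ f₂, 0 ≤ φ f₂ := fun f₂ => mul_nonneg (by positivity) (Finset.sum_nonneg fun f _ => TT_nonneg X _)
  set Sf := (univ : Finset (Fin PP.card)).powerset.filter
          (fun s => s.Nonempty ∧ Disjoint s (∅ : Finset (Fin PP.card)) ∧ ∏ i ∈ s, pP PP i ≤ Q₁) with hSf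
  have hcut : ∀ x : Col PP.card (κ × Fin 2), cut (∅ : Finset (Fin PP.card)) x = x := by
    intro x
    funext i
    simp [cut]
  have h1 : ∀ s ∈ Sf, Pool.Agent.H256R2.SC.EE (gQ PP) (fun x : Col PP.card (κ × Fin 2) =>
            |V1 PP R h Q (lf PP R r (cut (∅ : Finset (Fin PP.card)) x))| * fw (gQ PP) s x) *
            ∑ f ∈ (WW X S ps).divisors, TT X (f * ∏ i ∈ s, (emb PP i : ℕ)) ≤
      (Real.log X) ^ 4 * Pool.Agent.H378R2.QG.Zs (gRP PP R) h * φ (∏ i ∈ s, (emb PP i : ℕ)) := by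
    intro s _
    have h2 := D.fwB Q s
    have h3 : 0 ≤ ∑ f ∈ (WW X S ps).divisors, TT X (f * ∏ i ∈ s, (emb PP i : ℕ)) :=
      Finset.sum_nonneg fun f _ => TT_nonneg X _
    have h4 := mul_le_mul_of_nonneg_right h2 h3
    simp only [hcut]
    refine h4.trans (le_of_eq ?_)
    rw [hφ]
    simp only
    rw [prod_emb_cast]
    ring
  refine (Finset.sum_le_sum h1).trans ?_
  rw [← Finset.mul_sum]
  apply mul_le_mul_of_nonneg_left _ (by positivity)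
  have hinj : Set.InjOn (fun s : Finset (Fin PP.card) => ∏ i ∈ s, (emb PP i : ℕ)) (Sf : Set (Finset (Fin PP.card))) := by
    intro s _ s' _ hss
    simp only at hss
    ext i
    rw [← prod_emb_primeFactors hP s i, ← prod_emb_primeFactors hP s' i, hss]
  rw [← Finset.sum_image (f := φ) hinj]
  apply Finset.sum_le_sum_of_subset_of_nonneg
  · intro f hf
    rw [Finset.mem_image] at hf
    obtain ⟨s, hs, rfl⟩ := hf
    rw [hSf, mem_filter] at hs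
    unfold F2
    rw [Finset.mem_image]
    refine ⟨s, ?_, rfl⟩
    rw [mem_filter]
    exact ⟨hs.1, hs.2.1, hs.2.2.2⟩
  · intro f _ _
    exact hφ0 f

/-- the large sieve error of the weight -/
theorem Dat.errLS {X : ℝ} (D : Dat (Real.log X) A ps PP z J h Kc R r) (hX : 4 ≤ X) {C : ℝ} (S : Finset ℕ)
    (hls : ∀ (Z ps : ℕ) (S : Finset ℕ),
      GoodP Z ps → ∀ (y₁ : ℝ) (F₂ : Finset ℕ), 1 ≤ y₁ →
      (∀ f ∈ F₂, 1 < f ∧ y₁ ≤ (f : ℝ) ∧ (f : ℝ) ≤ X ^ (1 / 200 : ℝ) ∧ Squarefree f ∧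
        f.Coprime (WW X S ps * ps)) →
      (1 / (Nat.totient (WW X S ps) : ℝ)) *
          ∑ f₂ ∈ F₂, (1 / (f₂ : ℝ) ^ (3 / 4 : ℝ)) *
            ∑ f ∈ (WW X S ps).divisors, TT X (f * f₂) ≤
        X / (Nat.totient (WW X S ps) : ℝ) * (C * (Real.log X) ^ 10 / y₁ ^ (1 / 4 : ℝ)))
    {Z₀ : ℕ} (hps : GoodP Z₀ ps) (Q Q₁ : ℝ) (hQ₁ : Q₁ ≤ X ^ (1 / 200 : ℝ)) :
    (1 / (Nat.totient (WW X S ps) : ℝ)) * ∑ s ∈ (univ : Finset (Fin PP.card)).powerset.filter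
          (fun s => s.Nonempty ∧ Disjoint s (∅ : Finset (Fin PP.card)) ∧ ∏ i ∈ s, pP PP i ≤ Q₁),
          Pool.Agent.H256R2.SC.EE (gQ PP) (fun x : Col PP.card (κ × Fin 2) =>
            |V1 PP R h Q (lf PP R r (cut (∅ : Finset (Fin PP.card)) x))| * fw (gQ PP) s x) *
            ∑ f ∈ (WW X S ps).divisors, TT X (f * ∏ i ∈ s, (emb PP i : ℕ)) ≤
      X / (Nat.totient (WW X S ps) : ℝ) * (C * (Real.log X) ^ 14 / ((Real.log X) ^ A) ^ (1 / 4 : ℝ)) *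
        Pool.Agent.H378R2.QG.Zs (gRP PP R) h := by
  have hL0 := D.L0
  have hL := D.hL
  have hZ0 : 0 ≤ Pool.Agent.H378R2.QG.Zs (gRP PP R) h := by linarith [D.Z1]
  have h1 := D.partLS Q Q₁ S
  have hA1 : 1 ≤ A := by linarith [D.hA]
  have hfacts := F2_facts D.medP hX hA1 (by linarith) S hps Q₁ hQ₁
  have h2 := hls Z₀ ps S hps ((Real.log X) ^ A) (F2 PP Q₁) (one_le_pow₀ (by linarith)) hfacts
  have h3 := mul_le_mul_of_nonneg_left h1
    (show (0 : ℝ) ≤ 1 / (Nat.totient (WW X S ps) : ℝ) by positivity)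
  refine h3.trans ?_
  calc (1 / (Nat.totient (WW X S ps) : ℝ)) * ((Real.log X) ^ 4 * Pool.Agent.H378R2.QG.Zs (gRP PP R) h *
        ∑ f₂ ∈ F2 PP Q₁, (1 / (f₂ : ℝ) ^ (3 / 4 : ℝ)) *
          ∑ f ∈ (WW X S ps).divisors, TT X (f * f₂)) =
      ((Real.log X) ^ 4 * Pool.Agent.H378R2.QG.Zs (gRP PP R) h) *
        ((1 / (Nat.totient (WW X S ps) : ℝ)) * ∑ f₂ ∈ F2 PP Q₁, (1 / (f₂ : ℝ) ^ (3 / 4 : ℝ)) *
          ∑ f ∈ (WW X S ps).divisors, TT X (f * f₂)) := by ring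
    _ ≤ ((Real.log X) ^ 4 * Pool.Agent.H378R2.QG.Zs (gRP PP R) h) *
        (X / (Nat.totient (WW X S ps) : ℝ) * (C * (Real.log X) ^ 10 / ((Real.log X) ^ A) ^ (1 / 4 : ℝ))) :=
        mul_le_mul_of_nonneg_left h2 (by positivity)
    _ = _ := by ring

end

end Pool.Agent.TH325.PQ
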