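import Pool.Agent.TH325.PQ.Core2
import Pool.Agent.H378R2.M7r
import Pool.Agent.H378R2.M7m

set_option autoImplicit false
set_option linter.unusedSectionVars false

/-! # A prime at which all the colours occur (helper325) -/

namespace Pool.Agent.TH325.PQ

open Finset
open Pool.Agent.H256R2.SC (Col Lv qq SS emb emb_mem colr colr_eq)
open Pool.Agent.H312R2.RG (pP gP gQ fw cut MedP F2 F2_facts prod_emb_cast prod_emb_primeFactors)
open Pool.Agent.H378R2 (GoodP GoodS WW EPhi LPhi Phi)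
open Pool.Agent.H378R2.LSBV (QQ TT TT_nonneg)

theorem num1 {L : ℝ} (hL : 10000 ≤ L) : 10 ^ 8 * L ^ 2 ≤ Real.exp (3 * L / 10) := by
  have h1 : L / 20 ≤ Real.exp (L / 20) := by
    have := Real.add_one_le_exp (L / 20)
    linarith
  have h2 : (L / 20) ^ 6 ≤ Real.exp (3 * L / 10) := by
    have h3 : Real.exp (3 * L / 10) = (Real.exp (L / 20)) ^ 6 := by
      rw [← Real.exp_nat_mul]
      congr 1
      push_cast
      ring
    rw [h3]
    exact pow_le_pow_left₀ (by linarith) h1 6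
  refine le_trans ?_ h2
  have h4 : (10000 : ℝ) ^ 4 ≤ L ^ 4 := pow_le_pow_left₀ (by norm_num) hL 4
  have h5 : (L / 20) ^ 6 = L ^ 4 * L ^ 2 / 64000000 := by ring
  rw [h5, le_div_iff₀ (by norm_num)]
  have h6 : 0 ≤ L ^ 2 := sq_nonneg L
  nlinarith

theorem num2 {L : ℝ} (hL : 10000 ≤ L) : 180000 * L ≤ Real.exp (L / 10) := by
  have h1 : L / 60 ≤ Real.exp (L / 60) := by
    have := Real.add_one_le_exp (L / 60)
    linarith
  have h2 : (L / 60) ^ 6 ≤ Real.exp (L / 10) := by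
    have h3 : Real.exp (L / 10) = (Real.exp (L / 60)) ^ 6 := by
      rw [← Real.exp_nat_mul]
      congr 1
      push_cast
      ring
    rw [h3]
    exact pow_le_pow_left₀ (by linarith) h1 6
  refine le_trans ?_ h2
  have h4 : (10000 : ℝ) ^ 5 ≤ L ^ 5 := pow_le_pow_left₀ (by norm_num) hL 5
  have h5 : (L / 60) ^ 6 = L ^ 5 * L / 46656000000 := by ring
  rw [h5, le_div_iff₀ (by norm_num)]
  have h6 := mul_le_mul_of_nonneg_right h4 (show 0 ≤ L by linarith)
  linarith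

theorem Lv_abs {n : ℕ} {κ : Type} [Fintype κ] [DecidableEq κ] {p : Fin n → ℝ} {Q B : ℝ}
    {G : Col n κ → ℝ} (hG : Lv p Q B G) (x : Col n κ) : |G x| ≤ B := by
  obtain ⟨f, h1, h2, _⟩ := hG
  rw [h1]
  refine (Finset.abs_sum_le_sum_abs _ _).trans (le_trans (Finset.sum_le_sum fun D _ => ?_) h2)
  rw [abs_mul]
  apply mul_le_of_le_one_right (abs_nonneg _)
  unfold Pool.Agent.H256R2.SC.ind
  split_ifs <;> simp

variable {κ : Type} [Fintype κ] [DecidableEq κ]

section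
variable {L : ℝ} {A ps : ℕ} {PP : Finset ℕ} {z : ℝ} {J : ℕ} {h : κ → Finset (Fin PP.card) → ℝ}
  {Kc : κ → ℝ} {R : ℕ → κ → Finset ℕ} {r : ℕ → κ × Fin 2 → ℕ}

/-- integer residues -/
def rz (r : ℕ → κ × Fin 2 → ℕ) (p : ℕ) (c : κ × Fin 2) : ℤ := (r p c : ℤ)

theorem Dat.inj (D : Dat L A ps PP z J h Kc R r) :
    ∀ p ∈ PP, ∀ k l, k ≠ l → ¬ ((p : ℤ) ∣ rz r p k - rz r p l) := by
  intro p hp k l hkl hd
  apply hkl
  apply D.rinj p hp
  have h1 := mem_Ioo.1 (D.rin p hp k)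
  have h2 := mem_Ioo.1 (D.rin p hp l)
  unfold rz at hd
  have h3 : ((r p k : ℤ) - r p l) = 0 := by
    apply Int.eq_zero_of_abs_lt_dvd hd
    rw [abs_lt]
    constructor <;> omega
  omega

theorem Dat.nres (D : Dat L A ps PP z J h Kc R r) (i : Fin PP.card) (k : κ × Fin 2) :
    ¬ (((emb PP i : ℕ) : ℤ) ∣ rz r (emb PP i) k) := by
  intro hd
  have h1 := mem_Ioo.1 (D.rin _ (emb_mem PP i) k)
  unfold rz at hd
  have h3 : ((r (emb PP i) k : ℕ) : ℤ) = 0 := by
    apply Int.eq_zero_of_abs_lt_dvd hd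
    rw [abs_lt]
    constructor <;> omega
  omega

theorem Dat.nW {X : ℝ} (D : Dat (Real.log X) A ps PP z J h Kc R r) (S : Finset ℕ) (i : Fin PP.card) :
    ¬ (emb PP i ∣ WW X S ps) := by
  intro hd
  have hp := (D.med _ (emb_mem PP i)).1
  have h2 := (Pool.Agent.H378R2.mem_PW.1 ((Pool.Agent.H378R2.prime_dvd_WW hp).1 hd)).1
  have h3 : ((emb PP i : ℕ) : ℝ) ≤ Pool.Agent.H378R2.yy X := by exact_mod_cast h2
  have h4 : (Pool.Agent.H378R2.yy X : ℝ) ≤ Real.log X / 1000 := Nat.floor_le (by linarith [D.L0])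
  have h5 := D.p100 i
  have h6 := D.L0
  have h7 : pP PP i = ((emb PP i : ℕ) : ℝ) := rfl
  rw [h7] at h5
  linarith

theorem Dat.Pu (D : Dat L A ps PP z J h Kc R r) (i : Fin PP.card) :
    (Fintype.card (κ × Fin 2) : ℝ) * gQ PP i < 1 := by
  have h1 := D.cu
  have h5 := D.p100 i
  have hL := D.hL
  have h7 : pP PP i = ((emb PP i : ℕ) : ℝ) := rfl
  rw [h7] at h5
  unfold gQ
  rw [mul_one_div, div_lt_one (by linarith)]
  have h8 : (Fintype.card (κ × Fin 2) : ℝ) = (Fintype.card κ : ℝ) * (2 : ℕ) := cardP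
  rw [h8]
  push_cast
  linarith

/-- reading off a realised colour -/
theorem Dat.read (D : Dat L A ps PP z J h Kc R r) (n : ℕ) (i : Fin PP.card) (k : κ)
    (hk : lf PP R r (colr PP (rz r) (n : ℤ)) i = some k) : n % (emb PP i) ∈ R (emb PP i) k := by
  unfold lf lft at hk
  cases hc : colr PP (rz r) (n : ℤ) i with
  | none =>
    rw [hc] at hk
    simp [pim] at hk
  | some c =>
    rw [hc] at hk
    simp only [pim] at hk
    split_ifs at hk with h1
    have h2 := Option.some.inj hk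
    rw [h2] at h1
    have h3 := (colr_eq D.inj (n : ℤ) i c).1 hc
    have h4 := mem_Ioo.1 (D.rin _ (emb_mem PP i) c)
    have h5 : n % (emb PP i) = r (emb PP i) c := by
      have h6 : r (emb PP i) c ≡ n [MOD emb PP i] := by
        rw [Nat.modEq_iff_dvd]
        exact h3
      have h7 := h6.symm
      unfold Nat.ModEq at h7
      rw [Nat.mod_eq_of_lt h4.2] at h7
      exact h7
    rw [h5]
    exact h1

end

section
variable {X : ℝ} {A ps : ℕ} {PP : Finset ℕ} {z : ℝ} {J : ℕ} {h : κ → Finset (Fin PP.card) → ℝ}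
  {Kc : κ → ℝ} {R : ℕ → κ → Finset ℕ} {r : ℕ → κ × Fin 2 → ℕ}

/-- sums over the class -/
noncomputable def sumP (X : ℝ) (W b : ℕ) (F : ℕ → ℝ) : ℝ :=
  ∑ n ∈ (Icc 1 ⌊3 * X⌋₊).filter (fun n => n ≡ b [MOD W]), Phi (n / X) * F n

/-- the lower bound -/
theorem Dat.sumL (D : Dat (Real.log X) A ps PP z J h Kc R r) (hX : 4 ≤ X) {C : ℝ} (S : Finset ℕ)
    (hls : ∀ (Z ps : ℕ) (S : Finset ℕ),
      GoodP Z ps → ∀ (y₁ : ℝ) (F₂ : Finset ℕ), 1 ≤ y₁ →
      (∀ f ∈ F₂, 1 < f ∧ y₁ ≤ (f : ℝ) ∧ (f : ℝ) ≤ X ^ (1 / 200 : ℝ) ∧ Squarefree f ∧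
        f.Coprime (WW X S ps * ps)) →
      (1 / (Nat.totient (WW X S ps) : ℝ)) *
          ∑ f₂ ∈ F₂, (1 / (f₂ : ℝ) ^ (3 / 4 : ℝ)) *
            ∑ f ∈ (WW X S ps).divisors, TT X (f * f₂) ≤
        X / (Nat.totient (WW X S ps) : ℝ) * (C * (Real.log X) ^ 10 / y₁ ^ (1 / 4 : ℝ)))
    (hCs : C * (Real.log X) ^ 14 / ((Real.log X) ^ A) ^ (1 / 4 : ℝ) ≤ 1 / 10000)
    {Z₀ : ℕ} (hps : GoodP Z₀ ps) (b : ℕ) (hb : b.Coprime (WW X S ps))
    (hEP : |EPhi X (WW X S ps) b| ≤ X / ((Nat.totient (WW X S ps) : ℝ) * 1000))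
    (hLP : X / 200 ≤ LPhi X) :
    1 / 2000 * (X / (Nat.totient (WW X S ps) : ℝ) * Pool.Agent.H378R2.QG.Zs (gRP PP R) h) -
      Real.exp (6 * Real.log X / 10) * (Real.log X) ^ 2 * 400 ≤
      sumP X (WW X S ps) b (fun n => ArithmeticFunction.vonMangoldt n *
        V1 PP R h (Real.exp (Real.log X / 1000)) (lf PP R r (colr PP (rz r) (n : ℤ)))) := by
  classical
  set L := Real.log X with hLdef
  have hL := D.hL
  have hL0 := D.L0
  have hX0 : 0 < X := by linarith
  have hXe : X = Real.exp L := (Real.exp_log hX0).symm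
  set W := WW X S ps with hW
  have hW0 : 0 < W := Pool.Agent.H378R2.WW_pos X S ps
  have hWle : (W : ℝ) ≤ Real.exp (L / 700) := Pool.Agent.H378R2.WW_le X (by linarith) S ps
  have hφ0 : (0 : ℝ) < (Nat.totient W : ℝ) := by exact_mod_cast Nat.totient_pos.2 hW0
  set Q := Real.exp (L / 1000) with hQ
  have hQ0 : 0 < Q := Real.exp_pos _
  set Z := Pool.Agent.H378R2.QG.Zs (gRP PP R) h with hZ
  have hZ1 : 1 ≤ Z := D.Z1
  have hsize : (W : ℝ) * Q ^ 2 ≤ X := by
    calc (W : ℝ) * Q ^ 2 ≤ Real.exp (L / 700) * Q ^ 2 :=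
          mul_le_mul_of_nonneg_right hWle (by positivity)
      _ = Real.exp (L / 700 + 2 * (L / 1000)) := by
          rw [hQ, ← Real.exp_nat_mul, ← Real.exp_add]
          norm_num
      _ ≤ Real.exp L := Real.exp_le_exp.2 (by linarith)
      _ = X := hXe.symm
  have hlv := D.lift (by positivity) (D.LvV hQ0)
  have h1 := Pool.Agent.H312R2.RG.class_lam X hX PP (fun p hp => (D.med p hp).1) (rz r) D.inj W b hW0 hb D.Pu
    (∅ : Finset (Fin PP.card)) (fun i => ⟨fun hi => absurd hi (notMem_empty i), fun hi => absurd hi (D.nW S i)⟩)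
    (fun i hi => absurd hi (notMem_empty i)) (fun i _ k => D.nres i k)
    (fun x => V1 PP R h Q (lf PP R r x)) (Q ^ 2) (9 * Q ^ 4 * Q ^ 2) hlv hsize
  have h2 := D.errLS hX S hls hps Q (Q ^ 2) (by
    rw [hXe, ← Real.exp_mul, hQ, ← Real.exp_nat_mul]
    apply Real.exp_le_exp.2
    push_cast
    linarith)
  have hcut : ∀ x : Col PP.card (κ × Fin 2), cut (∅ : Finset (Fin PP.card)) x = x := by
    intro x
    funext i
    simp [cut]
  have hE := D.EQ (V1 PP R h Q) (D.V0 Q)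
  have hlow := D.low
  rw [← hQ] at hlow
  have hE2 : 3 / 8 * Z ≤ Pool.Agent.H256R2.SC.EE (gQ PP)
      (fun x : Col PP.card (κ × Fin 2) => V1 PP R h Q (lf PP R r x)) := by linarith
  simp only [hcut] at h1 h2
  have h3 := (abs_le.1 h1).1
  have hΨ : ∑ n ∈ (Icc 1 ⌊3 * X⌋₊).filter (fun n => n ≡ b [MOD W]),
        Phi (n / X) * ArithmeticFunction.vonMangoldt n = EPhi X W b + LPhi X * (1 / (Nat.totient W : ℝ)) := by
    rw [Pool.Agent.H378R2.EPhi_eq]
    ring
  have hΨ2 : X / (Nat.totient W : ℝ) * (1 / 400) ≤ ∑ n ∈ (Icc 1 ⌊3 * X⌋₊).filter (fun n => n ≡ b [MOD W]),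
        Phi (n / X) * ArithmeticFunction.vonMangoldt n := by
    rw [hΨ]
    have h4 := (abs_le.1 hEP).1
    have h5 : X / 200 * (1 / (Nat.totient W : ℝ)) ≤ LPhi X * (1 / (Nat.totient W : ℝ)) :=
      mul_le_mul_of_nonneg_right hLP (by positivity)
    have h6 : X / 200 * (1 / (Nat.totient W : ℝ)) = X / (Nat.totient W : ℝ) * (1 / 200) := by ring
    have h7 : X / ((Nat.totient W : ℝ) * 1000) = X / (Nat.totient W : ℝ) * (1 / 1000) := by
      field_simp
    rw [h6] at h5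
    rw [h7] at h4
    have h8 : 0 ≤ X / (Nat.totient W : ℝ) := by positivity
    nlinarith
  have h9 : (X / (Nat.totient W : ℝ) * (1 / 400)) * (3 / 8 * Z) ≤
      (∑ n ∈ (Icc 1 ⌊3 * X⌋₊).filter (fun n => n ≡ b [MOD W]),
        Phi (n / X) * ArithmeticFunction.vonMangoldt n) *
        Pool.Agent.H256R2.SC.EE (gQ PP)
          (fun x : Col PP.card (κ × Fin 2) => V1 PP R h Q (lf PP R r x)) :=
    mul_le_mul hΨ2 hE2 (by positivity) (le_trans (by positivity) hΨ2)
  have h10 : X / (Nat.totient W : ℝ) * (C * L ^ 14 / (L ^ A) ^ (1 / 4 : ℝ)) * Z ≤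
      X / (Nat.totient W : ℝ) * (1 / 10000) * Z := by
    apply mul_le_mul_of_nonneg_right _ (by linarith)
    exact mul_le_mul_of_nonneg_left hCs (by positivity)
  have hl3 : Real.log (3 * X) ≤ 2 * L := by
    rw [Real.log_mul (by norm_num) (by linarith), ← hLdef]
    have : Real.log 3 ≤ 3 := (Real.log_le_sub_one_of_pos (by norm_num)).trans (by norm_num)
    linarith
  have hl30 : 0 ≤ Real.log (3 * X) := Real.log_nonneg (by linarith)
  have h11 : 9 * Q ^ 4 * Q ^ 2 * (8 * (Real.log (3 * X)) ^ 2) ≤ Real.exp (6 * L / 10) * L ^ 2 * 400 := by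
    have h12 : Q ^ 4 * Q ^ 2 ≤ Real.exp (6 * L / 10) := by
      rw [hQ, ← pow_add, ← Real.exp_nat_mul]
      apply Real.exp_le_exp.2
      push_cast
      linarith
    have h13 : (Real.log (3 * X)) ^ 2 ≤ (2 * L) ^ 2 := pow_le_pow_left₀ hl30 hl3 2
    calc 9 * Q ^ 4 * Q ^ 2 * (8 * (Real.log (3 * X)) ^ 2) =
        72 * (Q ^ 4 * Q ^ 2) * (Real.log (3 * X)) ^ 2 := by ring
      _ ≤ 72 * Real.exp (6 * L / 10) * (2 * L) ^ 2 := by gcongr
      _ = Real.exp (6 * L / 10) * L ^ 2 * 288 := by ring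
      _ ≤ _ := mul_le_mul_of_nonneg_left (by norm_num) (by positivity)
  have h14 : sumP X W b (fun n => ArithmeticFunction.vonMangoldt n *
        V1 PP R h Q (lf PP R r (colr PP (rz r) (n : ℤ)))) =
      ∑ n ∈ (Icc 1 ⌊3 * X⌋₊).filter (fun n => n ≡ b [MOD W]),
        Phi (n / X) * ArithmeticFunction.vonMangoldt n *
          V1 PP R h Q (lf PP R r (colr PP (rz r) (n : ℤ))) := by
    unfold sumP
    apply Finset.sum_congr rfl
    intro n _
    ring
  rw [h14]
  have h15 : (X / (Nat.totient W : ℝ) * (1 / 400)) * (3 / 8 * Z) = 3 / 3200 * (X / (Nat.totient W : ℝ) * Z) := by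
    ring
  have h16 : X / (Nat.totient W : ℝ) * (1 / 10000) * Z = 1 / 10000 * (X / (Nat.totient W : ℝ) * Z) := by
    ring
  have h17 : 0 ≤ X / (Nat.totient W : ℝ) * Z := by positivity
  linarith

/-- the upper bound -/
theorem Dat.sumU (D : Dat (Real.log X) A ps PP z J h Kc R r) (hX : 4 ≤ X) (S : Finset ℕ) (b : ℕ) :
    sumP X (WW X S ps) b (fun n =>
        V1 PP R h (Real.exp (Real.log X / 1000)) (lf PP R r (colr PP (rz r) (n : ℤ))) *
          T1 PP J (lf PP R r (colr PP (rz r) (n : ℤ)))) ≤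
      6 / (Real.log X) ^ 3 * (X / (Nat.totient (WW X S ps) : ℝ) * Pool.Agent.H378R2.QG.Zs (gRP PP R) h) +
        Real.exp (6 * Real.log X / 10) * Real.log X * 45 := by
  classical
  set L := Real.log X with hLdef
  have hL := D.hL
  have hL0 := D.L0
  have hX0 : 0 < X := by linarith
  have hXe : X = Real.exp L := (Real.exp_log hX0).symm
  set W := WW X S ps with hW
  have hW0 : 0 < W := Pool.Agent.H378R2.WW_pos X S ps
  have hWr : (0 : ℝ) < W := by exact_mod_cast hW0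
  have hWle : (W : ℝ) ≤ Real.exp (L / 700) := Pool.Agent.H378R2.WW_le X (by linarith) S ps
  have hφ0 : (0 : ℝ) < (Nat.totient W : ℝ) := by exact_mod_cast Nat.totient_pos.2 hW0
  have hφW : (Nat.totient W : ℝ) ≤ W := by exact_mod_cast Nat.totient_le W
  set Q := Real.exp (L / 1000) with hQ
  have hQ0 : 0 < Q := Real.exp_pos _
  set Z := Pool.Agent.H378R2.QG.Zs (gRP PP R) h with hZ
  have hZ1 : 1 ≤ Z := D.Z1
  have hz0 : 0 < z := by linarith [D.z1]
  have hzJ := D.zJ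
  have hnJ := D.nJ
  have hsize : (W : ℝ) * (Q ^ 2 * z ^ J) ≤ X := by
    calc (W : ℝ) * (Q ^ 2 * z ^ J) ≤ Real.exp (L / 700) * (Q ^ 2 * Real.exp (L / 10)) := by gcongr
      _ = Real.exp (L / 700 + (2 * (L / 1000) + L / 10)) := by
          rw [hQ, ← Real.exp_nat_mul, ← Real.exp_add, ← Real.exp_add]
          norm_num
      _ ≤ Real.exp L := Real.exp_le_exp.2 (by linarith)
      _ = X := hXe.symm
  have hlv := D.lift (by positivity) (Pool.Agent.H256R2.SC.Lv_mul D.p1 (D.LvV hQ0) D.LvT)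
  have h1 := Pool.Agent.H312R2.RG.class_phi X hX PP (fun p hp => (D.med p hp).1) (rz r) D.inj W b hW0
    (∅ : Finset (Fin PP.card)) (fun i => ⟨fun hi => absurd hi (notMem_empty i), fun hi => absurd hi (D.nW S i)⟩)
    (fun i hi => absurd hi (notMem_empty i))
    (fun x => V1 PP R h Q (lf PP R r x) * T1 PP J (lf PP R r x)) _ _ hlv hsize
  have hcut : ∀ x : Col PP.card (κ × Fin 2), cut (∅ : Finset (Fin PP.card)) x = x := by
    intro x
    funext i
    simp [cut]
  simp only [hcut] at h1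
  have hEP := D.EP (fun y => V1 PP R h Q y * T1 PP J y)
  have hup := D.up
  rw [← hQ] at hup
  rw [hEP] at h1
  have h3 := (abs_le.1 h1).2
  have hM := Pool.Agent.H378R2.MPhi_le X hX
  have hE0 : 0 ≤ Pool.Agent.H378R2.QG.EE (gRP PP R) (fun y => V1 PP R h Q y * T1 PP J y) := by
    unfold Pool.Agent.H378R2.QG.EE
    exact Finset.sum_nonneg fun x _ => mul_nonneg (Finset.prod_nonneg fun i _ => D.dens.wt0 i _)
      (mul_nonneg (D.V0 Q x) (D.T0 x))
  have h4 : Pool.Agent.H378R2.MPhi X * (1 / (W : ℝ)) *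
      Pool.Agent.H378R2.QG.EE (gRP PP R) (fun y => V1 PP R h Q y * T1 PP J y) ≤
      (2 * X * (1 / (Nat.totient W : ℝ))) * (3 / L ^ 3 * Z) := by
    have h5 : (1 : ℝ) / (W : ℝ) ≤ 1 / (Nat.totient W : ℝ) := one_div_le_one_div_of_le hφ0 hφW
    have h6 : Pool.Agent.H378R2.MPhi X * (1 / (W : ℝ)) ≤ 2 * X * (1 / (Nat.totient W : ℝ)) :=
      mul_le_mul hM h5 (by positivity) (by positivity)
    exact mul_le_mul h6 hup hE0 (by positivity)
  have h5 : (2 * X * (1 / (Nat.totient W : ℝ))) * (3 / L ^ 3 * Z) =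
      6 / L ^ 3 * (X / (Nat.totient W : ℝ) * Z) := by ring
  rw [h5] at h4
  have h6 : 5 * (9 * Q ^ 4 * ((Fintype.card κ : ℝ) * ((PP.card : ℝ) + 1) ^ J) * (Q ^ 2 * z ^ J)) ≤
      Real.exp (6 * L / 10) * L * 45 := by
    have hu0 : (0 : ℝ) ≤ Fintype.card κ := Nat.cast_nonneg _
    have hu : (Fintype.card κ : ℝ) ≤ L := by linarith [D.cu]
    have hN0 : (0 : ℝ) ≤ ((PP.card : ℝ) + 1) ^ J :=
      pow_nonneg (add_nonneg (Nat.cast_nonneg _) zero_le_one) J
    have hzJ0 : 0 ≤ z ^ J := by positivity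
    obtain ⟨N, hN⟩ : ∃ N, N = ((PP.card : ℝ) + 1) ^ J := ⟨_, rfl⟩
    obtain ⟨ZJ, hZJ⟩ : ∃ ZJ, ZJ = z ^ J := ⟨_, rfl⟩
    obtain ⟨E, hE⟩ : ∃ E, E = Real.exp (L / 10) := ⟨_, rfl⟩
    rw [← hN] at hnJ hN0 ⊢
    rw [← hZJ] at hzJ hzJ0 ⊢
    have hE0 : 0 < E := by rw [hE]; exact Real.exp_pos _
    calc 5 * (9 * Q ^ 4 * ((Fintype.card κ : ℝ) * N) * (Q ^ 2 * ZJ)) ≤
        5 * (9 * Q ^ 4 * (L * Real.exp (L / 10)) * (Q ^ 2 * Real.exp (L / 10))) := by
          rw [← hE] at hnJ hzJ ⊢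
          apply mul_le_mul_of_nonneg_left _ (by norm_num)
          apply mul_le_mul
          · apply mul_le_mul_of_nonneg_left _ (by positivity)
            exact mul_le_mul hu hnJ hN0 hL0.le
          · exact mul_le_mul_of_nonneg_left hzJ (by positivity)
          · positivity
          · positivity
      _ = (Q ^ 6 * Real.exp (L / 10) * Real.exp (L / 10)) * L * 45 := by ring
      _ = Real.exp (6 * (L / 1000) + L / 10 + L / 10) * L * 45 := by
          have hQ6 : Q ^ 6 = Real.exp (6 * (L / 1000)) := by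
            rw [hQ, ← Real.exp_nat_mul]
            congr 1
          rw [hQ6, ← Real.exp_add, ← Real.exp_add]
      _ ≤ _ := by
          have : Real.exp (6 * (L / 1000) + L / 10 + L / 10) ≤ Real.exp (6 * L / 10) :=
            Real.exp_le_exp.2 (by linarith)
          gcongr
  have h7 : sumP X W b (fun n => V1 PP R h Q (lf PP R r (colr PP (rz r) (n : ℤ))) *
          T1 PP J (lf PP R r (colr PP (rz r) (n : ℤ)))) =
      ∑ n ∈ (Icc 1 ⌊3 * X⌋₊).filter (fun n => n ≡ b [MOD W]),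
        Phi (n / X) * (V1 PP R h Q (lf PP R r (colr PP (rz r) (n : ℤ))) *
          T1 PP J (lf PP R r (colr PP (rz r) (n : ℤ)))) := rfl
  rw [h7]
  linarith

/-- many primes at which all the colours occur -/
theorem Dat.many_primes (D : Dat (Real.log X) A ps PP z J h Kc R r) (hX : 4 ≤ X) {C : ℝ} (S : Finset ℕ)
    (hls : ∀ (Z ps : ℕ) (S : Finset ℕ),
      GoodP Z ps → ∀ (y₁ : ℝ) (F₂ : Finset ℕ), 1 ≤ y₁ →
      (∀ f ∈ F₂, 1 < f ∧ y₁ ≤ (f : ℝ) ∧ (f : ℝ) ≤ X ^ (1 / 200 : ℝ) ∧ Squarefree f ∧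
        f.Coprime (WW X S ps * ps)) →
      (1 / (Nat.totient (WW X S ps) : ℝ)) *
          ∑ f₂ ∈ F₂, (1 / (f₂ : ℝ) ^ (3 / 4 : ℝ)) *
            ∑ f ∈ (WW X S ps).divisors, TT X (f * f₂) ≤
        X / (Nat.totient (WW X S ps) : ℝ) * (C * (Real.log X) ^ 10 / y₁ ^ (1 / 4 : ℝ)))
    (hCs : C * (Real.log X) ^ 14 / ((Real.log X) ^ A) ^ (1 / 4 : ℝ) ≤ 1 / 10000)
    {Z₀ : ℕ} (hps : GoodP Z₀ ps) (b : ℕ) (hb : b.Coprime (WW X S ps))
    (hEP : |EPhi X (WW X S ps) b| ≤ X / ((Nat.totient (WW X S ps) : ℝ) * 1000))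
    (hLP : X / 200 ≤ LPhi X) :
    ∃ 𝒩 : Finset ℕ, X ^ (7 / 8 : ℝ) ≤ 𝒩.card ∧ ∀ n ∈ 𝒩, n.Prime ∧ X < n ∧ (n : ℝ) ≤ 3 * X ∧
      n ≡ b [MOD WW X S ps] ∧ ∀ k, ∃ p ∈ PP, n % p ∈ R p k := by
  classical
  have hlow := D.sumL hX S hls hCs hps b hb hEP hLP
  have hup := D.sumU hX S b
  set L := Real.log X with hLdef
  have hL := D.hL
  have hL0 := D.L0
  have hX0 : 0 < X := by linarith
  have hXe : X = Real.exp L := (Real.exp_log hX0).symm
  set W := WW X S ps with hW
  have hW0 : 0 < W := Pool.Agent.H378R2.WW_pos X S ps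
  have hWle : (W : ℝ) ≤ Real.exp (L / 700) := Pool.Agent.H378R2.WW_le X (by linarith) S ps
  have hφ0 : (0 : ℝ) < (Nat.totient W : ℝ) := by exact_mod_cast Nat.totient_pos.2 hW0
  have hφW : (Nat.totient W : ℝ) ≤ W := by exact_mod_cast Nat.totient_le W
  set Q := Real.exp (L / 1000) with hQ
  have hQ0 : 0 < Q := Real.exp_pos _
  set Z := Pool.Agent.H378R2.QG.Zs (gRP PP R) h with hZ
  have hZ1 : 1 ≤ Z := D.Z1
  set V : ℕ → ℝ := fun n => V1 PP R h Q (lf PP R r (colr PP (rz r) (n : ℤ))) with hV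
  set T : ℕ → ℝ := fun n => T1 PP J (lf PP R r (colr PP (rz r) (n : ℤ))) with hT
  have hV0 : ∀ n, 0 ≤ V n := fun n => D.V0 Q _
  have hT0 : ∀ n, 0 ≤ T n := fun n => D.T0 _
  have hVQ : ∀ n, V n ≤ 9 * Q ^ 4 := fun n => (le_abs_self _).trans (Lv_abs (D.LvV hQ0) _)
  have hl3 : Real.log (3 * X) ≤ 2 * L := by
    rw [Real.log_mul (by norm_num) (by linarith), ← hLdef]
    have : Real.log 3 ≤ 3 := (Real.log_le_sub_one_of_pos (by norm_num)).trans (by norm_num)
    linarith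
  have hl30 : 0 ≤ Real.log (3 * X) := Real.log_nonneg (by linarith)
  set 𝒩 : Finset ℕ := (Icc 1 ⌊3 * X⌋₊).filter (fun n => n.Prime ∧ X < n ∧ (n : ℝ) ≤ 3 * X ∧
      n ≡ b [MOD W] ∧ ∀ k, ∃ p ∈ PP, n % p ∈ R p k) with h𝒩
  refine ⟨𝒩, ?_, fun n hn => (mem_filter.1 hn).2⟩
  by_contra hno
  push Not at hno
  -- every other prime of the class misses a colour
  have hmiss : ∀ n : ℕ, n.Prime → n ≡ b [MOD W] → Phi (n / X) ≠ 0 → n ∈ Icc 1 ⌊3 * X⌋₊ → n ∉ 𝒩 → 1 ≤ T n := by
    intro n hn hnb hPhi hI hN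
    by_contra hlt
    push Not at hlt
    have hXn : X < n := by
      by_contra hle
      push Not at hle
      apply hPhi
      apply Pool.Agent.H378R2.Phi_eq_zero_of_le (by positivity)
      rw [div_le_one hX0]
      exact hle
    have hn3 : (n : ℝ) ≤ 3 * X := by
      rw [mem_Icc] at hI
      exact (Nat.le_floor_iff (by linarith)).1 hI.2
    apply hN
    rw [h𝒩, mem_filter]
    refine ⟨hI, hn, hXn, hn3, hnb, fun k => ?_⟩
    obtain ⟨i, hi⟩ := D.T_lt _ hlt k
    exact ⟨emb PP i, emb_mem PP i, D.read n i k hi⟩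
  -- comparison
  have hcmp : sumP X W b (fun n => ArithmeticFunction.vonMangoldt n * V n) ≤
      Real.log (3 * X) * sumP X W b (fun n => V n * T n) +
        9 * Q ^ 4 * (2 * Real.sqrt (3 * X) * Real.log (3 * X)) +
        9 * Q ^ 4 * Real.log (3 * X) * 𝒩.card := by
    have h1 : ∀ n ∈ (Icc 1 ⌊3 * X⌋₊).filter (fun n => n ≡ b [MOD W]),
        Phi (n / X) * (ArithmeticFunction.vonMangoldt n * V n) ≤
        Real.log (3 * X) * (Phi (n / X) * (V n * T n)) +
          9 * Q ^ 4 * (if n.Prime then 0 else ArithmeticFunction.vonMangoldt n) +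
          9 * Q ^ 4 * Real.log (3 * X) * (if n ∈ 𝒩 then 1 else 0) := by
      intro n hn
      rw [mem_filter] at hn
      have hP0 := Pool.Agent.H378R2.Phi_nonneg (n / X)
      have hP1 := Pool.Agent.H378R2.Phi_le_one (n / X)
      have hΛ0 : 0 ≤ ArithmeticFunction.vonMangoldt n := ArithmeticFunction.vonMangoldt_nonneg
      have hind : 0 ≤ 9 * Q ^ 4 * Real.log (3 * X) * (if n ∈ 𝒩 then (1 : ℝ) else 0) := by
        split_ifs <;> positivity
      by_cases hp : n.Prime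
      · rw [if_pos hp, mul_zero, add_zero]
        have h3 : ArithmeticFunction.vonMangoldt n ≤ Real.log (3 * X) := by
          refine (Pool.Agent.H378R2.vonMangoldt_le_log' n).trans ?_
          apply Real.log_le_log (by exact_mod_cast hp.pos)
          have := hn.1
          rw [mem_Icc] at this
          exact (Nat.le_floor_iff (by linarith)).1 this.2
        by_cases hPhi : Phi (n / X) = 0
        · rw [hPhi, zero_mul, zero_mul, mul_zero, zero_add]
          exact hind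
        by_cases hnN : n ∈ 𝒩
        · rw [if_pos hnN, mul_one]
          have h4 : Phi (n / X) * (ArithmeticFunction.vonMangoldt n * V n) ≤
              1 * (Real.log (3 * X) * (9 * Q ^ 4)) :=
            mul_le_mul hP1 (mul_le_mul h3 (hVQ n) (hV0 n) hl30) (mul_nonneg hΛ0 (hV0 n)) zero_le_one
          have h5 : 0 ≤ Real.log (3 * X) * (Phi (n / X) * (V n * T n)) :=
            mul_nonneg hl30 (mul_nonneg hP0 (mul_nonneg (hV0 n) (hT0 n)))
          linarith
        rw [if_neg hnN, mul_zero, add_zero]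
        have h2 := hmiss n hp hn.2 hPhi hn.1 hnN
        have h4 : ArithmeticFunction.vonMangoldt n * V n ≤ Real.log (3 * X) * (V n * T n) := by
          have h5 := mul_le_mul_of_nonneg_right h3 (hV0 n)
          have h6 : V n ≤ V n * T n := le_mul_of_one_le_right (hV0 n) h2
          have h7 := mul_le_mul_of_nonneg_left h6 hl30
          linarith
        calc Phi (n / X) * (ArithmeticFunction.vonMangoldt n * V n) ≤
            Phi (n / X) * (Real.log (3 * X) * (V n * T n)) := mul_le_mul_of_nonneg_left h4 hP0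
          _ = _ := by ring
      · rw [if_neg hp]
        have h4 : Phi (n / X) * (ArithmeticFunction.vonMangoldt n * V n) ≤
            1 * (ArithmeticFunction.vonMangoldt n * (9 * Q ^ 4)) :=
          mul_le_mul hP1 (mul_le_mul_of_nonneg_left (hVQ n) hΛ0) (mul_nonneg hΛ0 (hV0 n)) zero_le_one
        have h5 : 0 ≤ Real.log (3 * X) * (Phi (n / X) * (V n * T n)) :=
          mul_nonneg hl30 (mul_nonneg hP0 (mul_nonneg (hV0 n) (hT0 n)))
        linarith
    unfold sumP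
    refine (Finset.sum_le_sum h1).trans ?_
    rw [Finset.sum_add_distrib, Finset.sum_add_distrib, ← Finset.mul_sum, ← Finset.mul_sum, ← Finset.mul_sum]
    have hcN : ∑ n ∈ (Icc 1 ⌊3 * X⌋₊).filter (fun n => n ≡ b [MOD W]), (if n ∈ 𝒩 then (1 : ℝ) else 0) ≤
        𝒩.card := by
      rw [← Finset.sum_filter, Finset.sum_const, nsmul_eq_mul, mul_one]
      have : ((Icc 1 ⌊3 * X⌋₊).filter (fun n => n ≡ b [MOD W])).filter (fun n => n ∈ 𝒩) ⊆ 𝒩 := by
        intro n hn
        exact (mem_filter.1 hn).2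
      exact_mod_cast card_le_card this
    have hcN2 := mul_le_mul_of_nonneg_left hcN (show 0 ≤ 9 * Q ^ 4 * Real.log (3 * X) by positivity)
    apply add_le_add _ hcN2
    apply add_le_add_right
    apply mul_le_mul_of_nonneg_left _ (by positivity)
    refine le_trans ?_ (Pool.Agent.H378R2.sum_nonprime_le (3 * X) (by linarith))
    have h2 : ∑ n ∈ (Icc 1 ⌊3 * X⌋₊).filter (fun n => n ≡ b [MOD W]),
        (if n.Prime then 0 else ArithmeticFunction.vonMangoldt n) ≤
        ∑ n ∈ Icc 1 ⌊3 * X⌋₊, (if n.Prime then 0 else ArithmeticFunction.vonMangoldt n) := by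
      apply Finset.sum_le_sum_of_subset_of_nonneg (filter_subset _ _)
      intro n _ _
      split_ifs
      · exact le_rfl
      · exact ArithmeticFunction.vonMangoldt_nonneg
    refine h2.trans (le_of_eq ?_)
    rw [Finset.sum_filter]
    apply Finset.sum_congr rfl
    intro n _
    by_cases hp : n.Prime
    · rw [if_pos hp, if_neg (not_not.2 hp)]
    · rw [if_neg hp, if_pos hp]
  -- numbers
  set Y := X / (Nat.totient W : ℝ) * Z with hY
  have hYbig2 : Real.exp (99 * L / 100) ≤ Y := by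
    have h1 : X / Real.exp (L / 700) ≤ X / (Nat.totient W : ℝ) :=
      div_le_div_of_nonneg_left hX0.le hφ0 (hφW.trans hWle)
    have h2 : Real.exp (99 * L / 100) ≤ X / Real.exp (L / 700) := by
      rw [hXe, ← Real.exp_sub]
      apply Real.exp_le_exp.2
      linarith
    have h3 : X / (Nat.totient W : ℝ) ≤ Y := by
      rw [hY]
      exact le_mul_of_one_le_right (by positivity) hZ1
    linarith
  have hYbig : Real.exp (9 * L / 10) ≤ Y := (Real.exp_le_exp.2 (by linarith)).trans hYbig2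
  have hs6 : 9 * Q ^ 4 * Real.log (3 * X) * 𝒩.card ≤ 1 / 10000 * Y := by
    have h1 : (𝒩.card : ℝ) ≤ Real.exp (7 * L / 8) := by
      have h2 : X ^ (7 / 8 : ℝ) = Real.exp (7 * L / 8) := by
        rw [Real.rpow_def_of_pos hX0]
        congr 1
        ring
      rw [h2] at hno
      exact hno.le
    have h2 : Q ^ 4 * Real.exp (7 * L / 8) ≤ Real.exp (89 * L / 100) := by
      rw [hQ, ← Real.exp_nat_mul, ← Real.exp_add]
      apply Real.exp_le_exp.2
      push_cast
      linarith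
    have h3 : Real.exp (99 * L / 100) = Real.exp (89 * L / 100) * Real.exp (L / 10) := by
      rw [← Real.exp_add]
      congr 1
      ring
    have h4 := num2 hL
    have h5 := Real.exp_pos (89 * L / 100)
    calc 9 * Q ^ 4 * Real.log (3 * X) * 𝒩.card ≤ 9 * Q ^ 4 * (2 * L) * Real.exp (7 * L / 8) := by
          apply mul_le_mul _ h1 (Nat.cast_nonneg _) (by positivity)
          exact mul_le_mul_of_nonneg_left hl3 (by positivity)
      _ = 18 * L * (Q ^ 4 * Real.exp (7 * L / 8)) := by ring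
      _ ≤ 18 * L * Real.exp (89 * L / 100) := mul_le_mul_of_nonneg_left h2 (by positivity)
      _ ≤ 1 / 10000 * (Real.exp (89 * L / 100) * Real.exp (L / 10)) := by
          have h6 := mul_le_mul_of_nonneg_left h4 h5.le
          linarith
      _ ≤ 1 / 10000 * Y := by
          rw [← h3]
          linarith
  have hn1 := num1 hL
  have hexp : Real.exp (9 * L / 10) = Real.exp (6 * L / 10) * Real.exp (3 * L / 10) := by
    rw [← Real.exp_add]
    congr 1
    ring
  have he6 := Real.exp_pos (6 * L / 10)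
  have hbig : 10 ^ 8 * (Real.exp (6 * L / 10) * L ^ 2) ≤ Y := by
    calc 10 ^ 8 * (Real.exp (6 * L / 10) * L ^ 2) = Real.exp (6 * L / 10) * (10 ^ 8 * L ^ 2) := by ring
      _ ≤ Real.exp (6 * L / 10) * Real.exp (3 * L / 10) := mul_le_mul_of_nonneg_left hn1 he6.le
      _ ≤ Y := by rw [← hexp]; exact hYbig
  have hY0 : 0 < Y := (Real.exp_pos _).trans_le hYbig
  have hsq : Real.sqrt (3 * X) ≤ 2 * Real.exp (L / 2) := by
    rw [show 2 * Real.exp (L / 2) = Real.sqrt ((2 * Real.exp (L / 2)) ^ 2) from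
      (Real.sqrt_sq (by positivity)).symm]
    apply Real.sqrt_le_sqrt
    rw [mul_pow, ← Real.exp_nat_mul]
    have h1 : ((2 : ℕ) : ℝ) * (L / 2) = L := by push_cast; ring
    rw [h1, ← hXe]
    linarith
  have hs1 : 9 * Q ^ 4 * (2 * Real.sqrt (3 * X) * Real.log (3 * X)) ≤ 72 * (Real.exp (6 * L / 10) * L ^ 2) := by
    have h1 : Q ^ 4 * Real.exp (L / 2) ≤ Real.exp (6 * L / 10) := by
      rw [hQ, ← Real.exp_nat_mul, ← Real.exp_add]
      apply Real.exp_le_exp.2
      push_cast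
      linarith
    calc 9 * Q ^ 4 * (2 * Real.sqrt (3 * X) * Real.log (3 * X)) ≤
        9 * Q ^ 4 * (2 * (2 * Real.exp (L / 2)) * (2 * L)) := by gcongr
      _ = 72 * ((Q ^ 4 * Real.exp (L / 2)) * L) := by ring
      _ ≤ 72 * (Real.exp (6 * L / 10) * L ^ 2) := by
          apply mul_le_mul_of_nonneg_left _ (by norm_num)
          apply mul_le_mul h1 _ hL0.le he6.le
          nlinarith
  have hs2 : Real.log (3 * X) * sumP X W b (fun n => V n * T n) ≤
      (2 * L) * (6 / L ^ 3 * Y + Real.exp (6 * L / 10) * L * 45) := by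
    have h1 : 0 ≤ sumP X W b (fun n => V n * T n) := by
      unfold sumP
      exact Finset.sum_nonneg fun n _ => mul_nonneg (Pool.Agent.H378R2.Phi_nonneg _)
        (mul_nonneg (hV0 n) (hT0 n))
    exact mul_le_mul hl3 hup h1 (by positivity)
  have hs3 : (2 * L) * (6 / L ^ 3 * Y + Real.exp (6 * L / 10) * L * 45) =
      12 / L ^ 2 * Y + 90 * (Real.exp (6 * L / 10) * L ^ 2) := by
    field_simp
    ring
  have hs4 : 12 / L ^ 2 ≤ 1 / 100000 := by
    rw [div_le_div_iff₀ (by positivity) (by norm_num)]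
    nlinarith
  have hs5 : 12 / L ^ 2 * Y ≤ 1 / 100000 * Y := mul_le_mul_of_nonneg_right hs4 hY0.le
  have hE0 : 0 < Real.exp (6 * L / 10) * L ^ 2 := by positivity
  rw [hs3] at hs2
  have hlow' : 1 / 2000 * Y - Real.exp (6 * L / 10) * L ^ 2 * 400 ≤
      sumP X W b (fun n => ArithmeticFunction.vonMangoldt n * V n) := hlow
  linarith

end

end Pool.Agent.TH325.PQ
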