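import Pool.Agent.TH325.PQ.Core3

set_option autoImplicit false
set_option linter.unusedSectionVars false

/-! # The covering theorem at primes (helper325) -/

namespace Pool.Agent.TH325.PQ

open Finset Filter
open Pool.Agent.H256R2.SC (Col emb emb_mem)
open Pool.Agent.H312R2.RG (pP BVat)
open Pool.Agent.H378R2 (GoodP GoodS WW EPhi LPhi Phi)
open Pool.Agent.H378R2.QG (Tc)

theorem BVat_one {A : ℕ} (hA : 1 ≤ A) {X : ℝ} (hX : 1 ≤ X) (hL : 1000 ≤ Real.log X) {ps : ℕ} {W : ℕ} (hW : 0 < W)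
    (h : BVat A X W ps) (b : ℕ) (hb : b.Coprime W) :
    |EPhi X W b| ≤ X / ((Nat.totient W : ℝ) * 1000) := by
  classical
  have h1 := h (fun q => if q = 1 then b else 1) (by
    intro q _
    by_cases hq : q = 1
    · simp only [hq, if_true, mul_one]
      exact hb
    · simp only [hq, if_false]
      exact Nat.coprime_one_left _)
  have hmem : 1 ∈ (Icc 1 ⌊X ^ (1 / 100 : ℝ)⌋₊).filter (fun q => Squarefree q ∧ q.Coprime (W * ps)) := by
    rw [mem_filter, mem_Icc]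
    refine ⟨⟨le_rfl, ?_⟩, squarefree_one, Nat.coprime_one_left _⟩
    apply Nat.le_floor
    rw [Nat.cast_one]
    exact Real.one_le_rpow hX (by norm_num)
  have h2 := Finset.single_le_sum (f := fun q : ℕ => (q.divisors.card : ℝ) ^ A *
    |EPhi X (W * q) (if q = 1 then b else 1)|) (fun q _ => by positivity) hmem
  simp only [Nat.divisors_one, card_singleton, Nat.cast_one, one_pow, one_mul, mul_one, if_true] at h2
  refine h2.trans (h1.trans ?_)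
  have hφ0 : (0 : ℝ) < (Nat.totient W : ℝ) := by exact_mod_cast Nat.totient_pos.2 hW
  apply div_le_div_of_nonneg_left (by linarith) (by positivity)
  apply mul_le_mul_of_nonneg_left _ hφ0.le
  calc (1000 : ℝ) ≤ Real.log X := hL
    _ = Real.log X ^ 1 := (pow_one _).symm
    _ ≤ _ := pow_le_pow_right₀ (by linarith) hA

theorem prime_cov (C₀ : ℝ) (hC₀ : 0 ≤ C₀) (A : ℕ) (hA : 64 ≤ A) : ∃ c : ℝ, 0 < c ∧ ∀ Z : ℕ,
    ∃ X₀ : ℝ, ∀ X : ℝ, X₀ ≤ X → ∀ (ps : ℕ) (S : Finset ℕ), GoodP Z ps →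
    BVat A X (WW X S ps) ps → ∀ (κ : Type) [Fintype κ] [DecidableEq κ],
    (Fintype.card κ : ℝ) ≤ c * Real.log X →
    ∀ (χ : κ → ℕ → ℝ) (E : Finset κ) (R : ℕ → κ → Finset ℕ),
    (∀ k p, |χ k p| ≤ 1) → (∀ k, χ k ps = -1) → (E.card : ℝ) ≤ (Real.log X) ^ (3 / 4 : ℝ) →
    (∀ k w, (Real.log X) ^ A ≤ w → w ≤ X → -(C₀ + Real.log (Real.log X) / 20) ≤ Tc (χ k) ((Real.log X) ^ A) w) →
    (∀ k, k ∉ E → ∀ w, (Real.log X) ^ A ≤ w → w ≤ X → -C₀ ≤ Tc (χ k) ((Real.log X) ^ A) w) →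
    (∀ p : ℕ, p.Prime → (Real.log X) ^ A < (p : ℝ) → p ≠ ps →
      (∀ k, R p k ⊆ Ioo 0 p ∧ ((R p k).card : ℝ) = 1 + χ k p) ∧
      ∀ k l, k ≠ l → Disjoint (R p k) (R p l)) →
    ∀ b : ℕ, b.Coprime (WW X S ps) →
    ∃ 𝒩 : Finset ℕ, X ^ (7 / 8 : ℝ) ≤ 𝒩.card ∧ ∀ n ∈ 𝒩, n.Prime ∧ X < n ∧ (n : ℝ) ≤ 3 * X ∧
      n ≡ b [MOD WW X S ps] ∧
      ∀ k, ∃ p : ℕ, p.Prime ∧ (Real.log X) ^ A < (p : ℝ) ∧ (p : ℝ) ≤ X ^ (1 / 100 : ℝ) ∧ p ≠ ps ∧
        n % p ∈ R p k := by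
  obtain ⟨c, hc, L₀, hpar⟩ := par_exists C₀ hC₀ A 3 (by omega)
  obtain ⟨C, X1, hC, hls⟩ := ls_one
  refine ⟨min c (1 / 2), lt_min hc (by norm_num), fun Z => ?_⟩
  have hev : ∀ᶠ X : ℝ in atTop, X1 ≤ X ∧ 4 ≤ X ∧ X / 200 ≤ LPhi X ∧ L₀ ≤ Real.log X ∧
      10000 ≤ Real.log X ∧ 10000 * C ≤ Real.log X := by
    filter_upwards [eventually_ge_atTop X1, eventually_ge_atTop 4, Pool.Agent.H378R2.LPhi_ge,
      Real.tendsto_log_atTop.eventually_ge_atTop L₀, Real.tendsto_log_atTop.eventually_ge_atTop 10000,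
      Real.tendsto_log_atTop.eventually_ge_atTop (10000 * C)] with X a1 a2 a3 a4 a5 a6
    exact ⟨a1, a2, a3, a4, a5, a6⟩
  obtain ⟨X₀, hX₀⟩ := eventually_atTop.1 hev
  refine ⟨X₀, fun X hX ps S hps hBV κ _ _ hcard χ E R hχ hχps hE hT1 hT2 hR b hb => ?_⟩
  obtain ⟨hXX1, hX4, hLP, hLL₀, hL, hLC⟩ := hX₀ X hX
  set L := Real.log X with hLdef
  have hL0 : 0 < L := by linarith
  have hX0 : 0 < X := by linarith
  have hXe : X = Real.exp L := (Real.exp_log hX0).symm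
  have hcard1 : (Fintype.card κ : ℝ) ≤ c * L :=
    hcard.trans (mul_le_mul_of_nonneg_right (min_le_left _ _) hL0.le)
  have hcard2 : (Fintype.card κ : ℝ) * 2 ≤ L := by
    have := hcard.trans (mul_le_mul_of_nonneg_right (min_le_right c (1 / 2)) hL0.le)
    linarith
  obtain ⟨z, PP, h, Kc, J, hJ, hz1, hzz, hPP, hzJ, hnJ, hsP, hH, hp1, hp2⟩ :=
    hpar L hLL₀ ps κ hcard1 χ E hχ hχps hE (fun k w h1 h2 => hT1 k w h1 (by rw [hXe]; exact h2))
      (fun k hk w h1 h2 => hT2 k hk w h1 (by rw [hXe]; exact h2))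
  have hpow : ∀ p ∈ PP, 100 * L ≤ (p : ℝ) := by
    intro p hp
    have h1 : L ^ 2 ≤ L ^ A := pow_le_pow_right₀ (by linarith) (by omega)
    have h2 := (hPP p hp).2.1
    nlinarith
  have hRp : ∀ p ∈ PP, (∀ k, R p k ⊆ Ioo 0 p ∧ ((R p k).card : ℝ) = 1 + χ k p) ∧
      ∀ k l, k ≠ l → Disjoint (R p k) (R p l) := fun p hp =>
    hR p (hPP p hp).1 (hPP p hp).2.1 (hPP p hp).2.2.2
  have hc2 : ∀ p ∈ PP, ∀ k, (R p k).card ≤ 2 := by
    intro p hp k
    have h1 := ((hRp p hp).1 k).2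
    have h2 := (abs_le.1 (hχ k p)).2
    have : ((R p k).card : ℝ) ≤ 2 := by linarith
    exact_mod_cast this
  have hres : ∀ p : ℕ, ∃ r : κ × Fin 2 → ℕ, p ∈ PP → Function.Injective r ∧ (∀ c, r c ∈ Ioo 0 p) ∧
      ∀ k, ((univ : Finset (Fin 2)).filter (fun j => r (k, j) ∈ R p k)).card = (R p k).card := by
    intro p
    by_cases hp : p ∈ PP
    · obtain ⟨r, h1, h2, h3⟩ := exists_res 2 p (R p) (fun k => ((hRp p hp).1 k).1) (hc2 p hp)
        (hRp p hp).2 (by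
          have h1 := hpow p hp
          have : ((2 * (Fintype.card κ * 2) + 1 : ℕ) : ℝ) ≤ (p : ℝ) := by
            push_cast
            linarith
          exact_mod_cast this)
      exact ⟨r, fun _ => ⟨h1, h2, h3⟩⟩
    · exact ⟨fun _ => 0, fun h => absurd h hp⟩
  choose r hr using hres
  have hg : ∀ (k : κ), (fun i => gRP PP R i k) =
      (fun i => (1 + χ k (emb PP i)) / ((emb PP i : ℕ) : ℝ)) := by
    intro k
    funext i
    unfold gRP gR
    rw [((hRp _ (emb_mem PP i)).1 k).2]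
    rfl
  have D : Dat L A ps PP z J h Kc R r :=
    { hL := hL
      hA := hA
      cu := hcard2
      med := hPP
      z1 := hz1
      zz := hzz
      Je := hJ
      zJ := hzJ
      nJ := hnJ
      sP := hsP
      H := fun k => by rw [hg k]; exact hH k
      par1 := hp1
      par2 := hp2
      rin := fun p hp => (hr p hp).2.1
      rinj := fun p hp => (hr p hp).1
      rR := fun p hp => (hr p hp).2.2
      cR := hc2 }
  have hCs : C * L ^ 14 / (L ^ A) ^ (1 / 4 : ℝ) ≤ 1 / 10000 := by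
    have h1 : (L ^ 64) ^ (1 / 4 : ℝ) ≤ (L ^ A) ^ (1 / 4 : ℝ) :=
      Real.rpow_le_rpow (by positivity) (pow_le_pow_right₀ (by linarith) hA) (by norm_num)
    have h2 : (L ^ 64) ^ (1 / 4 : ℝ) = L ^ 16 := by
      rw [← Real.rpow_natCast, ← Real.rpow_mul hL0.le]
      norm_num
    rw [h2] at h1
    calc C * L ^ 14 / (L ^ A) ^ (1 / 4 : ℝ) ≤ C * L ^ 14 / L ^ 16 :=
          div_le_div_of_nonneg_left (by positivity) (by positivity) h1
      _ = C / L ^ 2 := by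
          rw [div_eq_div_iff (by positivity) (by positivity)]
          ring
      _ ≤ 1 / 10000 := by
          rw [div_le_div_iff₀ (by positivity) (by norm_num)]
          nlinarith
  have hEP := BVat_one (by omega) (by linarith) (by linarith)
    (Pool.Agent.H378R2.WW_pos X S ps) hBV b hb
  obtain ⟨𝒩, hcardN, h𝒩⟩ := D.many_primes hX4 S (hls X hXX1) hCs hps b hb hEP hLP
  refine ⟨𝒩, hcardN, fun n hn => ?_⟩
  obtain ⟨h1, h2, h3, h4, h5⟩ := h𝒩 n hn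
  refine ⟨h1, h2, h3, h4, fun k => ?_⟩
  obtain ⟨p, hp, hpR⟩ := h5 k
  obtain ⟨q1, q2, q3, q4⟩ := hPP p hp
  refine ⟨p, q1, q2, ?_, q4, hpR⟩
  refine q3.trans (hzz.trans ?_)
  rw [hXe, ← Real.exp_mul]
  apply Real.exp_le_exp.2
  linarith

end Pool.Agent.TH325.PQ
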