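import Pool.Agent.TH325.PQ.Surv3
import Pool.Agent.H426R3.SQ.Quad0
import Pool.Agent.H378R2.Final

set_option autoImplicit false

/-! # Isolated values of several quadratic polynomials at primes (helper325) -/

namespace Pool.Agent.TH325.PQ

open Finset Filter
open Pool.Agent.H426R3.SQ (zR ff)
open Pool.Agent.H378R2 (yy PW WW GoodP GoodS)
open Pool.Agent.H378R2.QG (Tc T_lower)
open Pool.Agent.Helper919 (XX XX_apply XX_abs_le)

open scoped Classical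

/-- two quadratic polynomials without common root have no common root modulo a large prime -/
theorem no_common {a b w a' b' w' r : ℤ} {p : ℕ} {Λ : ℝ} (hΛ : 1 ≤ Λ) (ha : |(a : ℝ)| ≤ Λ)
    (hb : |(b : ℝ)| ≤ Λ) (ha' : |(a' : ℝ)| ≤ Λ) (hb' : |(b' : ℝ)| ≤ Λ) (hw : |(w : ℝ)| ≤ Λ ^ 2)
    (hw' : |(w' : ℝ)| ≤ Λ ^ 2) (hp : 52 * Λ ^ 8 < p) (hns : ¬ IsSquare (-w)) (ha0 : a' ≠ 0)
    (hkey : ¬ (a' * b = a * b' ∧ a ^ 2 * w' = a' ^ 2 * w))
    (h1 : (p : ℤ) ∣ (a * r + b) ^ 2 + w) (h2 : (p : ℤ) ∣ (a' * r + b') ^ 2 + w') : False := by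
  set δ : ℤ := a' * b - a * b' with hδ
  set N : ℤ := a ^ 2 * w' - a' ^ 2 * w with hN
  have hΛ0 : 0 ≤ Λ := by linarith
  have bδ : |(δ : ℝ)| ≤ 2 * Λ ^ 2 := by
    rw [hδ]
    push_cast
    refine (abs_sub _ _).trans ?_
    rw [abs_mul, abs_mul]
    have e1 : |(a' : ℝ)| * |(b : ℝ)| ≤ Λ * Λ := mul_le_mul ha' hb (abs_nonneg _) hΛ0
    have e2 : |(a : ℝ)| * |(b' : ℝ)| ≤ Λ * Λ := mul_le_mul ha hb' (abs_nonneg _) hΛ0
    nlinarith
  have bN : |(N : ℝ)| ≤ 2 * Λ ^ 4 := by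
    rw [hN]
    push_cast
    refine (abs_sub _ _).trans ?_
    rw [abs_mul, abs_mul, abs_pow, abs_pow]
    have e1 : |(a : ℝ)| ^ 2 * |(w' : ℝ)| ≤ Λ ^ 2 * Λ ^ 2 :=
      mul_le_mul (pow_le_pow_left₀ (abs_nonneg _) ha 2) hw' (abs_nonneg _) (by positivity)
    have e2 : |(a' : ℝ)| ^ 2 * |(w : ℝ)| ≤ Λ ^ 2 * Λ ^ 2 :=
      mul_le_mul (pow_le_pow_left₀ (abs_nonneg _) ha' 2) hw (abs_nonneg _) (by positivity)
    have e3 : Λ ^ 2 * Λ ^ 2 = Λ ^ 4 := by ring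
    linarith
  have hd1 : (p : ℤ) ∣ δ * (2 * a * a' * r + a' * b + a * b') - N := by
    have e : δ * (2 * a * a' * r + a' * b + a * b') - N =
        a' ^ 2 * ((a * r + b) ^ 2 + w) - a ^ 2 * ((a' * r + b') ^ 2 + w') := by
      rw [hδ, hN]
      ring
    rw [e]
    exact dvd_sub (Dvd.dvd.mul_left h1 _) (Dvd.dvd.mul_left h2 _)
  have hΛ48 : Λ ^ 4 ≤ Λ ^ 8 := pow_le_pow_right₀ hΛ (by norm_num)
  by_cases hδ0 : δ = 0
  · have hN0 : N ≠ 0 := by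
      intro h0
      apply hkey
      constructor
      · linarith [hδ.symm.trans hδ0]
      · linarith [hN.symm.trans h0]
    rw [hδ0, zero_mul, zero_sub, dvd_neg] at hd1
    apply hN0
    apply Int.eq_zero_of_abs_lt_dvd hd1
    have : |(N : ℝ)| < (p : ℝ) := by
      have : 0 ≤ Λ ^ 8 := by positivity
      linarith
    exact_mod_cast this
  · set M : ℤ := (N + δ ^ 2) ^ 2 + 4 * a' ^ 2 * δ ^ 2 * w with hM
    have hd2 : (p : ℤ) ∣ M := by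
      have e : M = 4 * a' ^ 2 * δ ^ 2 * ((a * r + b) ^ 2 + w) -
          (δ * (2 * a * a' * r + a' * b + a * b') - N) * (N + δ ^ 2 + 2 * a' * δ * (a * r + b)) := by
        rw [hM, hδ]
        ring
      rw [e]
      exact dvd_sub (Dvd.dvd.mul_left h1 _) (Dvd.dvd.mul_right hd1 _)
    have bM : |(M : ℝ)| ≤ 52 * Λ ^ 8 := by
      rw [hM]
      push_cast
      have e1 : |((N : ℝ) + (δ : ℝ) ^ 2)| ≤ 6 * Λ ^ 4 := by
        refine (abs_add_le _ _).trans ?_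
        rw [abs_pow]
        have e3 : |(δ : ℝ)| ^ 2 ≤ (2 * Λ ^ 2) ^ 2 := pow_le_pow_left₀ (abs_nonneg _) bδ 2
        have e4 : (2 * Λ ^ 2) ^ 2 = 4 * Λ ^ 4 := by ring
        linarith
      have e2 : |4 * (a' : ℝ) ^ 2 * (δ : ℝ) ^ 2 * (w : ℝ)| ≤ 16 * Λ ^ 8 := by
        rw [abs_mul, abs_mul, abs_mul, abs_pow, abs_pow, abs_of_pos (by norm_num : (0:ℝ) < 4)]
        have e3 : |(δ : ℝ)| ^ 2 ≤ (2 * Λ ^ 2) ^ 2 := pow_le_pow_left₀ (abs_nonneg _) bδ 2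
        have e4 : |(a' : ℝ)| ^ 2 ≤ Λ ^ 2 := pow_le_pow_left₀ (abs_nonneg _) ha' 2
        calc 4 * |(a' : ℝ)| ^ 2 * |(δ : ℝ)| ^ 2 * |(w : ℝ)| ≤ 4 * Λ ^ 2 * (2 * Λ ^ 2) ^ 2 * Λ ^ 2 := by
              gcongr
          _ = 16 * Λ ^ 8 := by ring
      refine (abs_add_le _ _).trans ?_
      rw [abs_pow]
      have e5 : |((N : ℝ) + (δ : ℝ) ^ 2)| ^ 2 ≤ (6 * Λ ^ 4) ^ 2 := pow_le_pow_left₀ (abs_nonneg _) e1 2
      have e6 : (6 * Λ ^ 4) ^ 2 = 36 * Λ ^ 8 := by ring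
      linarith
    have hM0 : M = 0 := by
      apply Int.eq_zero_of_abs_lt_dvd hd2
      have : |(M : ℝ)| < (p : ℝ) := by linarith
      exact_mod_cast this
    have hsq : (N + δ ^ 2) ^ 2 = (2 * a' * δ) ^ 2 * (-w) := by
      have e : (2 * a' * δ) ^ 2 * (-w) = (N + δ ^ 2) ^ 2 - M := by rw [hM]; ring
      rw [e, hM0, sub_zero]
    have hdv : (2 * a' * δ) ∣ (N + δ ^ 2) := by
      rw [← Int.pow_dvd_pow_iff (two_ne_zero)]
      exact ⟨-w, hsq⟩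
    obtain ⟨k, hk⟩ := hdv
    apply hns
    refine ⟨k, ?_⟩
    have h0 : (2 * a' * δ) ^ 2 ≠ 0 := pow_ne_zero 2 (mul_ne_zero (mul_ne_zero two_ne_zero ha0) hδ0)
    apply mul_left_cancel₀ h0
    rw [← hsq, hk]
    ring

/-- a class with a different value -/
theorem exists_nu {m : ℕ} (α β : Fin m → ℤ) (γ : Fin m → ℤ) (hα : ∀ i, 0 < α i) : ∃ ν : ℕ, 2 ≤ ν ∧
    ∀ i, (α i + β i + γ i) - (α i * (ν : ℤ) ^ 2 + β i * ν + γ i) ≠ 0 := by
  refine ⟨2 + ∑ i, (β i).natAbs, by omega, fun i => ?_⟩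
  have h1 : (β i).natAbs ≤ ∑ i, (β i).natAbs :=
    Finset.single_le_sum (f := fun i => (β i).natAbs) (fun i _ => Nat.zero_le _) (mem_univ i)
  set s : ℕ := ∑ i, (β i).natAbs with hs
  have h2 : |β i| ≤ (s : ℤ) := by
    rw [Int.abs_eq_natAbs]
    exact_mod_cast h1
  have h3 := (abs_le.1 h2).1
  have e : (α i + β i + γ i) - (α i * ((2 + s : ℕ) : ℤ) ^ 2 + β i * ((2 + s : ℕ) : ℤ) + γ i) =
      -((1 + (s : ℤ)) * (α i * (3 + s) + β i)) := by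
    push_cast
    ring
  rw [e, neg_ne_zero]
  have h4 := hα i
  have h5 : (0 : ℤ) ≤ s := Int.natCast_nonneg s
  have h6 : 3 + (s : ℤ) ≤ α i * (3 + s) := le_mul_of_one_le_left (by linarith) (by linarith)
  have h7 : 0 < (1 + (s : ℤ)) * (α i * (3 + s) + β i) := mul_pos (by linarith) (by linarith)
  exact h7.ne'

/-- the class modulo the big modulus -/
theorem exists_b (X y : ℝ) (S : Finset ℕ) (ps ν : ℕ) (h2 : 2 ≤ ν) (hz : (ν : ℝ) < zR y) :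
    ∃ b : ℕ, b.Coprime (WW X S ps) ∧ ∀ p ∈ PW X S ps, ((p : ℝ) ≤ zR y → b ≡ 1 [MOD p]) ∧
      (zR y < (p : ℝ) → b ≡ ν [MOD p]) := by
  obtain ⟨b, hb⟩ := Nat.chineseRemainderOfFinset (fun p : ℕ => if (p : ℝ) ≤ zR y then 1 else ν) (fun p => p)
    (PW X S ps)
    (fun p hp => ((Pool.Agent.H378R2.mem_PW.1 hp).2.1).ne_zero)
    (fun p hp q hq hpq => (Nat.coprime_primes (Pool.Agent.H378R2.mem_PW.1 (by simpa using hp)).2.1
      (Pool.Agent.H378R2.mem_PW.1 (by simpa using hq)).2.1).2 hpq)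
  have hb1 : ∀ p ∈ PW X S ps, ((p : ℝ) ≤ zR y → b ≡ 1 [MOD p]) ∧
      (zR y < (p : ℝ) → b ≡ ν [MOD p]) := by
    intro p hp
    have h4 := hb p hp
    constructor
    · intro h5
      rwa [if_pos h5] at h4
    · intro h5
      rwa [if_neg (not_le.2 h5)] at h4
  refine ⟨b, ?_, hb1⟩
  unfold WW
  apply Nat.Coprime.prod_right
  intro p hp
  have hpp := (Pool.Agent.H378R2.mem_PW.1 hp).2.1
  rw [Nat.coprime_comm, Nat.Prime.coprime_iff_not_dvd hpp]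
  intro hd
  have h5 : b ≡ 0 [MOD p] := (Nat.modEq_zero_iff_dvd).2 hd
  rcases le_or_gt ((p : ℝ)) (zR y) with h6 | h6
  · have h7 := (hb1 p hp).1 h6
    have h8 : p ∣ 1 := (Nat.modEq_zero_iff_dvd).1 (h7.symm.trans h5)
    exact hpp.one_lt.ne' (Nat.dvd_one.1 h8)
  · have h7 := (hb1 p hp).2 h6
    have h8 : p ∣ ν := (Nat.modEq_zero_iff_dvd).1 (h7.symm.trans h5)
    have h9 := Nat.le_of_dvd (by omega) h8
    have h10 : (ν : ℝ) < (p : ℝ) := hz.trans h6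
    have h11 : ν < p := by exact_mod_cast h10
    omega

theorem poly_congr {p : ℕ} (α β γ u : ℤ) {n m : ℕ} (h : n ≡ m [MOD p])
    (hd : (p : ℤ) ∣ (α * (m : ℤ) ^ 2 + β * m + γ) + u) : (p : ℤ) ∣ (α * (n : ℤ) ^ 2 + β * n + γ) + u := by
  have h1 : (p : ℤ) ∣ (m : ℤ) - n := Nat.modEq_iff_dvd.1 h
  have e : (α * (n : ℤ) ^ 2 + β * n + γ) + u = ((α * (m : ℤ) ^ 2 + β * m + γ) + u) -
      ((m : ℤ) - n) * (α * (m + n) + β) := by ring
  rw [e]
  exact dvd_sub hd (Dvd.dvd.mul_right h1 _)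

/-- sizes at a fixed `X` -/
theorem fam_sizes {L X : ℝ} (hL : 1000 ≤ L) (hXe : X = Real.exp L) :
    L ^ (11 / 10 : ℝ) ≤ L ^ 2 ∧ 52 * L ^ 8 < L ^ 64 ∧ L ^ 2 ≤ X / 100 ∧ L ≤ X ∧ 2 * L ^ 2 < L ^ 64 := by
  have hL0 : 0 < L := by linarith
  refine ⟨?_, ?_, ?_, ?_, ?_⟩
  · rw [← Real.rpow_natCast]
    exact Real.rpow_le_rpow_of_exponent_le (by linarith) (by norm_num)
  · have h1 : L ^ 9 ≤ L ^ 64 := pow_le_pow_right₀ (by linarith) (by norm_num)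
    have h2 : 52 * L ^ 8 < L ^ 9 := by
      have h3 : L ^ 9 = L * L ^ 8 := by ring
      rw [h3]
      exact mul_lt_mul_of_pos_right (by linarith) (by positivity)
    exact h2.trans_le h1
  · have h1 : L / 6 ≤ Real.exp (L / 6) := by
      have := Real.add_one_le_exp (L / 6)
      linarith
    have h2 : (L / 6) ^ 6 ≤ X := by
      have h3 : X = (Real.exp (L / 6)) ^ 6 := by
        rw [← Real.exp_nat_mul, hXe]
        congr 1
        push_cast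
        ring
      rw [h3]
      exact pow_le_pow_left₀ (by linarith) h1 6
    have h4 : (1000 : ℝ) ^ 4 ≤ L ^ 4 := pow_le_pow_left₀ (by norm_num) hL 4
    have h5 : (L / 6) ^ 6 = L ^ 4 * L ^ 2 / 46656 := by ring
    have h6 : 0 < L ^ 2 := by positivity
    rw [h5] at h2
    rw [div_le_iff₀ (by norm_num)] at h2
    have h7 : (1000 : ℝ) ^ 4 * L ^ 2 ≤ L ^ 4 * L ^ 2 := mul_le_mul_of_nonneg_right h4 h6.le
    rw [le_div_iff₀ (by norm_num)]
    linarith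
  · have := Real.add_one_le_exp L
    rw [← hXe] at this
    linarith
  · have h1 : L ^ 3 ≤ L ^ 64 := pow_le_pow_right₀ (by linarith) (by norm_num)
    have h2 : 2 * L ^ 2 < L ^ 3 := by
      have h3 : L ^ 3 = L * L ^ 2 := by ring
      rw [h3]
      exact mul_lt_mul_of_pos_right (by linarith) (by positivity)
    exact h2.trans_le h1

/-- the arithmetic at one prime `n` of the class -/
theorem fam_arith {α β γ : ℤ} (hα : 0 < α) {X y : ℝ} {S : Finset ℕ} {ps ν T : ℕ} {T' : ℝ}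
    (hX0 : 0 < X) (hy : y = (yy X : ℝ)) (hyX : y ≤ X) (hzy : zR y ≤ y)
    (hwf : ∀ u : ℤ, |u| ≤ (T : ℤ) → |(wf α β γ u : ℝ)| ≤ T')
    (hTT' : (T : ℝ) ≤ T') (hT'X : T' ≤ X / 100)
    (hLK : 1000 + 100 * (α + |(β : ℝ)| + |(γ : ℝ)|) ≤ X)
    (n b : ℕ) (hXn : X < n) (hnb : n ≡ b [MOD WW X S ps])
    (hbPW : ∀ p ∈ PW X S ps, ((p : ℝ) ≤ zR y → b ≡ 1 [MOD p]) ∧ (zR y < (p : ℝ) → b ≡ ν [MOD p]))
    (hhit : ∀ u : ℤ, u ∈ GX (α + β + γ) (α * (ν : ℤ) ^ 2 + β * ν + γ) y T S ps → ¬ IsSquare (-(wf α β γ u)) →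
      ∃ p : ℕ, p.Prime ∧ 4 * (α : ℝ) < p ∧ (p : ℝ) ≤ X ∧ (p : ℤ) ∣ (2 * α * n + β) ^ 2 + wf α β γ u)
    (q : ℕ) (hq : q.Prime) : (T : ℤ) < |(q : ℤ) - (α * (n : ℤ) ^ 2 + β * n + γ)| := by
  by_contra hcon
  push Not at hcon
  have hα1r : (1 : ℝ) ≤ α := by exact_mod_cast (by linarith : (1 : ℤ) ≤ α)
  set u : ℤ := (q : ℤ) - (α * (n : ℤ) ^ 2 + β * (n : ℤ) + γ) with hu
  have huT : |u| ≤ (T : ℤ) := hcon
  have hq1 : (q : ℤ) = (α * (n : ℤ) ^ 2 + β * n + γ) + u := by rw [hu]; ring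
  have hsz1 := Pool.Agent.H426R3.SQ.size1 (a := (α : ℝ)) (b := (β : ℝ)) (g := (γ : ℝ)) (n := (n : ℝ)) (Y := X)
    (T := (T : ℝ)) hα1r hXn hLK (hTT'.trans hT'X)
  obtain ⟨hsz2, hsz3⟩ := Pool.Agent.H426R3.SQ.size2 (a := (α : ℝ)) (b := (β : ℝ)) (g := (γ : ℝ)) (n := (n : ℝ))
    (Y := X) (T := (T : ℝ)) hα1r hXn hLK hT'X hTT'
  have hqX : X < (q : ℝ) := by
    have h2 : ((α * (n : ℤ) ^ 2 + β * n + γ : ℤ) : ℝ) - (T : ℝ) ≤ (q : ℝ) := by
      have h3 := (abs_le.1 huT).1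
      have : (α * (n : ℤ) ^ 2 + β * n + γ) - (T : ℤ) ≤ (q : ℤ) := by linarith
      exact_mod_cast this
    push_cast at h2
    linarith
  have hnd : ∀ p : ℕ, p.Prime → (p : ℝ) ≤ X → ¬ (p : ℤ) ∣ (q : ℤ) := by
    intro p hp hpX h
    have h2 : p ∣ q := by exact_mod_cast h
    have h3 := (Nat.prime_dvd_prime_iff_eq hp hq).mp h2
    rw [h3] at hpX
    linarith
  by_cases hsq : IsSquare (-(wf α β γ u))
  · obtain ⟨v, hv⟩ := hsq
    have hv2 : |(v : ℝ)| ≤ T' := by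
      have h2 := hwf u huT
      have h3 : |(wf α β γ u : ℝ)| = (v : ℝ) * v := by
        have h4 : ((-(wf α β γ u) : ℤ) : ℝ) = ((v * v : ℤ) : ℝ) := by rw [hv]
        push_cast at h4
        rw [← abs_neg, h4]
        exact abs_of_nonneg (mul_self_nonneg _)
      rw [h3] at h2
      refine le_trans ?_ h2
      rcases eq_or_ne v 0 with h | h
      · rw [h]; simp
      · have h5 : (1 : ℝ) ≤ |(v : ℝ)| := by
          have := Int.one_le_abs h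
          exact_mod_cast this
        have h6 : |(v : ℝ)| * |(v : ℝ)| = (v : ℝ) * v := abs_mul_abs_self _
        rw [← h6]
        exact le_mul_of_one_le_left (abs_nonneg _) h5
    refine not_prime_quad (k := q) (α := α) (x := 2 * α * n + β) (v := v) hα ?_ ?_ ?_ hq
    · have h2 := four_mul_quad α β γ n u
      rw [← hq1] at h2
      rw [h2]
      have : v ^ 2 = v * v := by ring
      rw [this, ← hv]
      ring
    · have h2 : ((4 * α : ℤ) : ℝ) < ((2 * α * n + β - |v| : ℤ) : ℝ) := by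
        push_cast
        linarith
      exact_mod_cast h2
    · have h2 : ((2 * α * n + β + |v| : ℤ) : ℝ) < ((q : ℤ) : ℝ) := by
        rw [hq1]
        have h3 : -(T : ℝ) ≤ (u : ℝ) := by exact_mod_cast (abs_le.1 huT).1
        push_cast
        linarith
      exact_mod_cast h2
  have hG : u ∉ GX (α + β + γ) (α * (ν : ℤ) ^ 2 + β * ν + γ) y T S ps := by
    intro hG
    obtain ⟨p, hp1, hp2, hp3, hp4⟩ := hhit u hG hsq
    apply hnd p hp1 hp3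
    have h3 := four_mul_quad α β γ n u
    rw [← hq1] at h3
    have h4 : (p : ℤ) ∣ 4 * α * (q : ℤ) := by
      rw [h3]
      exact hp4
    rcases (Nat.prime_iff_prime_int.mp hp1).dvd_or_dvd h4 with h5 | h5
    · exfalso
      have h6 := Int.le_of_dvd (by linarith) h5
      have h7 : (p : ℝ) ≤ 4 * α := by exact_mod_cast h6
      linarith
    · exact h5
  apply hG
  unfold GX
  rw [mem_filter, mem_Icc]
  have hPWm : ∀ p : ℕ, p.Prime → (p : ℝ) ≤ y → p ∉ S → p ≠ ps → p ∈ PW X S ps ∧ n ≡ b [MOD p] := by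
    intro p hp hpy hpS hpps
    have h2 : p ∈ PW X S ps := by
      rw [Pool.Agent.H378R2.mem_PW]
      refine ⟨?_, hp, hpS, hpps⟩
      rw [hy] at hpy
      exact_mod_cast hpy
    refine ⟨h2, hnb.of_dvd ?_⟩
    unfold WW
    exact Finset.dvd_prod_of_mem _ h2
  refine ⟨abs_le.mp huT, ?_, ?_⟩
  · intro p hp hp1 hp2 hpS hpps hd
    obtain ⟨h2, h3⟩ := hPWm p hp hp2 hpS hpps
    have h4 := h3.trans ((hbPW p h2).2 hp1)
    apply hnd p hp (hp2.trans hyX)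
    rw [hq1]
    exact poly_congr α β γ u h4 hd
  · intro p hp hp1 hpS hpps hd
    obtain ⟨h2, h3⟩ := hPWm p hp (hp1.trans hzy) hpS hpps
    have h4 := h3.trans ((hbPW p h2).1 hp1)
    apply hnd p hp ((hp1.trans hzy).trans hyX)
    rw [hq1]
    apply poly_congr α β γ u h4
    have e : (α * (((1 : ℕ) : ℤ)) ^ 2 + β * ((1 : ℕ) : ℤ) + γ) + u = (α + β + γ) + u := by
      push_cast
      ring
    rw [e]
    exact hd

end Pool.Agent.TH325.PQ
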