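import Pool.Agent.H256R2.SC.Defs

set_option autoImplicit false
set_option linter.unusedSectionVars false

/-! # Lifting colours to residue classes (helper325)

A colour `k` may be realised by several residue classes; `π i` maps the classes at the index `i` to the
colours they realise (`none` for the idle classes). -/

namespace Pool.Agent.TH325.PQ

open Finset
open Pool.Agent.H256R2.SC (Col Lv ind qq nu1)

variable {n : ℕ} {κ κ' : Type} [Fintype κ] [DecidableEq κ] [Fintype κ'] [DecidableEq κ']

/-- push forward of a product weight -/
theorem push (π : Fin n → Option κ' → Option κ) (m : Fin n → Option κ' → ℝ) (F : Col n κ → ℝ) :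
    ∑ x : Col n κ', (∏ i, m i (x i)) * F (fun i => π i (x i)) =
      ∑ y : Col n κ, (∏ i, ∑ c with π i c = y i, m i c) * F y := by
  have h1 : ∀ y : Col n κ, (∏ i, ∑ c with π i c = y i, m i c) =
      ∑ x : Col n κ' with (fun i => π i (x i)) = y, ∏ i, m i (x i) := by
    intro y
    rw [Finset.prod_univ_sum]
    apply Finset.sum_congr _ (fun _ _ => rfl)
    ext x
    simp only [Fintype.mem_piFinset, mem_filter, mem_univ, true_and]
    constructor
    · intro h
      funext i
      exact h i
    · intro h i
      exact congrFun h i
  rw [← Finset.sum_fiberwise (s := (univ : Finset (Col n κ'))) (g := fun x => (fun i => π i (x i)))]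
  apply Finset.sum_congr rfl
  intro y _
  rw [h1, Finset.sum_mul]
  apply Finset.sum_congr rfl
  intro x hx
  rw [mem_filter] at hx
  rw [hx.2]

/-- proper lifts -/
def Pr (π : Fin n → Option κ' → Option κ) (D' : Col n κ') : Prop :=
  ∀ i, D' i ≠ none → π i (D' i) ≠ none

instance (π : Fin n → Option κ' → Option κ) (D' : Col n κ') : Decidable (Pr π D') := by
  unfold Pr
  exact inferInstance

theorem lift_ind (π : Fin n → Option κ' → Option κ) (h0 : ∀ i, π i none = none) (D : Col n κ)
    (x : Col n κ') :
    ∑ D' : Col n κ' with (fun i => π i (D' i)) = D, (if Pr π D' then ind D' x else 0) =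
      ind D (fun i => π i (x i)) := by
  set E : Col n κ' := fun i => if D i = none then none else x i with hE
  by_cases hx : ∀ i, D i ≠ none → π i (x i) = D i
  · rw [Finset.sum_eq_single_of_mem E]
    · have hpr : Pr π E := by
        intro i hi
        simp only [hE] at hi ⊢
        split_ifs at hi ⊢ with h
        · exact absurd rfl hi
        · rw [hx i h]; exact h
      rw [if_pos hpr]
      unfold ind
      rw [if_pos, if_pos]
      · exact hx
      · intro i hi
        simp only [hE] at hi ⊢
        split_ifs at hi ⊢ with h
        · exact absurd rfl hi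
        · rfl
    · rw [mem_filter]
      refine ⟨mem_univ _, ?_⟩
      funext i
      simp only [hE]
      split_ifs with h
      · rw [h0, h]
      · exact hx i h
    · intro D' hD' hne
      rw [mem_filter] at hD'
      split_ifs with hpr
      · unfold ind
        rw [if_neg]
        intro hall
        apply hne
        funext i
        simp only [hE]
        split_ifs with h
        · by_contra hn
          have := hpr i hn
          rw [congrFun hD'.2 i] at this
          exact this h
        · have hn : D' i ≠ none := by
            intro hn
            apply h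
            rw [← congrFun hD'.2 i]
            simp only [hn, h0]
          exact (hall i hn).symm
      · rfl
  · have h2 : ind D (fun i => π i (x i)) = 0 := by
      unfold ind
      rw [if_neg hx]
    rw [h2]
    apply Finset.sum_eq_zero
    intro D' hD'
    rw [mem_filter] at hD'
    split_ifs with hpr
    · unfold ind
      rw [if_neg]
      intro hall
      apply hx
      intro i hi
      have hn : D' i ≠ none := by
        intro hn
        apply hi
        rw [← congrFun hD'.2 i]
        simp only [hn, h0]
      rw [hall i hn]
      exact congrFun hD'.2 i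
    · rfl

theorem lift_card (π : Fin n → Option κ' → Option κ) (p : Fin n → ℝ)
    (hc : ∀ i k, ((univ.filter (fun c => π i c = some k)).card : ℝ) ≤ p i) (D : Col n κ) :
    (((univ : Finset (Col n κ')).filter (fun D' => (fun i => π i (D' i)) = D ∧ Pr π D')).card : ℝ) ≤
      qq p D := by
  have h1 : (univ : Finset (Col n κ')).filter (fun D' => (fun i => π i (D' i)) = D ∧ Pr π D') ⊆
      Fintype.piFinset (fun i => if D i = none then {none} else univ.filter (fun c => π i c = D i)) := by
    intro D' hD'
    rw [mem_filter] at hD'
    rw [Fintype.mem_piFinset]
    intro i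
    split_ifs with h
    · rw [mem_singleton]
      by_contra hn
      have := hD'.2.2 i hn
      rw [congrFun hD'.2.1 i] at this
      exact this h
    · rw [mem_filter]
      exact ⟨mem_univ _, congrFun hD'.2.1 i⟩
  have h2 := Finset.card_le_card h1
  rw [Fintype.card_piFinset] at h2
  have h3 : (((univ : Finset (Col n κ')).filter (fun D' => (fun i => π i (D' i)) = D ∧ Pr π D')).card : ℝ) ≤
      ((∏ i, (if D i = none then ({none} : Finset (Option κ')) else
        univ.filter (fun c => π i c = D i)).card : ℕ) : ℝ) := by
    exact_mod_cast h2
  refine h3.trans ?_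
  rw [Nat.cast_prod]
  unfold qq
  apply Finset.prod_le_prod
  · intro i _
    exact Nat.cast_nonneg _
  · intro i _
    cases hD : D i with
    | none => simp [nu1]
    | some k =>
      simp only [reduceCtorEq, if_false, nu1]
      exact hc i k

/-- lifting the level structure -/
theorem Lv_lift (π : Fin n → Option κ' → Option κ) (h0 : ∀ i, π i none = none) {p : Fin n → ℝ}
    (hc : ∀ i k, ((univ.filter (fun c => π i c = some k)).card : ℝ) ≤ p i) {Q B : ℝ}
    {G : Col n κ → ℝ} (hQ : 0 ≤ Q) (hG : Lv p Q B G) :
    Lv p Q (B * Q) (fun x : Col n κ' => G (fun i => π i (x i))) := by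
  obtain ⟨f, h1, h2, h3⟩ := hG
  refine ⟨fun D' => if Pr π D' then f (fun i => π i (D' i)) else 0, fun x => ?_, ?_, fun D' hD' => ?_⟩
  · change G (fun i => π i (x i)) = _
    rw [h1, ← Finset.sum_fiberwise (s := (univ : Finset (Col n κ')))
      (g := fun D' => (fun i => π i (D' i)))]
    apply Finset.sum_congr rfl
    intro D _
    rw [← lift_ind π h0 D x, Finset.mul_sum]
    apply Finset.sum_congr rfl
    intro D' hD'
    rw [mem_filter] at hD'
    beta_reduce
    rw [hD'.2]
    split_ifs <;> ring
  · rw [← Finset.sum_fiberwise (s := (univ : Finset (Col n κ')))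
      (g := fun D' => (fun i => π i (D' i)))]
    have h4 : ∀ D ∈ (univ : Finset (Col n κ)), ∑ D' : Col n κ' with (fun i => π i (D' i)) = D,
        |if Pr π D' then f (fun i => π i (D' i)) else 0| ≤ |f D| * Q := by
      intro D _
      by_cases hf : f D = 0
      · rw [hf, abs_zero, zero_mul]
        apply le_of_eq
        apply Finset.sum_eq_zero
        intro D' hD'
        rw [mem_filter] at hD'
        rw [hD'.2, hf]
        simp
      have h5 : ∑ D' : Col n κ' with (fun i => π i (D' i)) = D,
          |if Pr π D' then f (fun i => π i (D' i)) else 0| =
          ∑ D' : Col n κ' with (fun i => π i (D' i)) = D ∧ Pr π D', |f D| := by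
        rw [← Finset.filter_filter, Finset.sum_filter (p := fun D' => Pr π D')]
        apply Finset.sum_congr rfl
        intro D' hD'
        rw [mem_filter] at hD'
        rw [hD'.2]
        split_ifs
        · rfl
        · simp
      rw [h5, Finset.sum_const, nsmul_eq_mul, mul_comm]
      apply mul_le_mul_of_nonneg_left _ (abs_nonneg _)
      exact (lift_card π p hc D).trans (h3 D hf)
    refine (Finset.sum_le_sum h4).trans ?_
    rw [← Finset.sum_mul]
    exact mul_le_mul_of_nonneg_right h2 hQ
  · beta_reduce at hD'
    by_cases hpr : Pr π D'
    · rw [if_pos hpr] at hD'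
      have h4 := h3 _ hD'
      refine le_trans (le_of_eq ?_) h4
      unfold qq
      apply Finset.prod_congr rfl
      intro i _
      cases hD : D' i with
      | none => simp only [hD, h0, nu1]
      | some k =>
        have h5 := hpr i (by rw [hD]; simp)
        rw [hD] at h5
        cases hE : π i (some k) with
        | none => exact absurd hE h5
        | some l => simp only [nu1, hD, hE]
    · rw [if_neg hpr] at hD'
      exact absurd rfl hD'

end Pool.Agent.TH325.PQ
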