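import Pool.Agent.TH325.PQ.Fam

set_option autoImplicit false

/-! # Isolated values of several quadratic polynomials at primes, conclusion (helper325) -/

namespace Pool.Agent.TH325.PQ

open Finset Filter
open Pool.Agent.H426R3.SQ (zR ff)
open Pool.Agent.H378R2 (yy PW WW GoodP GoodS)
open Pool.Agent.H378R2.QG (Tc T_lower)
open Pool.Agent.Helper919 (XX XX_apply XX_abs_le)

open scoped Classical

/-- the key of a shifted polynomial: its normalised square completion -/
def key {m : ℕ} (α β γ : Fin m → ℤ) (x : Fin m × ℤ) : ℚ × ℚ :=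
  ((β x.1 : ℚ) / (2 * α x.1), (wf (α x.1) (β x.1) (γ x.1) x.2 : ℚ) / (2 * α x.1) ^ 2)

theorem key_eq {m : ℕ} {α β γ : Fin m → ℤ} (hα : ∀ i, 0 < α i) {x x' : Fin m × ℤ} :
    key α β γ x = key α β γ x' ↔ (2 * α x'.1) * β x.1 = (2 * α x.1) * β x'.1 ∧
      (2 * α x.1) ^ 2 * wf (α x'.1) (β x'.1) (γ x'.1) x'.2 =
        (2 * α x'.1) ^ 2 * wf (α x.1) (β x.1) (γ x.1) x.2 := by
  have h1 : (2 * (α x.1 : ℚ)) ≠ 0 := by
    have := hα x.1
    have : (0 : ℚ) < α x.1 := by exact_mod_cast this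
    positivity
  have h2 : (2 * (α x'.1 : ℚ)) ≠ 0 := by
    have := hα x'.1
    have : (0 : ℚ) < α x'.1 := by exact_mod_cast this
    positivity
  unfold key
  rw [Prod.mk.injEq, div_eq_div_iff h1 h2, div_eq_div_iff (pow_ne_zero 2 h1) (pow_ne_zero 2 h2)]
  constructor
  · rintro ⟨e1, e2⟩
    constructor
    · have e3 : ((2 * α x'.1) * β x.1 : ℚ) = (2 * α x.1) * β x'.1 := by linarith
      exact_mod_cast e3
    · have e3 : ((2 * α x.1) ^ 2 * (wf (α x'.1) (β x'.1) (γ x'.1) x'.2 : ℚ)) =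
        (2 * α x'.1) ^ 2 * (wf (α x.1) (β x.1) (γ x.1) x.2 : ℚ) := by linarith
      exact_mod_cast e3
  · rintro ⟨e1, e2⟩
    have e3 : ((2 * α x'.1) * β x.1 : ℚ) = (2 * α x.1) * β x'.1 := by exact_mod_cast e1
    have e4 : ((2 * α x.1) ^ 2 * (wf (α x'.1) (β x'.1) (γ x'.1) x'.2 : ℚ)) =
        (2 * α x'.1) ^ 2 * (wf (α x.1) (β x.1) (γ x.1) x.2 : ℚ) := by exact_mod_cast e2
    constructor <;> linarith

theorem pq_family {m : ℕ} (α β γ : Fin m → ℤ) (hα : ∀ i, 0 < α i) : ∃ c : ℝ, 0 < c ∧ ∃ X₀ : ℝ,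
    ∀ X : ℝ, X₀ ≤ X → ∃ 𝒩 : Finset ℕ, X ^ (7 / 8 : ℝ) ≤ 𝒩.card ∧ ∀ p ∈ 𝒩, p.Prime ∧ X < p ∧
      (p : ℝ) ≤ 3 * X ∧ ∀ i, ∀ q : ℕ, q.Prime →
        c * ff X < |(q : ℝ) - (α i * (p : ℝ) ^ 2 + β i * p + γ i)| := by
  obtain ⟨C, hC, L₁, hTL⟩ := T_lower
  obtain ⟨M, hM, hTc⟩ := Tc_lower 64 (by norm_num)
  obtain ⟨c₁, hc₁, hcov'⟩ := prime_cov (C + M + 1) (by linarith) 64 le_rfl
  obtain ⟨X₁, hcov⟩ := hcov' 2
  obtain ⟨ν, hν2, hne⟩ := exists_nu α β γ hα
  set v₁ : Fin m → ℤ := fun i => α i + β i + γ i with hv₁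
  set v₂ : Fin m → ℤ := fun i => α i * (ν : ℤ) ^ 2 + β i * ν + γ i with hv₂
  -- a bound for the coefficients
  set K₀ : ℝ := ∑ i, (1000 + 100 * ((α i : ℝ) + |(β i : ℝ)| + |(γ i : ℝ)|)) with hK₀
  set K : ℝ := ∑ i, (4 * (α i : ℝ) * (|(γ i : ℝ)| + 1) + (β i : ℝ) ^ 2 + 1) with hK
  have hα1r : ∀ i, (1 : ℝ) ≤ α i := fun i => by exact_mod_cast (by linarith [hα i] : (1 : ℤ) ≤ α i)
  have hK₀i : ∀ i, 1000 + 100 * ((α i : ℝ) + |(β i : ℝ)| + |(γ i : ℝ)|) ≤ K₀ := fun i =>
    Finset.single_le_sum (f := fun i => 1000 + 100 * ((α i : ℝ) + |(β i : ℝ)| + |(γ i : ℝ)|))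
      (fun i _ => by have := hα1r i; positivity) (mem_univ i)
  have hKi : ∀ i, 4 * (α i : ℝ) * (|(γ i : ℝ)| + 1) + (β i : ℝ) ^ 2 + 1 ≤ K := fun i =>
    Finset.single_le_sum (f := fun i => 4 * (α i : ℝ) * (|(γ i : ℝ)| + 1) + (β i : ℝ) ^ 2 + 1)
      (fun i _ => by have := hα1r i; positivity) (mem_univ i)
  have hK0 : 0 ≤ K := Finset.sum_nonneg fun i _ => by have := hα1r i; positivity
  obtain ⟨c₂, hc₂, X₂, hsa⟩ := surv_ana v₁ v₂ hne (c₁ / (m + 1)) K 1 ν (by positivity) hK0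
    (Nat.cast_nonneg ν)
  obtain ⟨X₃, hbv⟩ := Pool.Agent.H378R2.bvrel_holds 64 2
  refine ⟨c₂ / 2, by positivity, max (max X₁ X₂) (max X₃
    (Real.exp (max (max L₁ 1000) (max K₀ ((m : ℝ) ^ 20))))), fun X hX => ?_⟩
  have hX1 : X₁ ≤ X := (le_max_left _ _).trans ((le_max_left _ _).trans hX)
  have hX2 : X₂ ≤ X := (le_max_right _ _).trans ((le_max_left _ _).trans hX)
  have hX3 : X₃ ≤ X := (le_max_left _ _).trans ((le_max_right _ _).trans hX)
  have hX4 := (le_max_right _ _).trans ((le_max_right _ _).trans hX)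
  have hX0 : 0 < X := (Real.exp_pos _).trans_le hX4
  rw [← Real.le_log_iff_exp_le hX0] at hX4
  set L := Real.log X with hL
  have hLL1 : L₁ ≤ L := (le_max_left _ _).trans ((le_max_left _ _).trans hX4)
  have hL1000 : 1000 ≤ L := (le_max_right _ _).trans ((le_max_left _ _).trans hX4)
  have hLK₀ : K₀ ≤ L := (le_max_left _ _).trans ((le_max_right _ _).trans hX4)
  have hLm : (m : ℝ) ^ 20 ≤ L := (le_max_right _ _).trans ((le_max_right _ _).trans hX4)
  clear hX4 hX
  have hL0 : 0 < L := by linarith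
  have hXe : X = Real.exp L := (Real.exp_log hX0).symm
  have hLKi : ∀ i, 1000 + 100 * ((α i : ℝ) + |(β i : ℝ)| + |(γ i : ℝ)|) ≤ L := fun i =>
    (hK₀i i).trans hLK₀
  obtain ⟨hL2, hL64', hX100, hLX, hL64⟩ := fam_sizes hL1000 hXe
  obtain ⟨ps, S, hps, hS, hBV⟩ := hbv X hX3
  set y : ℝ := (yy X : ℝ) with hy
  obtain ⟨-, g2, g3, g4, g5, g6, g7, g8, g9⟩ := hsa X hX2 y hy _ rfl
  set T : ℕ := ⌊c₂ / 2 * ff X⌋₊ with hT
  have hcardG := g9 S ps hS hps
  -- sizes
  set T' : ℝ := L ^ (11 / 10 : ℝ) with hT'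
  have hT1r : (1 : ℝ) ≤ T := by exact_mod_cast g5
  have hTT' : ∀ i, 4 * (α i : ℝ) * (|(γ i : ℝ)| + T) + (β i : ℝ) ^ 2 ≤ T' := by
    intro i
    have h1 := Pool.Agent.H426R3.SQ.size3 (b := (β i : ℝ)) (hα1r i) (le_refl (T : ℝ)) hT1r
      (abs_nonneg (γ i : ℝ)) (by linarith : (0:ℝ) ≤ T)
    refine h1.trans (le_trans ?_ g7)
    exact mul_le_mul_of_nonneg_right (hKi i) (by linarith)
  have hwf : ∀ i, ∀ u : ℤ, |u| ≤ (T : ℤ) → |(wf (α i) (β i) (γ i) u : ℝ)| ≤ T' := by
    intro i u hu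
    have hu' : |(u : ℝ)| ≤ (T : ℝ) := by exact_mod_cast hu
    refine le_trans ?_ (hTT' i)
    have hα1 := hα1r i
    unfold wf
    push_cast
    have h1 := abs_sub (4 * (α i : ℝ) * (γ i + u)) ((β i : ℝ) ^ 2)
    have h2 : |4 * (α i : ℝ) * (γ i + u)| ≤ 4 * α i * (|(γ i : ℝ)| + T) := by
      rw [abs_mul, abs_of_pos (by linarith : (0:ℝ) < 4 * α i)]
      apply mul_le_mul_of_nonneg_left _ (by linarith)
      exact (abs_add_le _ _).trans (by linarith)
    have h3 : |(β i : ℝ) ^ 2| = (β i : ℝ) ^ 2 := abs_of_nonneg (sq_nonneg _)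
    linarith
  obtain ⟨E, hE1, hE2⟩ := hTL L hLL1
  -- the colours
  set 𝒢 : Finset (Fin m × ℤ) := (univ : Finset (Fin m)).biUnion (fun i =>
    ((GX (v₁ i) (v₂ i) y T S ps).filter (fun u => ¬ IsSquare (-(wf (α i) (β i) (γ i) u)))).image
      (fun u => (i, u))) with h𝒢
  have h𝒢iff : ∀ x : Fin m × ℤ, x ∈ 𝒢 ↔ x.2 ∈ GX (v₁ x.1) (v₂ x.1) y T S ps ∧
      ¬ IsSquare (-(wf (α x.1) (β x.1) (γ x.1) x.2)) := by
    intro x
    rw [h𝒢, mem_biUnion]
    constructor
    · rintro ⟨i, _, hx⟩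
      rw [mem_image] at hx
      obtain ⟨u, hu, rfl⟩ := hx
      exact mem_filter.1 hu
    · intro hx
      refine ⟨x.1, mem_univ _, ?_⟩
      rw [mem_image]
      exact ⟨x.2, mem_filter.2 hx, rfl⟩
  have h𝒢mem : ∀ x ∈ 𝒢, |x.2| ≤ (T : ℤ) ∧ ¬ IsSquare (-(wf (α x.1) (β x.1) (γ x.1) x.2)) := by
    intro x hx
    have h1 := (h𝒢iff x).1 hx
    have h2 := h1.1
    unfold GX at h2
    rw [mem_filter, mem_Icc] at h2
    exact ⟨abs_le.2 h2.1, h1.2⟩
  have h𝒢card : (𝒢.card : ℝ) ≤ c₁ * L := by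
    have h1 : 𝒢.card ≤ ∑ i : Fin m, (GX (v₁ i) (v₂ i) y T S ps).card := by
      rw [h𝒢]
      refine card_biUnion_le.trans (Finset.sum_le_sum fun i _ => ?_)
      exact card_image_le.trans (card_le_card (filter_subset _ _))
    have h2 : (𝒢.card : ℝ) ≤ ∑ i : Fin m, ((GX (v₁ i) (v₂ i) y T S ps).card : ℝ) := by
      exact_mod_cast h1
    refine h2.trans ((Finset.sum_le_sum fun i _ => hcardG i).trans ?_)
    rw [Finset.sum_const, Finset.card_univ, Fintype.card_fin, nsmul_eq_mul]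
    have h3 : (m : ℝ) * (c₁ / (m + 1) * L) = (m / (m + 1)) * (c₁ * L) := by
      field_simp
    rw [h3]
    apply mul_le_of_le_one_left (by positivity)
    rw [div_le_one (by positivity)]
    linarith
  let κ : Type := {c : ℚ × ℚ // c ∈ 𝒢.image (key α β γ)}
  have hrep : ∀ k : κ, ∃ x : Fin m × ℤ, x ∈ 𝒢 ∧ key α β γ x = k.1 := fun k => mem_image.1 k.2
  choose rep hrep1 hrep2 using hrep
  have hκ : (Fintype.card κ : ℝ) = ((𝒢.image (key α β γ)).card : ℝ) := by
    congr 1
    exact Fintype.card_coe _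
  have hκc : (Fintype.card κ : ℝ) ≤ c₁ * L := by
    rw [hκ]
    refine le_trans ?_ h𝒢card
    exact_mod_cast card_image_le
  let ww : κ → ℤ := fun k => wf (α (rep k).1) (β (rep k).1) (γ (rep k).1) (rep k).2
  let χ : κ → ℕ → ℝ := fun k p => if p = ps then -1 else XX (-(ww k)) p
  let E' : Finset κ := univ.filter (fun k : κ => -(ww k) ∈ E)
  have hE' : (E'.card : ℝ) ≤ L ^ (3 / 4 : ℝ) := by
    have h1 : E'.card ≤ ((univ : Finset (Fin m)) ×ˢ E).card := by
      apply Finset.card_le_card_of_injOn (fun k : κ => ((rep k).1, -(ww k)))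
      · intro k hk
        rw [mem_coe, mem_product]
        exact ⟨mem_univ _, (mem_filter.1 (by simpa using hk : k ∈ E')).2⟩
      · intro k _ l _ hkl
        have h2 := congrArg Prod.fst hkl
        have h3 := congrArg Prod.snd hkl
        simp only [ww] at h2 h3
        have h4 : (rep k).2 = (rep l).2 := by
          rw [h2] at h3
          unfold wf at h3
          have h5 : 4 * α (rep l).1 * ((rep k).2 - (rep l).2) = 0 := by linear_combination -h3
          rcases mul_eq_zero.mp h5 with h6 | h6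
          · exfalso
            linarith [hα (rep l).1]
          · linarith
        have h5 : rep k = rep l := Prod.ext h2 h4
        apply Subtype.ext
        rw [← hrep2 k, ← hrep2 l, h5]
    rw [card_product, Finset.card_univ, Fintype.card_fin] at h1
    have h2 : (E'.card : ℝ) ≤ (m : ℝ) * E.card := by exact_mod_cast h1
    have hm0 : (0 : ℝ) ≤ m := Nat.cast_nonneg m
    have h3 : (m : ℝ) ≤ L ^ (1 / 20 : ℝ) := by
      have h4 : ((m : ℝ) ^ 20) ^ (1 / 20 : ℝ) = m := by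
        rw [← Real.rpow_natCast, ← Real.rpow_mul hm0]
        norm_num
      rw [← h4]
      exact Real.rpow_le_rpow (by positivity) hLm (by norm_num)
    calc (E'.card : ℝ) ≤ (m : ℝ) * E.card := h2
      _ ≤ L ^ (1 / 20 : ℝ) * L ^ (7 / 10 : ℝ) :=
          mul_le_mul h3 hE1 (Nat.cast_nonneg _) (Real.rpow_nonneg hL0.le _)
      _ = L ^ (3 / 4 : ℝ) := by
          rw [← Real.rpow_add hL0]
          norm_num
  have hχ1 : ∀ (k : κ) (p : ℕ), |χ k p| ≤ 1 := by
    intro k p
    change |if p = ps then (-1 : ℝ) else XX (-(ww k)) p| ≤ 1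
    split_ifs
    · norm_num
    · exact XX_abs_le _ _
  have hwk : ∀ k : κ, |(ww k : ℝ)| ≤ T' := fun k => hwf _ _ (h𝒢mem _ (hrep1 k)).1
  have hnsk : ∀ k : κ, ¬ IsSquare (-(ww k)) := fun k => (h𝒢mem _ (hrep1 k)).2
  have hL641 : 2 ≤ L ^ 64 := by
    have : 1 ≤ L ^ 2 := one_le_pow₀ (by linarith)
    linarith
  have hconv : ∀ (k : κ) (w : ℝ), L ^ 64 ≤ w →
      Tc (fun p => XX (-(ww k)) p) (L ^ 2) w - (M + 1) ≤ Tc (χ k) (L ^ 64) w := by
    intro k w hw
    have h1 := hTc L (by linarith) (fun p => XX (-(ww k)) p) (fun p => XX_abs_le _ _) w hw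
    have h2 := Tc_change (fun p => XX (-(ww k)) p) (χ k) ps (fun p hp => if_neg hp)
      (fun p => XX_abs_le _ _) (hχ1 k) hL641 (by linarith : (0:ℝ) ≤ w)
    linarith
  have hDk : ∀ k : κ, |((-(ww k) : ℤ) : ℝ)| ≤ L ^ (11 / 10 : ℝ) := by
    intro k
    push_cast
    rw [abs_neg]
    exact hwk k
  have hL264 : L ^ 2 ≤ L ^ 64 := by
    have : 0 ≤ L ^ 2 := by positivity
    linarith
  -- divisibility by large primes
  have hsmall : ∀ p : ℕ, L ^ 64 < (p : ℝ) → ∀ z : ℤ, z ≠ 0 → |(z : ℝ)| ≤ 2 * L ^ 2 → ¬ (p : ℤ) ∣ z := by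
    intro p hpL z hz0 hz hd
    apply hz0
    apply Int.eq_zero_of_abs_lt_dvd hd
    have : |(z : ℝ)| < (p : ℝ) := by linarith
    exact_mod_cast this
  have hLL2 : L ≤ L ^ 2 := le_self_pow₀ (by linarith) (by norm_num)
  have hα2 : ∀ p : ℕ, L ^ 64 < (p : ℝ) → ∀ i, ¬ (p : ℤ) ∣ 2 * α i := by
    intro p hpL i
    apply hsmall p hpL
    · have := hα i
      linarith
    · push_cast
      have h1 := hα1r i
      have h2 := hLKi i
      have h3 := abs_nonneg (β i : ℝ)
      have h4 := abs_nonneg (γ i : ℝ)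
      rw [abs_of_pos (by linarith)]
      linarith
  obtain ⟨b, hb, hbPW⟩ := exists_b X y S ps ν hν2 g4
  obtain ⟨𝒩, h𝒩c, h𝒩⟩ := hcov X hX1 ps S hps hBV κ hκc χ E'
    (fun p k => Rt (2 * α (rep k).1) (β (rep k).1) p (ww k)) hχ1 (fun k => if_pos rfl) hE'
    (by
      intro k w h1 h2
      rw [hXe] at h2
      have h3 := (hE2 _ (hnsk k) (hDk k)).1 w (hL264.trans h1) h2
      have h4 := hconv k w h1
      linarith)
    (by
      intro k hk w h1 h2
      rw [hXe] at h2
      have hkE : -(ww k) ∉ E := fun h => hk (mem_filter.2 ⟨mem_univ _, h⟩)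
      have h3 := (hE2 _ (hnsk k) (hDk k)).2 hkE w (hL264.trans h1) h2
      have h4 := hconv k w h1
      linarith)
    (by
      intro p hp hpL hpps
      have hp2 : p ≠ 2 := by
        rintro rfl
        push_cast at hpL
        linarith
      have hL20 : 0 ≤ L ^ 2 := by positivity
      refine ⟨fun k => ⟨?_, ?_⟩, fun k l hkl => ?_⟩
      · unfold Rt
        exact filter_subset _ _
      · have hnsq := hnsk k
        have hw0 : ww k ≠ 0 := by
          intro h0
          apply hnsq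
          rw [h0]
          exact ⟨0, by norm_num⟩
        have h1 := Rt_card hp hp2 (k := 2 * α (rep k).1) (j := β (rep k).1) (w := ww k) (hα2 p hpL _)
          (hsmall p hpL _ hw0 (by
            have := hwk k
            linarith))
          (by
            have e : β (rep k).1 ^ 2 + ww k = 4 * α (rep k).1 * (γ (rep k).1 + (rep k).2) := by
              simp only [ww]
              unfold wf
              ring
            rw [e]
            apply hsmall p hpL
            · intro h0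
              apply hnsq
              refine ⟨β (rep k).1, ?_⟩
              simp only [ww]
              unfold wf
              linear_combination -h0
            · have hu := (h𝒢mem _ (hrep1 k)).1
              have hu' : |((rep k).2 : ℝ)| ≤ (T : ℝ) := by exact_mod_cast hu
              have hα1 := hα1r (rep k).1
              push_cast
              rw [abs_mul, abs_of_pos (by linarith : (0:ℝ) < 4 * α (rep k).1)]
              have h3 : 4 * (α (rep k).1 : ℝ) * |(γ (rep k).1 : ℝ) + ((rep k).2 : ℝ)| ≤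
                  4 * α (rep k).1 * (|(γ (rep k).1 : ℝ)| + T) := by
                apply mul_le_mul_of_nonneg_left _ (by linarith)
                exact (abs_add_le _ _).trans (by linarith)
              have h4 := hTT' (rep k).1
              have h5 := sq_nonneg (β (rep k).1 : ℝ)
              linarith)
        have hχk : χ k p = XX (-(ww k)) p := if_neg hpps
        rw [hχk]
        exact h1
      · rw [Finset.disjoint_left]
        intro r hr1 hr2
        rw [mem_Rt] at hr1 hr2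
        have hcoef : ∀ i, |((2 * α i : ℤ) : ℝ)| ≤ L ∧ |(β i : ℝ)| ≤ L := by
          intro i
          have h1 := hα1r i
          have h2 := hLKi i
          have h3 := abs_nonneg (β i : ℝ)
          have h4 := abs_nonneg (γ i : ℝ)
          push_cast
          rw [abs_of_pos (by linarith)]
          constructor <;> linarith
        refine no_common (Λ := L) (by linarith) (hcoef (rep k).1).1 (hcoef (rep k).1).2
          (hcoef (rep l).1).1 (hcoef (rep l).1).2 ((hwk k).trans hL2) ((hwk l).trans hL2)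
          (hL64'.trans hpL) (hnsk k) ?_ ?_ hr1.2 hr2.2
        · have := hα (rep l).1
          intro h0
          linarith
        · intro hkey
          apply hkl
          apply Subtype.ext
          rw [← hrep2 k, ← hrep2 l]
          exact (key_eq hα).2 hkey)
    b hb
  refine ⟨𝒩, h𝒩c, fun n hn => ?_⟩
  obtain ⟨hnp, hXn, hn3, hnb, hhit⟩ := h𝒩 n hn
  refine ⟨hnp, hXn, hn3, fun i q hq => ?_⟩
  have hyX : y ≤ X := by linarith
  have hTT : (T : ℝ) ≤ T' := by
    have h1 := hTT' i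
    have hα1 := hα1r i
    have h2 : (1 : ℝ) * T ≤ 4 * α i * T := mul_le_mul_of_nonneg_right (by linarith) (by linarith)
    have h3 : 0 ≤ 4 * (α i : ℝ) * |(γ i : ℝ)| := by positivity
    have h4 : 0 ≤ (β i : ℝ) ^ 2 := by positivity
    have h5 : 4 * (α i : ℝ) * (|(γ i : ℝ)| + T) = 4 * α i * |(γ i : ℝ)| + 4 * α i * T := by ring
    rw [h5] at h1
    linarith
  have hfin := fam_arith (hα i) (ν := ν) (T' := T') hX0 hy hyX g3 (hwf i) hTT (hL2.trans hX100)
    ((hLKi i).trans hLX) n b hXn hnb hbPW (by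
      intro u huG hns
      have hx : ((i, u) : Fin m × ℤ) ∈ 𝒢 := (h𝒢iff (i, u)).2 ⟨huG, hns⟩
      set k : κ := ⟨key α β γ (i, u), mem_image_of_mem _ hx⟩ with hk
      obtain ⟨p, hp1, hp2, hp3, hp4, hp5⟩ := hhit k
      have hpX : (p : ℝ) ≤ X := by
        refine hp3.trans ?_
        calc X ^ (1 / 100 : ℝ) ≤ X ^ (1 : ℝ) :=
              Real.rpow_le_rpow_of_exponent_le (by linarith) (by norm_num)
          _ = X := Real.rpow_one X
      refine ⟨p, hp1, ?_, hpX, ?_⟩
      · have h1 := hLKi i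
        have h3 := abs_nonneg (β i : ℝ)
        have h4 := abs_nonneg (γ i : ℝ)
        have h5 := hα1r i
        linarith
      · have h2 := Rt_hit hp5
        have h3 : key α β γ (rep k) = key α β γ (i, u) := hrep2 k
        obtain ⟨e1, e2⟩ := (key_eq hα).1 h3
        simp only at e1 e2
        have hid : (2 * α (rep k).1) ^ 2 * ((2 * α i * n + β i) ^ 2 + wf (α i) (β i) (γ i) u) =
            (2 * α i) ^ 2 * ((2 * α (rep k).1 * n + β (rep k).1) ^ 2 + ww k) := by
          have e3 : (2 * α (rep k).1) * (2 * α i * n + β i) =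
              (2 * α i) * (2 * α (rep k).1 * n + β (rep k).1) := by
            linear_combination -e1
          have e4 : ((2 * α (rep k).1) * (2 * α i * n + β i)) ^ 2 =
              ((2 * α i) * (2 * α (rep k).1 * n + β (rep k).1)) ^ 2 := by rw [e3]
          simp only [ww]
          linear_combination e4 + e2
        have h4 : (p : ℤ) ∣ (2 * α (rep k).1) ^ 2 * ((2 * α i * n + β i) ^ 2 + wf (α i) (β i) (γ i) u) := by
          rw [hid]
          exact Dvd.dvd.mul_left h2 _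
        have hpi := Nat.prime_iff_prime_int.mp hp1
        rcases hpi.dvd_or_dvd h4 with h5 | h5
        · exact absurd (hpi.dvd_of_dvd_pow h5) (hα2 p hp2 _)
        · exact h5)
    q hq
  by_contra hcon
  push Not at hcon
  set u : ℤ := (q : ℤ) - (α i * (n : ℤ) ^ 2 + β i * (n : ℤ) + γ i) with hu
  have h1 : |(q : ℝ) - (α i * (n : ℝ) ^ 2 + β i * n + γ i)| = ((u.natAbs : ℕ) : ℝ) := by
    rw [Nat.cast_natAbs, hu]
    push_cast
    rfl
  rw [h1] at hcon
  have huT : |u| ≤ (T : ℤ) := by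
    rw [Int.abs_eq_natAbs]
    have : u.natAbs ≤ T := by
      rw [hT]
      exact Nat.le_floor hcon
    exact_mod_cast this
  linarith

end Pool.Agent.TH325.PQ
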