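import Pool.Agent.H769R2.QG.QJ

/-!
# PQ-1: moment bound with Fourier weights, for densities depending on the colour

Adapted from `Pool.Agent.H312R2.RG.moment` (helper273).
-/

set_option autoImplicit false

namespace Pool.Agent.TH325.PQ

namespace MomX

open Finset Pool.Agent.H378R2.QG
open Pool.Agent.H256R2.SC (Col al fib)
open Pool.Agent.H378R2.QG.QBx (inner_none inner_some)

variable {n : ℕ} {κ : Type} [Fintype κ] [DecidableEq κ]

/-- erase the colours of the indices in `s` -/
def cut (s : Finset (Fin n)) (x : Col n κ) : Col n κ := fun i => if i ∈ s then none else x i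

/-- keep only the colours of the indices in `s` -/
def rst (s : Finset (Fin n)) (x : Col n κ) : Col n κ := fun i => if i ∈ s then x i else none

/-- local majorant of the weights on the coordinates in `s` -/
noncomputable def Gs (θ : ℝ) (c : Option κ) : ℝ :=
  match c with
  | none => 5 * θ
  | some _ => 2

/-- local bound on the coordinates in `s` -/
noncomputable def bs (θ : ℝ) (g : κ → ℝ) (c : Option κ) : ℝ :=
  match c with
  | none => 16 * θ
  | some l => 7 * g l

theorem local_in (g : κ → ℝ) (θ : ℝ) (hg : ∀ k, 0 ≤ g k) (hθ0 : 0 ≤ θ) (hθ : θ ≤ 1 / 100)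
    (hgs : ∑ k, g k ≤ θ) (Y : Option κ → ℝ) :
    ∑ c, wt g c * Gs θ c * (∑ a, psi1 g a c * Y a) ^ 2 ≤ ∑ a, bs θ g a * (Y a) ^ 2 := by
  rw [Fintype.sum_option, inner_none, Fintype.sum_option]
  simp only [inner_some, wt, Gs, bs]
  set S := ∑ k, g k * Y (some k) with hS
  set P := ∑ k, g k * (Y (some k)) ^ 2 with hP
  set A := Y none - S with hA
  have hP0 : 0 ≤ P := sum_nonneg fun k _ => mul_nonneg (hg k) (sq_nonneg _)
  have hG0 : 0 ≤ ∑ k, g k := sum_nonneg fun k _ => hg k
  have hS2 : S ^ 2 ≤ θ * P := by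
    have h1 : S ^ 2 ≤ (∑ k, g k) * ∑ k, g k * (Y (some k)) ^ 2 := by
      apply Finset.sum_sq_le_sum_mul_sum_of_sq_le_mul
      · intro k _
        exact hg k
      · intro k _
        exact mul_nonneg (hg k) (sq_nonneg _)
      · intro k _
        exact le_of_eq (by ring)
    exact h1.trans (mul_le_mul_of_nonneg_right hgs hP0)
  have hS2P : θ * P ≤ 1 / 100 * P := mul_le_mul_of_nonneg_right hθ hP0
  -- the term `none`
  have h1 : (1 - ∑ k, g k) * (5 * θ) * A ^ 2 ≤ 10 * θ * (Y none) ^ 2 + 10 * θ * S ^ 2 := by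
    have e1 : (1 - ∑ k, g k) * (5 * θ) ≤ 5 * θ := by
      have : (∑ k, g k) * (5 * θ) ≥ 0 := by positivity
      linarith
    have e2 : A ^ 2 ≤ 2 * (Y none) ^ 2 + 2 * S ^ 2 := by
      rw [hA]
      nlinarith [sq_nonneg (Y none + S)]
    calc (1 - ∑ k, g k) * (5 * θ) * A ^ 2 ≤ 5 * θ * A ^ 2 :=
          mul_le_mul_of_nonneg_right e1 (sq_nonneg _)
      _ ≤ 5 * θ * (2 * (Y none) ^ 2 + 2 * S ^ 2) :=
          mul_le_mul_of_nonneg_left e2 (by positivity)
      _ = _ := by ring
  -- the colours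
  have h2 : ∑ l, g l * 2 * (A + Y (some l)) ^ 2 ≤ 6 * θ * (Y none) ^ 2 + 6 * θ * S ^ 2 + 6 * P := by
    have e1 : ∀ l ∈ (univ : Finset κ), g l * 2 * (A + Y (some l)) ^ 2 ≤
        g l * (6 * ((Y none) ^ 2 + S ^ 2)) + 6 * (g l * (Y (some l)) ^ 2) := by
      intro l _
      have e2 : (A + Y (some l)) ^ 2 ≤ 3 * ((Y none) ^ 2 + S ^ 2 + (Y (some l)) ^ 2) := by
        rw [hA]
        nlinarith [sq_nonneg (Y none + S), sq_nonneg (Y none - Y (some l)),
          sq_nonneg (S + Y (some l))]
      calc g l * 2 * (A + Y (some l)) ^ 2 ≤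
            g l * 2 * (3 * ((Y none) ^ 2 + S ^ 2 + (Y (some l)) ^ 2)) :=
            mul_le_mul_of_nonneg_left e2 (mul_nonneg (hg l) (by norm_num))
        _ = _ := by ring
    refine (sum_le_sum e1).trans ?_
    rw [sum_add_distrib, ← sum_mul, ← mul_sum, ← hP]
    have e3 : (∑ l, g l) * (6 * ((Y none) ^ 2 + S ^ 2)) ≤ θ * (6 * ((Y none) ^ 2 + S ^ 2)) :=
      mul_le_mul_of_nonneg_right hgs (by positivity)
    linarith
  have h3 : θ * S ^ 2 ≤ 1 / 100 * S ^ 2 := mul_le_mul_of_nonneg_right hθ (sq_nonneg _)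
  have h4 : ∑ k, 7 * g k * (Y (some k)) ^ 2 = 7 * P := by
    rw [hP, mul_sum]
    exact sum_congr rfl fun k _ => by ring
  rw [h4]
  linarith

theorem yy_cut {h : κ → Finset (Fin n) → ℝ} (h0 : ∀ k s, 0 ≤ h k s) (h1 : ∀ k s, h k s ≤ 1)
    (anti : ∀ k s t, s.Nonempty → s ⊆ t → h k t ≤ h k s) (s : Finset (Fin n))
    (D : Col n κ) : (yy h D) ^ 2 ≤ (yy h (cut s D)) ^ 2 := by
  unfold yy
  rw [← prod_pow, ← prod_pow]
  apply prod_le_prod
  · intro l _
    positivity
  · intro l _
    have hsub : fib (cut s D) l ⊆ fib D l := by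
      intro i hi
      rw [Pool.Agent.H256R2.SC.mem_fib] at hi ⊢
      unfold cut at hi
      by_cases his : i ∈ s
      · simp [his] at hi
      · simpa [his] using hi
    have e : ∀ r : Finset (Fin n), r ≠ ∅ → (al (h l) r) ^ 2 = (h l r) ^ 2 := by
      intro r hr
      unfold al
      rw [if_neg hr, neg_sq, mul_pow, ← pow_mul, mul_comm r.card 2, pow_mul]
      norm_num
    by_cases he : fib (cut s D) l = ∅
    · rw [he]
      have e1 : (al (h l) ∅) ^ 2 = 1 := by simp [al]
      rw [e1]
      by_cases he2 : fib D l = ∅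
      · rw [he2, e1]
      · rw [e _ he2]
        exact pow_le_one₀ (h0 _ _) (h1 _ _)
    · have hne : (fib (cut s D) l).Nonempty := Finset.nonempty_iff_ne_empty.mpr he
      have hne2 : fib D l ≠ ∅ := (hne.mono hsub).ne_empty
      rw [e _ he, e _ hne2]
      exact pow_le_pow_left₀ (h0 _ _) (anti _ _ _ hne hsub) 2

theorem inj (s : Finset (Fin n)) :
    Function.Injective (fun D : Col n κ => (cut s D, rst s D)) := by
  intro D E hDE
  simp only [Prod.mk.injEq] at hDE
  obtain ⟨h1, h2⟩ := hDE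
  funext i
  by_cases hi : i ∈ s
  · have := congrFun h2 i
    simpa [rst, hi] using this
  · have := congrFun h1 i
    simpa [cut, hi] using this

lemma bs_nonneg (θ : ℝ) (g : κ → ℝ) (hθ : 0 ≤ θ) (hg : ∀ k, 0 ≤ g k) (c : Option κ) :
    0 ≤ bs θ g c := by
  cases c with
  | none => simp only [bs]; positivity
  | some l => simp only [bs]; exact mul_nonneg (by norm_num) (hg l)

lemma nug_nonneg (g : κ → ℝ) (hg : ∀ k, 0 ≤ g k) (c : Option κ) : 0 ≤ nug g c := by
  cases c with
  | none => simp only [nug]; norm_num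
  | some l => simp only [nug]; exact hg l

end MomX

open Finset Pool.Agent.H378R2.QG
open Pool.Agent.H256R2.SC (Col)

open MomX in
theorem fw_moment {n : ℕ} {κ : Type} [Fintype κ] [DecidableEq κ] {p : Fin n → ℝ}
    {g : Fin n → κ → ℝ} {h : κ → Finset (Fin n) → ℝ} {z : ℝ} {K : κ → ℝ}
    (H : ∀ k, Hyp p (fun i => g i k) (h k) z (K k)) (Q u : ℝ) (hu : 1 ≤ u)
    (hp : ∀ i, 100 * u ≤ p i) (hg0 : ∀ i k, 0 ≤ g i k) (hgs : ∀ i, ∑ k, g i k ≤ u / p i)
    (s : Finset (Fin n)) (m : Fin n → Option κ → ℝ) (hm0 : ∀ i c, 0 ≤ m i c)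
    (hm1 : ∀ i, i ∉ s → ∀ c, m i c ≤ wt (g i) c * (1 + 4 / p i))
    (hm2 : ∀ i ∈ s, m i none ≤ 4 * u / p i) (hm3 : ∀ i ∈ s, ∀ k, m i (some k) ≤ 2 * g i k) :
    ∑ x : Col n κ, (∏ i, m i (x i)) * (VV g (yT p h Q) x) ^ 2 ≤
      (∏ i ∈ s, 100 * u / p i) * Real.exp (4 * ∑ i, 1 / p i) * Zs g h := by
  have hu0 : 0 < u := by linarith
  have hp0 : ∀ i, 0 < p i := fun i => by have := hp i; linarith
  have hθ0 : ∀ i, 0 ≤ u / p i := fun i => (div_pos hu0 (hp0 i)).le
  have hθ : ∀ i, u / p i ≤ 1 / 100 := by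
    intro i
    rw [div_le_div_iff₀ (hp0 i) (by norm_num)]
    linarith [hp i]
  have hw : ∀ i (c : Option κ), 0 ≤ wt (g i) c := by
    intro i c
    cases c with
    | none =>
      simp only [wt]
      linarith [hgs i, hθ i]
    | some k => simpa only [wt] using hg0 i k
  have hp4 : ∀ i, 0 ≤ 4 / p i := fun i => (div_pos (by norm_num) (hp0 i)).le
  -- step 1: tensorisation
  let G : Fin n → Option κ → ℝ := fun i c => if i ∈ s then Gs (u / p i) c else 1 + 4 / p i
  let β : Fin n → Option κ → ℝ := fun i c =>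
    if i ∈ s then bs (u / p i) (g i) c else (1 + 4 / p i) * nug (g i) c
  have hG0 : ∀ i (c : Option κ), 0 ≤ G i c := by
    intro i c
    simp only [G]
    split_ifs
    · cases c with
      | none => simp only [Gs]; have := hθ0 i; linarith
      | some k => simp only [Gs]; norm_num
    · have := hp4 i; linarith
  have hβ0 : ∀ i (c : Option κ), 0 ≤ β i c := by
    intro i c
    simp only [β]
    split_ifs
    · exact bs_nonneg _ _ (hθ0 i) (hg0 i) c
    · exact mul_nonneg (by have := hp4 i; linarith) (nug_nonneg _ (hg0 i) c)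
  have hmG : ∀ i (c : Option κ), m i c ≤ wt (g i) c * G i c := by
    intro i c
    simp only [G]
    by_cases hi : i ∈ s
    · rw [if_pos hi]
      cases c with
      | none =>
        refine (hm2 i hi).trans ?_
        simp only [wt, Gs]
        have h1 : ∑ k, g i k ≤ 1 / 100 := (hgs i).trans (hθ i)
        have h2 : (∑ k, g i k) * (5 * (u / p i)) ≤ 1 / 100 * (5 * (u / p i)) :=
          mul_le_mul_of_nonneg_right h1 (by have := hθ0 i; linarith)
        have h3 : 4 * u / p i = 4 * (u / p i) := by ring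
        rw [h3]
        have := hθ0 i
        linarith
      | some k =>
        refine (hm3 i hi k).trans (le_of_eq ?_)
        simp only [wt, Gs]
        ring
    · rw [if_neg hi]
      exact hm1 i hi c
  have step0 : ∑ x : Col n κ, (∏ i, m i (x i)) * (VV g (yT p h Q) x) ^ 2 ≤
      EE g (fun x : Col n κ => (∏ i, G i (x i)) * (VV g (yT p h Q) x) ^ 2) := by
    unfold EE
    refine sum_le_sum fun x _ => ?_
    rw [← mul_assoc, ← prod_mul_distrib]
    refine mul_le_mul_of_nonneg_right ?_ (sq_nonneg _)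
    exact prod_le_prod (fun i _ => hm0 i _) fun i _ => hmG i _
  have hloc : ∀ i (Y : Option κ → ℝ),
      ∑ c, wt (g i) c * G i c * (∑ a, psi1 (g i) a c * Y a) ^ 2 ≤ ∑ a, β i a * (Y a) ^ 2 := by
    intro i Y
    simp only [G, β]
    by_cases hi : i ∈ s
    · simp only [if_pos hi]
      exact local_in (g i) (u / p i) (hg0 i) (hθ0 i) (hθ i) (hgs i) Y
    · simp only [if_neg hi]
      have h1 := mul_le_mul_of_nonneg_left (local_upper (g i) Y)
        (by have := hp4 i; linarith : (0 : ℝ) ≤ 1 + 4 / p i)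
      rw [mul_sum, mul_sum] at h1
      refine le_trans (le_of_eq ?_) (h1.trans (le_of_eq ?_))
      · exact sum_congr rfl fun c _ => by ring
      · exact sum_congr rfl fun c _ => by ring
  refine step0.trans ((tensor_upper g G β hw hG0 hβ0 hloc (yT p h Q : Col n κ → ℝ)).trans ?_)
  -- step 2: termwise bound
  let W : Col n κ → ℝ := fun E => ∏ i, (if i ∈ s then bs (u / p i) (g i) (E i) else 1)
  let F : Col n κ → ℝ := fun E => (∏ i, ((1 + 4 / p i) * nug (g i) (E i))) * (yy h E) ^ 2
  have hW0 : ∀ E, 0 ≤ W E := by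
    intro E
    refine prod_nonneg fun i _ => ?_
    split_ifs
    · exact bs_nonneg _ _ (hθ0 i) (hg0 i) _
    · norm_num
  have hF1 : ∀ E : Col n κ, 0 ≤ ∏ i, ((1 + 4 / p i) * nug (g i) (E i)) := fun E =>
    prod_nonneg fun i _ => mul_nonneg (by have := hp4 i; linarith) (nug_nonneg _ (hg0 i) _)
  have hF0 : ∀ E, 0 ≤ F E := fun E => mul_nonneg (hF1 E) (sq_nonneg _)
  have hterm : ∀ D : Col n κ, (∏ i, β i (D i)) * (yT p h Q D) ^ 2 ≤
      F (cut s D) * W (rst s D) := by
    intro D
    have hy : (yT p h Q D) ^ 2 ≤ (yy h (cut s D)) ^ 2 := by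
      refine le_trans ?_ (yy_cut (fun k => (H k).h0) (fun k => (H k).h1)
        (fun k => (H k).anti) s D)
      unfold yT
      split_ifs
      · exact le_refl _
      · have := sq_nonneg (yy h D)
        simpa using this
    have hb : (∏ i, β i (D i)) ≤
        (∏ i, ((1 + 4 / p i) * nug (g i) (cut s D i))) * W (rst s D) := by
      simp only [W]
      rw [← prod_mul_distrib]
      apply prod_le_prod
      · intro i _
        exact hβ0 i _
      · intro i _
        simp only [β, cut, rst]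
        by_cases hi : i ∈ s
        · simp only [if_pos hi]
          have e1 := bs_nonneg (u / p i) (g i) (hθ0 i) (hg0 i) (D i)
          have e2 : 1 ≤ (1 + 4 / p i) * nug (g i) none := by
            simp only [nug]
            have := hp4 i
            linarith
          calc bs (u / p i) (g i) (D i) = 1 * bs (u / p i) (g i) (D i) := (one_mul _).symm
            _ ≤ _ := mul_le_mul_of_nonneg_right e2 e1
        · simp only [if_neg hi, mul_one]
          exact le_refl _
    calc (∏ i, β i (D i)) * (yT p h Q D) ^ 2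
        ≤ ((∏ i, ((1 + 4 / p i) * nug (g i) (cut s D i))) * W (rst s D)) *
          (yy h (cut s D)) ^ 2 :=
          mul_le_mul hb hy (sq_nonneg _) (mul_nonneg (hF1 _) (hW0 _))
      _ = F (cut s D) * W (rst s D) := by simp only [F]; ring
  -- step 3: sum
  let T : Fin n → Finset (Option κ) := fun i => if i ∈ s then univ else {none}
  have hsum : ∑ D : Col n κ, F (cut s D) * W (rst s D) ≤
      (∑ D : Col n κ, F D) * ∑ E ∈ Fintype.piFinset T, W E := by
    rw [sum_mul_sum, ← sum_product']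
    have e : ∑ D : Col n κ, F (cut s D) * W (rst s D) =
        ∑ x ∈ univ.image (fun D : Col n κ => (cut s D, rst s D)), F x.1 * W x.2 := by
      rw [sum_image]
      intro a _ b _ hab
      exact inj s hab
    rw [e]
    apply sum_le_sum_of_subset_of_nonneg
    · intro x hx
      rw [mem_image] at hx
      obtain ⟨D, _, rfl⟩ := hx
      rw [mem_product]
      refine ⟨mem_univ _, ?_⟩
      rw [Fintype.mem_piFinset]
      intro i
      by_cases hi : i ∈ s
      · simp [T, hi]
      · simp [T, hi, rst]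
    · intro x _ _
      exact mul_nonneg (hF0 _) (hW0 _)
  have hWs : ∑ E ∈ Fintype.piFinset T, W E ≤ ∏ i ∈ s, (100 * u / p i) := by
    simp only [W]
    rw [← Finset.prod_univ_sum T (fun i c => if i ∈ s then bs (u / p i) (g i) c else 1)]
    rw [← Finset.prod_ite_mem_eq s (fun i => 100 * u / p i)]
    refine prod_le_prod (fun i _ => sum_nonneg fun c _ => ?_) fun i _ => ?_
    · split_ifs
      · exact bs_nonneg _ _ (hθ0 i) (hg0 i) _
      · norm_num
    · by_cases hi : i ∈ s
      · simp only [T, if_pos hi]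
        rw [Fintype.sum_option]
        simp only [bs]
        rw [← mul_sum]
        have h1 := hgs i
        have h2 := hθ0 i
        have h3 : 100 * u / p i = 100 * (u / p i) := by ring
        rw [h3]
        linarith
      · simp only [T, if_neg hi, sum_singleton]
        exact le_refl _
  have hFs : ∑ D : Col n κ, F D = (∏ i, (1 + 4 / p i)) * Zs g h := by
    unfold Zs nu
    rw [mul_sum]
    refine sum_congr rfl fun D _ => ?_
    simp only [F]
    rw [prod_mul_distrib]
    ring
  have e1 : ∏ i, (1 + 4 / p i) ≤ Real.exp (4 * ∑ i, 1 / p i) := by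
    rw [mul_sum, Real.exp_sum]
    apply prod_le_prod
    · intro i _
      have := hp4 i
      linarith
    · intro i _
      have := Real.add_one_le_exp (4 * (1 / p i))
      have h3 : 4 * (1 / p i) = 4 / p i := by ring
      rw [h3] at this
      rw [h3]
      linarith
  have hZ0 : 0 ≤ Zs g h := by
    unfold Zs nu
    exact sum_nonneg fun D _ => mul_nonneg (sq_nonneg _)
      (prod_nonneg fun i _ => nug_nonneg _ (hg0 i) _)
  have hpr0 : 0 ≤ ∑ E ∈ Fintype.piFinset T, W E := sum_nonneg fun E _ => hW0 E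
  calc ∑ D : Col n κ, (∏ i, β i (D i)) * (yT p h Q D) ^ 2
      ≤ ∑ D : Col n κ, F (cut s D) * W (rst s D) := sum_le_sum fun D _ => hterm D
    _ ≤ (∑ D : Col n κ, F D) * ∑ E ∈ Fintype.piFinset T, W E := hsum
    _ ≤ (Real.exp (4 * ∑ i, 1 / p i) * Zs g h) * ∏ i ∈ s, (100 * u / p i) := by
        rw [hFs]
        exact mul_le_mul (mul_le_mul_of_nonneg_right e1 hZ0) hWs hpr0
          (mul_nonneg (Real.exp_pos _).le hZ0)
    _ = _ := by ring

end Pool.Agent.TH325.PQ
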