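import Pool.Agent.TH325.PQ.Res
import Pool.Agent.TH325.PQ.Mom

set_option autoImplicit false
set_option linter.unusedSectionVars false

/-! # Masses of the lifted weights (helper325) -/

namespace Pool.Agent.TH325.PQ

open Finset
open Pool.Agent.H256R2.SC (Col)

variable {n d : ℕ} {κ : Type} [Fintype κ] [DecidableEq κ]

/-- densities of the colours -/
noncomputable def gR (p : Fin n → ℝ) (R : Fin n → κ → Finset ℕ) (i : Fin n) (k : κ) : ℝ :=
  ((R i k).card : ℝ) / p i

/-- the colouring realised by the classes -/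
def lft (R : Fin n → κ → Finset ℕ) (r : Fin n → κ × Fin d → ℕ) (x : Col n (κ × Fin d)) : Col n κ :=
  fun i => pim (R i) (r i) (x i)

theorem one_sub_sum_le {ι : Type} (s : Finset ι) (e : ι → ℝ) (h0 : ∀ i ∈ s, 0 ≤ e i)
    (h1 : ∀ i ∈ s, e i ≤ 1) : 1 - ∑ i ∈ s, e i ≤ ∏ i ∈ s, (1 - e i) := by
  classical
  induction s using Finset.induction_on with
  | empty => simp
  | insert a s ha ih =>
    rw [Finset.sum_insert ha, Finset.prod_insert ha]
    have h2 := ih (fun i hi => h0 i (mem_insert_of_mem hi)) (fun i hi => h1 i (mem_insert_of_mem hi))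
    have h3 := h0 a (mem_insert_self _ _)
    have h4 := h1 a (mem_insert_self _ _)
    have h5 : 0 ≤ ∑ i ∈ s, e i := Finset.sum_nonneg fun i hi => h0 i (mem_insert_of_mem hi)
    nlinarith [mul_le_mul_of_nonneg_left h2 (sub_nonneg.2 h4), mul_nonneg h3 h5]

section
variable (p : Fin n → ℝ) (R : Fin n → κ → Finset ℕ) (r : Fin n → κ × Fin d → ℕ)

theorem cardP : (Fintype.card (κ × Fin d) : ℝ) = (Fintype.card κ : ℝ) * d := by
  rw [Fintype.card_prod, Fintype.card_fin]
  push_cast
  rfl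

/-- all integers -/
theorem EEP (hc : ∀ i k, ((univ : Finset (Fin d)).filter (fun j => r i (k, j) ∈ R i k)).card =
    (R i k).card) (F : Col n κ → ℝ) :
    Pool.Agent.H256R2.SC.EE (fun i => 1 / p i) (fun x : Col n (κ × Fin d) => F (lft R r x)) =
      Pool.Agent.H378R2.QG.EE (gR p R) F := by
  unfold Pool.Agent.H256R2.SC.EE Pool.Agent.H378R2.QG.EE
  have h1 := push (fun i => pim (R i) (r i))
    (fun i c => Pool.Agent.H256R2.SC.wt (κ := κ × Fin d) (1 / p i) c) F
  refine h1.trans ?_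
  apply Finset.sum_congr rfl
  intro y _
  congr 1
  apply Finset.prod_congr rfl
  intro i _
  cases hy : y i with
  | none =>
    rw [sum_pim_none (R i) (r i) _ (1 / p i) (fun c => rfl)]
    simp only [Pool.Agent.H256R2.SC.wt, Pool.Agent.H378R2.QG.wt, gR, hc]
    rw [cardP, ← Finset.sum_div]
    ring
  | some k =>
    rw [sum_pim_some (R i) (r i) _ (1 / p i) (fun c => rfl)]
    simp only [Pool.Agent.H378R2.QG.wt, gR, hc]
    ring

/-- facts on the densities -/
structure Dens (u : ℝ) : Prop where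
  u1 : 1 ≤ u
  cu : (Fintype.card κ : ℝ) * d ≤ u
  cR : ∀ i k, (R i k).card ≤ d
  hc : ∀ i k, ((univ : Finset (Fin d)).filter (fun j => r i (k, j) ∈ R i k)).card = (R i k).card
  hp : ∀ i, 100 * u ≤ p i

variable {p R r} {u : ℝ}

theorem Dens.sumR (H : Dens p R r u) (i : Fin n) : ∑ k, ((R i k).card : ℝ) ≤ u := by
  have h1 : ∑ k, ((R i k).card : ℝ) ≤ ∑ _k : κ, (d : ℝ) :=
    Finset.sum_le_sum fun k _ => by exact_mod_cast H.cR i k
  rw [Finset.sum_const, Finset.card_univ, nsmul_eq_mul] at h1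
  exact h1.trans H.cu

theorem Dens.p0 (H : Dens p R r u) (i : Fin n) : 100 ≤ p i := by
  have h1 := H.hp i
  have h2 := H.u1
  linarith

theorem Dens.gsum (H : Dens p R r u) (i : Fin n) : ∑ k, gR p R i k ≤ u / p i := by
  unfold gR
  rw [← Finset.sum_div]
  have h2 := H.p0 i
  exact div_le_div_of_nonneg_right (H.sumR i) (by linarith)

theorem Dens.g0 (H : Dens p R r u) (i : Fin n) (k : κ) : 0 ≤ gR p R i k := by
  unfold gR
  have h2 := H.p0 i
  exact div_nonneg (Nat.cast_nonneg _) (by linarith)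

theorem Dens.up (H : Dens p R r u) (i : Fin n) : u / p i ≤ 1 / 100 := by
  have h2 := H.p0 i
  rw [div_le_div_iff₀ (by linarith) (by norm_num)]
  have := H.hp i
  linarith

theorem Dens.wt0 (H : Dens p R r u) (i : Fin n) (c : Option κ) :
    0 ≤ Pool.Agent.H378R2.QG.wt (gR p R i) c := by
  cases c with
  | none =>
    simp only [Pool.Agent.H378R2.QG.wt]
    linarith [H.gsum i, H.up i]
  | some k => exact H.g0 i k

/-- primes: lower bound -/
theorem Dens.EEQ_lower (H : Dens p R r u) (F : Col n κ → ℝ) (hF : ∀ x, 0 ≤ F x) :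
    (1 - ∑ i, 4 * u / (p i) ^ 2) * Pool.Agent.H378R2.QG.EE (gR p R) F ≤
      Pool.Agent.H256R2.SC.EE (fun i => 1 / (p i - 1))
        (fun x : Col n (κ × Fin d) => F (lft R r x)) := by
  have h1 := push (fun i => pim (R i) (r i))
    (fun i c => Pool.Agent.H256R2.SC.wt (κ := κ × Fin d) (1 / (p i - 1)) c) F
  have hE : Pool.Agent.H256R2.SC.EE (fun i => 1 / (p i - 1))
      (fun x : Col n (κ × Fin d) => F (lft R r x)) =
      ∑ y : Col n κ, (∏ i, ∑ c with pim (R i) (r i) c = y i,
        Pool.Agent.H256R2.SC.wt (κ := κ × Fin d) (1 / (p i - 1)) c) * F y := h1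
  rw [hE]
  unfold Pool.Agent.H378R2.QG.EE
  have hu0 : 0 ≤ u := by linarith [H.u1]
  have hee : ∀ i : Fin n, 0 ≤ 4 * u / (p i) ^ 2 ∧ 4 * u / (p i) ^ 2 ≤ 1 := by
    intro i
    have h2 := H.p0 i
    have h3 := H.hp i
    refine ⟨by positivity, ?_⟩
    rw [div_le_one (by positivity)]
    nlinarith
  have hfac : ∀ (i : Fin n) (c' : Option κ), (1 - 4 * u / (p i) ^ 2) *
      Pool.Agent.H378R2.QG.wt (gR p R i) c' ≤ ∑ c with pim (R i) (r i) c = c',
        Pool.Agent.H256R2.SC.wt (κ := κ × Fin d) (1 / (p i - 1)) c := by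
    intro i c'
    have h2 := H.p0 i
    have h3 := H.hp i
    obtain ⟨e0, e1⟩ := hee i
    have hp1 : 0 < p i - 1 := by linarith
    have hp0 : 0 < p i := by linarith
    cases c' with
    | none =>
      rw [sum_pim_none (R i) (r i) _ (1 / (p i - 1)) (fun c => rfl)]
      simp only [Pool.Agent.H256R2.SC.wt, Pool.Agent.H378R2.QG.wt, gR, H.hc]
      rw [cardP, ← Finset.sum_div]
      set N := ∑ k, ((R i k).card : ℝ) with hN
      have hN0 : 0 ≤ N := Finset.sum_nonneg fun k _ => Nat.cast_nonneg _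
      have hNu : N ≤ u := H.sumR i
      have e5 : 1 - (Fintype.card κ : ℝ) * d * (1 / (p i - 1)) +
          ((Fintype.card κ : ℝ) * d - N) * (1 / (p i - 1)) = 1 - N / (p i - 1) := by
        field_simp
        ring
      rw [e5]
      have e6 : N / (p i - 1) ≤ N / p i + 2 * u / (p i) ^ 2 := by
        rw [div_add_div _ _ hp0.ne' (by positivity), div_le_div_iff₀ hp1 (by positivity)]
        have : N * p i ≤ 2 * u * (p i - 1) := by nlinarith
        nlinarith [mul_le_mul_of_nonneg_right this hp0.le, mul_pos hp0 hp0]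
      have e7 : N / p i ≤ 1 / 2 := by
        rw [div_le_div_iff₀ hp0 (by norm_num)]
        linarith
      have e8 : 2 * u / (p i) ^ 2 = (4 * u / (p i) ^ 2) * (1 / 2) := by ring
      have e9 : 0 ≤ (4 * u / (p i) ^ 2) * (1 / 2 - N / p i) := mul_nonneg e0 (by linarith)
      nlinarith
    | some k =>
      rw [sum_pim_some (R i) (r i) _ (1 / (p i - 1)) (fun c => rfl)]
      simp only [Pool.Agent.H378R2.QG.wt, gR, H.hc]
      have hN0 : (0 : ℝ) ≤ ((R i k).card : ℝ) := Nat.cast_nonneg _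
      have e5 : 1 / p i ≤ 1 / (p i - 1) := one_div_le_one_div_of_le hp1 (by linarith)
      calc (1 - 4 * u / (p i) ^ 2) * (((R i k).card : ℝ) / p i) ≤ 1 * (((R i k).card : ℝ) / p i) :=
            mul_le_mul_of_nonneg_right (by linarith) (by positivity)
        _ = ((R i k).card : ℝ) * (1 / p i) := by ring
        _ ≤ _ := mul_le_mul_of_nonneg_left e5 hN0
  rw [Finset.mul_sum]
  apply Finset.sum_le_sum
  intro y _
  rw [← mul_assoc]
  apply mul_le_mul_of_nonneg_right _ (hF y)
  have hprod := one_sub_sum_le (univ : Finset (Fin n)) (fun i => 4 * u / (p i) ^ 2)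
    (fun i _ => (hee i).1) (fun i _ => (hee i).2)
  have hw0 : 0 ≤ ∏ i, Pool.Agent.H378R2.QG.wt (gR p R i) (y i) :=
    Finset.prod_nonneg fun i _ => H.wt0 i _
  calc (1 - ∑ i, 4 * u / (p i) ^ 2) * ∏ i, Pool.Agent.H378R2.QG.wt (gR p R i) (y i) ≤
      (∏ i, (1 - 4 * u / (p i) ^ 2)) * ∏ i, Pool.Agent.H378R2.QG.wt (gR p R i) (y i) :=
        mul_le_mul_of_nonneg_right hprod hw0
    _ = ∏ i, (1 - 4 * u / (p i) ^ 2) * Pool.Agent.H378R2.QG.wt (gR p R i) (y i) := by
        rw [Finset.prod_mul_distrib]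
    _ ≤ _ := Finset.prod_le_prod (fun i _ => mul_nonneg (by linarith [(hee i).2]) (H.wt0 i _))
        (fun i _ => hfac i (y i))

/-- primes: Fourier weights -/
theorem Dens.EEQ_fw (H : Dens p R r u) {h : κ → Finset (Fin n) → ℝ} {z : ℝ} {K : κ → ℝ}
    (HH : ∀ k, Pool.Agent.H378R2.QG.Hyp p (fun i => gR p R i k) (h k) z (K k)) (Q : ℝ)
    (s : Finset (Fin n)) :
    Pool.Agent.H256R2.SC.EE (fun i => 1 / (p i - 1))
      (fun x : Col n (κ × Fin d) => |(Pool.Agent.H378R2.QG.VV (gR p R)
        (Pool.Agent.H378R2.QG.yT p h Q) (lft R r x)) ^ 2| *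
        ∏ i ∈ s, (if x i = none then (Fintype.card (κ × Fin d) : ℝ) * (1 / (p i - 1)) /
          (1 - (Fintype.card (κ × Fin d) : ℝ) * (1 / (p i - 1))) else 1)) ≤
      (∏ i ∈ s, 100 * u / p i) * Real.exp (4 * ∑ i, 1 / p i) *
        Pool.Agent.H378R2.QG.Zs (gR p R) h := by
  classical
  have hu0 : 0 ≤ u := by linarith [H.u1]
  set K' : ℝ := (Fintype.card (κ × Fin d) : ℝ) with hK'
  have hK'u : K' ≤ u := by rw [hK', cardP]; exact H.cu
  have hK'0 : 0 ≤ K' := Nat.cast_nonneg _
  set m : Fin n → Option (κ × Fin d) → ℝ := fun i c =>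
    Pool.Agent.H256R2.SC.wt (κ := κ × Fin d) (1 / (p i - 1)) c *
      (if i ∈ s then (if c = none then K' * (1 / (p i - 1)) / (1 - K' * (1 / (p i - 1))) else 1)
        else 1) with hm
  set F : Col n κ → ℝ := fun y => (Pool.Agent.H378R2.QG.VV (gR p R)
        (Pool.Agent.H378R2.QG.yT p h Q) y) ^ 2 with hF
  have h1 := push (fun i => pim (R i) (r i)) m F
  have hE : Pool.Agent.H256R2.SC.EE (fun i => 1 / (p i - 1))
      (fun x : Col n (κ × Fin d) => |(Pool.Agent.H378R2.QG.VV (gR p R)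
        (Pool.Agent.H378R2.QG.yT p h Q) (lft R r x)) ^ 2| *
        ∏ i ∈ s, (if x i = none then K' * (1 / (p i - 1)) /
          (1 - K' * (1 / (p i - 1))) else 1)) =
      ∑ x : Col n (κ × Fin d), (∏ i, m i (x i)) * F (fun i => pim (R i) (r i) (x i)) := by
    unfold Pool.Agent.H256R2.SC.EE
    apply Finset.sum_congr rfl
    intro x _
    simp only [hm]
    rw [Finset.prod_mul_distrib, Finset.prod_ite_mem, Finset.univ_inter, abs_of_nonneg (sq_nonneg _)]
    simp only [hF]
    unfold lft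
    ring
  rw [hE, h1]
  refine fw_moment HH Q u H.u1 H.hp H.g0 H.gsum s
    (fun i c' => ∑ c with pim (R i) (r i) c = c', m i c) ?_ ?_ ?_ ?_
  all_goals
    have hpp : ∀ i : Fin n, 0 < p i - 1 ∧ 0 < p i ∧ K' * (1 / (p i - 1)) ≤ 1 / 50 := by
      intro i
      have h2 := H.p0 i
      have h3 := H.hp i
      refine ⟨by linarith, by linarith, ?_⟩
      rw [mul_one_div, div_le_div_iff₀ (by linarith) (by norm_num)]
      linarith
    have hsome : ∀ (i : Fin n) (c : κ × Fin d), m i (some c) = 1 / (p i - 1) := by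
      intro i c
      simp only [hm, reduceCtorEq, if_false, ite_self, mul_one, Pool.Agent.H256R2.SC.wt]
    have hnone : ∀ i : Fin n, m i none = if i ∈ s then K' * (1 / (p i - 1)) else
        1 - K' * (1 / (p i - 1)) := by
      intro i
      obtain ⟨a1, a2, a3⟩ := hpp i
      simp only [hm, Pool.Agent.H256R2.SC.wt, if_true]
      split_ifs
      · rw [← hK', mul_div_assoc', mul_comm, mul_div_assoc, div_self (by linarith), mul_one]
      · rw [mul_one]
    have hSR : ∀ i : Fin n, 0 ≤ ∑ k, ((R i k).card : ℝ) ∧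
        ∑ k, ((R i k).card : ℝ) ≤ K' := by
      intro i
      refine ⟨Finset.sum_nonneg fun k _ => Nat.cast_nonneg _, ?_⟩
      have h1 : ∑ k, ((R i k).card : ℝ) ≤ ∑ _k : κ, (d : ℝ) :=
        Finset.sum_le_sum fun k _ => by exact_mod_cast H.cR i k
      rw [Finset.sum_const, Finset.card_univ, nsmul_eq_mul] at h1
      rw [hK', cardP]
      exact h1
    have hbn : ∀ i : Fin n, ∑ c with pim (R i) (r i) c = none, m i c =
        m i none + (K' - ∑ k, ((R i k).card : ℝ)) * (1 / (p i - 1)) := by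
      intro i
      rw [sum_pim_none (R i) (r i) _ (1 / (p i - 1)) (hsome i)]
      simp only [H.hc]
      rw [hK', cardP]
    have hbs : ∀ (i : Fin n) (k : κ), ∑ c with pim (R i) (r i) c = some k, m i c =
        ((R i k).card : ℝ) * (1 / (p i - 1)) := by
      intro i k
      rw [sum_pim_some (R i) (r i) _ (1 / (p i - 1)) (hsome i), H.hc]
  · intro i c'
    apply Finset.sum_nonneg
    intro c _
    obtain ⟨a1, a2, a3⟩ := hpp i
    cases c with
    | none =>
      rw [hnone]
      split_ifs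
      · positivity
      · linarith
    | some c =>
      rw [hsome]
      positivity
  · intro i hi c'
    obtain ⟨a1, a2, a3⟩ := hpp i
    obtain ⟨b1, b2⟩ := hSR i
    have h2 := H.p0 i
    have e5 : 1 / (p i - 1) ≤ (1 / p i) * (1 + 4 / p i) := by
      rw [one_div_mul_eq_div, div_le_div_iff₀ a1 a2]
      have : (1 + 4 / p i) * (p i - 1) = p i + 3 - 4 / p i := by field_simp; ring
      rw [this]
      have h5 : 4 / p i ≤ 1 := by rw [div_le_one a2]; linarith
      linarith
    cases c' with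
    | none =>
      rw [hbn, hnone, if_neg hi]
      simp only [Pool.Agent.H378R2.QG.wt, gR]
      rw [← Finset.sum_div]
      set N := ∑ k, ((R i k).card : ℝ) with hN
      have e6 : N / p i ≤ N * (1 / (p i - 1)) := by
        rw [div_eq_mul_one_div]
        exact mul_le_mul_of_nonneg_left (one_div_le_one_div_of_le a1 (by linarith)) b1
      have e7 : 0 ≤ (1 - N / p i) * (4 / p i) := by
        apply mul_nonneg _ (by positivity)
        have h8 : N / p i ≤ 1 := by
          rw [div_le_one a2]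
          linarith [H.sumR i, H.hp i]
        linarith
      nlinarith
    | some k =>
      rw [hbs]
      simp only [Pool.Agent.H378R2.QG.wt, gR]
      have hN0 : (0 : ℝ) ≤ ((R i k).card : ℝ) := Nat.cast_nonneg _
      calc ((R i k).card : ℝ) * (1 / (p i - 1)) ≤ ((R i k).card : ℝ) * ((1 / p i) * (1 + 4 / p i)) :=
            mul_le_mul_of_nonneg_left e5 hN0
        _ = _ := by ring
  · intro i hi
    obtain ⟨a1, a2, a3⟩ := hpp i
    obtain ⟨b1, b2⟩ := hSR i
    have h2 := H.p0 i
    rw [hbn, hnone, if_pos hi]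
    have e5 : 1 / (p i - 1) ≤ 2 / p i := by
      rw [div_le_div_iff₀ a1 a2]
      linarith
    have e6 : 0 < 1 / (p i - 1) := by positivity
    calc K' * (1 / (p i - 1)) + (K' - ∑ k, ((R i k).card : ℝ)) * (1 / (p i - 1)) ≤
        (2 * u) * (1 / (p i - 1)) := by nlinarith
      _ ≤ (2 * u) * (2 / p i) := mul_le_mul_of_nonneg_left e5 (by linarith)
      _ = _ := by ring
  · intro i hi k
    obtain ⟨a1, a2, a3⟩ := hpp i
    have h2 := H.p0 i
    rw [hbs]
    unfold gR
    have hN0 : (0 : ℝ) ≤ ((R i k).card : ℝ) := Nat.cast_nonneg _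
    have e5 : 1 / (p i - 1) ≤ 2 / p i := by
      rw [div_le_div_iff₀ a1 a2]
      linarith
    calc ((R i k).card : ℝ) * (1 / (p i - 1)) ≤ ((R i k).card : ℝ) * (2 / p i) :=
          mul_le_mul_of_nonneg_left e5 hN0
      _ = _ := by ring

end

end Pool.Agent.TH325.PQ
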