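import Pool.Agent.TH325.PQ.Core4
import Pool.Agent.H426R3.SQ.Defs

set_option autoImplicit false

/-! # Inequalities for the final choice of parameters (helper325) -/

namespace Pool.Agent.TH325.PQ

open Finset Filter
open Pool.Agent.H378R2 (yy)
open Pool.Agent.H426R3.SQ (zR ff)

/-! The lemmas `ev_log`, `half_log`, `log_sq_le`, `log10_lt` (helper256) and `ev_L`, `zR_le` (helper426) are copied. -/

namespace LG

/-- iterated logarithms are large -/
theorem ev_log (M : ℝ) : ∃ X₀ : ℝ, ∀ X : ℝ, X₀ ≤ X → 1 ≤ X ∧ M ≤ Real.log X ∧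
    M ≤ Real.log (Real.log X) ∧ M ≤ Real.log (Real.log (Real.log X)) ∧
    M ≤ Real.log (Real.log (Real.log (Real.log X))) := by
  have t1 := Real.tendsto_log_atTop
  have t2 := t1.comp t1
  have t3 := t1.comp t2
  have t4 := t1.comp t3
  have h := (Filter.eventually_ge_atTop (1 : ℝ)).and ((t1.eventually_ge_atTop M).and
    ((t2.eventually_ge_atTop M).and ((t3.eventually_ge_atTop M).and (t4.eventually_ge_atTop M))))
  obtain ⟨X₀, hX⟩ := Filter.eventually_atTop.1 h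
  exact ⟨X₀, fun X hXX => hX X hXX⟩

theorem half_log {t s : ℝ} (hs : t / 10 ≤ s) (ht : 2 * Real.log 10 ≤ Real.log t) (ht0 : 0 < t) :
    Real.log t / 2 ≤ Real.log s := by
  have h1 : Real.log (t / 10) ≤ Real.log s := Real.log_le_log (by positivity) hs
  rw [Real.log_div ht0.ne' (by norm_num)] at h1
  linarith

theorem log_sq_le {t : ℝ} (ht : 1 ≤ t) : (Real.log t) ^ 2 ≤ 4 * t := by
  have h0 : 0 < t := by linarith
  have h1 : Real.log t = 2 * Real.log (√t) := by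
    rw [Real.log_sqrt h0.le]
    ring
  have h2 : Real.log (√t) ≤ √t - 1 := Real.log_le_sub_one_of_pos (Real.sqrt_pos.2 h0)
  have h3 : 0 ≤ Real.log (√t) := Real.log_nonneg (by rw [Real.one_le_sqrt]; exact ht)
  have h4 : √t ^ 2 = t := Real.sq_sqrt h0.le
  rw [h1]
  nlinarith

theorem log10_lt : Real.log 10 < 2.5 := by
  have h : Real.log 10 = Real.log 2 + Real.log 5 := by
    rw [← Real.log_mul (by norm_num) (by norm_num)]
    norm_num
  have h2 := Real.log_two_lt_d9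
  have h5 : Real.log 5 ≤ Real.log 8 := Real.log_le_log (by norm_num) (by norm_num)
  have h8 : Real.log 8 = 3 * Real.log 2 := by
    rw [show (8 : ℝ) = 2 ^ 3 by norm_num, Real.log_pow]
    norm_num
  -- log 5 = (1/4) log 625 ≤ (1/4) log 640 ..: use 5^3 ≤ 2^7
  have h6 : 3 * Real.log 5 ≤ 7 * Real.log 2 := by
    have e1 : 3 * Real.log 5 = Real.log (5 ^ 3) := by rw [Real.log_pow]; norm_num
    have e2 : 7 * Real.log 2 = Real.log (2 ^ 7) := by rw [Real.log_pow]; norm_num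
    rw [e1, e2]
    exact Real.log_le_log (by norm_num) (by norm_num)
  linarith


/-- largeness conditions -/
theorem ev_L (c' : ℝ) (M : ℝ) : ∃ L₀ : ℝ, ∀ L : ℝ, L₀ ≤ L →
    c' * (Real.log L) ^ 3 ≤ L ^ (1 / 10 : ℝ) ∧ 200 * L ^ (9 / 10 : ℝ) ≤ L ∧
    900 * Real.log L * L ^ (9 / 10 : ℝ) ≤ L ∧ 100 * L ^ (1 / 20 : ℝ) ≤ L ∧ M ≤ L ∧
    1000 ≤ L ∧ 100 ≤ Real.log L := by
  have h1 : ∀ᶠ L : ℝ in atTop, c' * (Real.log L) ^ 3 ≤ L ^ (1 / 10 : ℝ) := by
    have e1 : (fun L : ℝ => (Real.log L) ^ (3:ℝ)) =o[atTop] (fun L : ℝ => L ^ (1 / 10 : ℝ)) :=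
      isLittleO_log_rpow_rpow_atTop 3 (by norm_num)
    have e2 := e1.def (show (0:ℝ) < 1 / (|c'| + 1) by positivity)
    filter_upwards [e2, eventually_ge_atTop (1:ℝ)] with L hL hL2
    have hl : 0 ≤ Real.log L := Real.log_nonneg hL2
    rw [Real.norm_eq_abs, Real.norm_eq_abs, abs_of_nonneg (Real.rpow_nonneg hl _),
      abs_of_nonneg (Real.rpow_nonneg (by linarith) _)] at hL
    have e3 : (Real.log L) ^ (3:ℝ) = (Real.log L) ^ 3 := by
      rw [← Real.rpow_natCast]; norm_num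
    rw [e3] at hL
    have e4 : (|c'| + 1) * (Real.log L) ^ 3 ≤ L ^ (1 / 10 : ℝ) := by
      rw [div_mul_eq_mul_div, one_mul, le_div_iff₀ (by positivity)] at hL
      linarith
    have e5 : c' * (Real.log L) ^ 3 ≤ (|c'| + 1) * (Real.log L) ^ 3 := by
      apply mul_le_mul_of_nonneg_right _ (by positivity)
      linarith [le_abs_self c']
    linarith
  have hrp : ∀ a : ℝ, 0 < a → ∀ b : ℝ, ∀ᶠ L : ℝ in atTop, b ≤ L ^ a := fun a ha b =>
    (tendsto_rpow_atTop ha).eventually_ge_atTop b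
  have h2 : ∀ᶠ L : ℝ in atTop, 200 * L ^ (9 / 10 : ℝ) ≤ L := by
    filter_upwards [hrp (1/10) (by norm_num) 200, eventually_ge_atTop (1:ℝ)] with L hL hL2
    have e1 : L ^ (1 / 10 : ℝ) * L ^ (9 / 10 : ℝ) = L := by
      rw [← Real.rpow_add (by linarith)]; norm_num
    calc 200 * L ^ (9 / 10 : ℝ) ≤ L ^ (1 / 10 : ℝ) * L ^ (9 / 10 : ℝ) :=
          mul_le_mul_of_nonneg_right hL (Real.rpow_nonneg (by linarith) _)
      _ = L := e1
  have h3 : ∀ᶠ L : ℝ in atTop, 900 * Real.log L * L ^ (9 / 10 : ℝ) ≤ L := by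
    have e1 : (fun L : ℝ => Real.log L) =o[atTop] (fun L : ℝ => L ^ (1 / 10 : ℝ)) :=
      isLittleO_log_rpow_atTop (by norm_num)
    have e2 := e1.def (show (0:ℝ) < 1 / 900 by norm_num)
    filter_upwards [e2, eventually_ge_atTop (1:ℝ)] with L hL hL2
    have hl : 0 ≤ Real.log L := Real.log_nonneg hL2
    rw [Real.norm_eq_abs, Real.norm_eq_abs, abs_of_nonneg hl,
      abs_of_nonneg (Real.rpow_nonneg (by linarith) _)] at hL
    have e3 : L ^ (1 / 10 : ℝ) * L ^ (9 / 10 : ℝ) = L := by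
      rw [← Real.rpow_add (by linarith)]; norm_num
    calc 900 * Real.log L * L ^ (9 / 10 : ℝ) ≤ L ^ (1 / 10 : ℝ) * L ^ (9 / 10 : ℝ) :=
          mul_le_mul_of_nonneg_right (by linarith) (Real.rpow_nonneg (by linarith) _)
      _ = L := e3
  have h4 : ∀ᶠ L : ℝ in atTop, 100 * L ^ (1 / 20 : ℝ) ≤ L := by
    filter_upwards [hrp (19/20) (by norm_num) 100, eventually_ge_atTop (1:ℝ)] with L hL hL2
    have e1 : L ^ (19 / 20 : ℝ) * L ^ (1 / 20 : ℝ) = L := by
      rw [← Real.rpow_add (by linarith)]; norm_num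
    calc 100 * L ^ (1 / 20 : ℝ) ≤ L ^ (19 / 20 : ℝ) * L ^ (1 / 20 : ℝ) :=
          mul_le_mul_of_nonneg_right hL (Real.rpow_nonneg (by linarith) _)
      _ = L := e1
  obtain ⟨L₀, h⟩ := Filter.eventually_atTop.mp
    ((((((h1.and h2).and h3).and h4).and (eventually_ge_atTop M)).and
      (eventually_ge_atTop (1000:ℝ))).and (Real.tendsto_log_atTop.eventually_ge_atTop 100))
  exact ⟨L₀, fun L hL => ⟨(h L hL).1.1.1.1.1.1, (h L hL).1.1.1.1.1.2, (h L hL).1.1.1.1.2,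
    (h L hL).1.1.1.2, (h L hL).1.1.2, (h L hL).1.2, (h L hL).2⟩⟩


theorem zR_le {y : ℝ} (hy : 0 < y) (h1 : 1 ≤ Real.log y) (h2 : 1 ≤ Real.log (Real.log y)) :
    zR y ≤ y := by
  unfold zR
  rw [← Real.le_log_iff_exp_le hy, div_le_iff₀ (by positivity)]
  have h3 : Real.log (Real.log (Real.log y)) ≤ Real.log (Real.log y) :=
    (Real.log_le_sub_one_of_pos (by linarith)).trans (by linarith)
  have h4 : Real.log (Real.log (Real.log y)) ≤ 10 * Real.log (Real.log y) := by linarith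
  exact mul_le_mul_of_nonneg_left h4 (by linarith)

end LG


theorem half_log' {K t s : ℝ} (hK : 0 < K) (hs : t / K ≤ s) (ht : 2 * Real.log K ≤ Real.log t) (ht0 : 0 < t) :
    Real.log t / 2 ≤ Real.log s := by
  have h1 : Real.log (t / K) ≤ Real.log s := Real.log_le_log (by positivity) hs
  rw [Real.log_div ht0.ne' hK.ne'] at h1
  linarith

theorem log2000 : Real.log 2000 ≤ 8 := by
  have h1 : (2000 : ℝ) ≤ Real.exp 8 := by
    have h2 : Real.exp 8 = (Real.exp 1) ^ 8 := by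
      rw [← Real.exp_nat_mul]; norm_num
    have h3 := Real.exp_one_gt_d9
    have h4 : (2.7 : ℝ) ^ 8 ≤ (Real.exp 1) ^ 8 := pow_le_pow_left₀ (by norm_num) (by linarith) 8
    rw [h2]
    refine le_trans ?_ h4
    norm_num
  calc Real.log 2000 ≤ Real.log (Real.exp 8) := Real.log_le_log (by norm_num) h1
    _ = 8 := Real.log_exp 8

theorem zR_ge {y ν₀ : ℝ} (hν : 0 ≤ ν₀) (h1 : 50 ≤ Real.log (Real.log y)) (h1' : 2 * ν₀ ≤ Real.log (Real.log y))
    (h2 : 1 ≤ Real.log (Real.log (Real.log y))) (h0 : 0 < Real.log y) : ν₀ < zR y := by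
  unfold zR
  set t := Real.log (Real.log y) with ht
  have ht0 : 0 < t := by linarith
  have hy : Real.log y = Real.exp t := (Real.exp_log h0).symm
  have h3 : t ^ 3 / 6 ≤ Real.exp t := by
    have := Real.pow_div_factorial_le_exp t ht0.le 3
    norm_num [Nat.factorial] at this
    exact this
  have h4 : ν₀ ≤ Real.log y * Real.log t / (10 * t) := by
    rw [le_div_iff₀ (by positivity), hy]
    have h5 : Real.exp t * 1 ≤ Real.exp t * Real.log t :=
      mul_le_mul_of_nonneg_left h2 (Real.exp_pos t).le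
    have h6 : ν₀ * (10 * t) ≤ t ^ 3 / 6 := by
      rw [le_div_iff₀ (by norm_num)]
      have h7 : 50 * (2 * ν₀) ≤ t * t := mul_le_mul h1 h1' (by positivity) ht0.le
      have h8 : ν₀ * 60 ≤ t ^ 2 := by nlinarith
      calc ν₀ * (10 * t) * 6 = (ν₀ * 60) * t := by ring
        _ ≤ t ^ 2 * t := mul_le_mul_of_nonneg_right h8 ht0.le
        _ = t ^ 3 := by ring
    linarith
  have h7 := Real.add_one_le_exp (Real.log y * Real.log t / (10 * t))
  linarith

theorem yana (C c₃ K y₀ ν₀ : ℝ) (hC : 0 < C) (hc₃ : 0 < c₃) (hK : 0 ≤ K) (hν : 0 ≤ ν₀) : ∃ c₂ : ℝ, 0 < c₂ ∧ ∃ X₀ : ℝ,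
    ∀ X : ℝ, X₀ ≤ X → ∀ y F : ℝ, y = (yy X : ℝ) → F = c₂ * ff X → ∀ T : ℕ, T = ⌊F⌋₊ →
    y₀ ≤ y ∧ 0 < y ∧ zR y ≤ y ∧ ν₀ < zR y ∧ y ≤ T ∧ (T : ℝ) ≤ F ∧ F ≤ T + 1 ∧
      (T : ℝ) ≤ y * (Real.log y) ^ 2 ∧
      C * T * (Real.log (Real.log y)) ^ 2 /
        ((Real.log y) ^ 2 * Real.log (Real.log (Real.log y))) ≤ c₃ * Real.log X ∧
      Real.log X ≤ F ∧ K * F ≤ (Real.log X) ^ (11 / 10 : ℝ) ∧ y ≤ Real.log X / 1000 ∧
      0 < Real.log y ∧ Real.log y ≤ Real.log (Real.log X) := by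
  set c₂ : ℝ := min (1 / 8000) (c₃ / (8 * C)) with hc₂
  have hc₂0 : 0 < c₂ := lt_min (by norm_num) (by positivity)
  have hc₂1 : c₂ ≤ 1 / 8000 := min_le_left _ _
  have hc₂2 : c₂ ≤ c₃ / (8 * C) := min_le_right _ _
  obtain ⟨X₀, hX₀⟩ := LG.ev_log (max (max (100 + 4 * ν₀) (4 / c₂)) (max (2000 * |y₀|) 2000))
  obtain ⟨L₀, hL₀⟩ := LG.ev_L (K * c₂) 1
  refine ⟨c₂, hc₂0, max X₀ (Real.exp L₀), fun X hX y F hy hF T hT => ?_⟩
  obtain ⟨hX1, m1, m2, m3, m4⟩ := hX₀ X ((le_max_left _ _).trans hX)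
  set M : ℝ := max (max (100 + 4 * ν₀) (4 / c₂)) (max (2000 * |y₀|) 2000) with hM
  have M1' : 100 + 4 * ν₀ ≤ M := (le_max_left _ _).trans (le_max_left _ _)
  have M1 : 100 ≤ M := by linarith
  have M2 : 4 / c₂ ≤ M := (le_max_right _ _).trans (le_max_left _ _)
  have M3 : 2000 * |y₀| ≤ M := (le_max_left _ _).trans (le_max_right _ _)
  have M4 : 2000 ≤ M := (le_max_right _ _).trans (le_max_right _ _)
  have hXpos : 0 < X := by linarith
  have hLL : L₀ ≤ Real.log X := by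
    rw [Real.le_log_iff_exp_le hXpos]
    exact (le_max_right _ _).trans hX
  obtain ⟨b1, -, -, -, -, -, -⟩ := hL₀ _ hLL
  set l1 := Real.log X with hl1
  set l2 := Real.log l1 with hl2
  set l3 := Real.log l2 with hl3
  set l4 := Real.log l3 with hl4
  have p1 : 0 < l1 := by linarith
  have p2 : 0 < l2 := by linarith
  have p3 : 0 < l3 := by linarith
  have p4 : 0 < l4 := by linarith
  have hlog10 := LG.log10_lt
  have hlog2000 := log2000
  have hyT : y ≤ l1 / 1000 := by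
    rw [hy]
    exact Nat.floor_le (by positivity)
  have hyT2 : l1 / 2000 ≤ y := by
    have h1 : l1 / 1000 < (yy X : ℝ) + 1 := Nat.lt_floor_add_one _
    rw [← hy] at h1
    have h2 : 1 ≤ l1 / 2000 := by
      rw [le_div_iff₀ (by norm_num)]; linarith
    linarith [show l1 / 1000 = l1 / 2000 + l1 / 2000 by ring]
  have hypos : 0 < y := lt_of_lt_of_le (by positivity) hyT2
  have y1 : l2 / 2 ≤ Real.log y := half_log' (by norm_num) hyT2 (by linarith) p1
  have y2 : l3 / 2 ≤ Real.log (Real.log y) := by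
    apply LG.half_log _ (by linarith) p2
    linarith
  have y3 : l4 / 2 ≤ Real.log (Real.log (Real.log y)) := by
    apply LG.half_log _ (by linarith) p3
    linarith
  have hlogy : 0 < Real.log y := by linarith
  have hloglogy : 0 < Real.log (Real.log y) := by linarith
  have hylog : Real.log y ≤ l2 := by
    apply Real.log_le_log hypos
    linarith
  have y2' : Real.log (Real.log y) ≤ l3 := Real.log_le_log hlogy hylog
  have hff : ff X = l1 * l2 ^ 2 * l4 / l3 ^ 2 := rfl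
  have q1 : l3 ^ 2 ≤ 4 * l2 := LG.log_sq_le (by linarith)
  have q3 : l4 ≤ l3 := by
    have := Real.log_le_sub_one_of_pos p3
    linarith
  have hl43 : l4 / l3 ^ 2 ≤ 1 := by
    rw [div_le_one (by positivity)]
    nlinarith
  have hF0 : 0 ≤ F := by
    rw [hF, hff]
    positivity
  have hLF : (T : ℝ) ≤ F := by
    rw [hT]
    exact Nat.floor_le hF0
  have hFL : F ≤ T + 1 := by
    rw [hT]
    exact (Nat.lt_floor_add_one F).le
  have F1 : l1 ≤ F := by
    rw [hF, hff]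
    have h1 : l1 * l2 ^ 2 * l4 / (4 * l2) ≤ l1 * l2 ^ 2 * l4 / l3 ^ 2 := by
      apply div_le_div_of_nonneg_left (by positivity) (by positivity) q1
    have h2 : l1 * l2 ^ 2 * l4 / (4 * l2) = l1 * (l2 * l4) / 4 := by
      field_simp
    have h3 : 4 ≤ c₂ * M := by
      rw [div_le_iff₀ hc₂0] at M2
      linarith
    have h4 : c₂ * M ≤ c₂ * l2 := by gcongr
    have h5 : 4 * 1 ≤ (c₂ * l2) * l4 := by
      apply mul_le_mul (by linarith) (by linarith) (by norm_num) (by positivity)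
    calc l1 = l1 * (4 * 1) / 4 := by ring
      _ ≤ l1 * ((c₂ * l2) * l4) / 4 := by gcongr
      _ = c₂ * (l1 * (l2 * l4) / 4) := by ring
      _ ≤ c₂ * (l1 * l2 ^ 2 * l4 / l3 ^ 2) := by
        rw [← h2]
        gcongr
  have F2 : F ≤ y * (Real.log y) ^ 2 := by
    have h1 : l1 / 2000 * (l2 / 2) ^ 2 ≤ y * (Real.log y) ^ 2 := by gcongr
    refine le_trans ?_ h1
    rw [hF, hff]
    have e1 : c₂ * (l1 * l2 ^ 2 * l4 / l3 ^ 2) = c₂ * (l1 * l2 ^ 2) * (l4 / l3 ^ 2) := by ring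
    rw [e1]
    calc c₂ * (l1 * l2 ^ 2) * (l4 / l3 ^ 2) ≤ (1 / 8000) * (l1 * l2 ^ 2) * 1 := by gcongr
      _ = l1 / 2000 * (l2 / 2) ^ 2 := by ring
  have F3 : K * F ≤ l1 ^ (11 / 10 : ℝ) := by
    have h2 : l1 ^ (11 / 10 : ℝ) = l1 * l1 ^ (1 / 10 : ℝ) := by
      rw [← Real.rpow_one_add' p1.le (by norm_num)]
      norm_num
    rw [h2, hF, hff]
    have e1 : K * (c₂ * (l1 * l2 ^ 2 * l4 / l3 ^ 2)) = l1 * (K * c₂ * (l2 ^ 2 * (l4 / l3 ^ 2))) := by
      ring
    rw [e1]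
    apply mul_le_mul_of_nonneg_left _ p1.le
    refine le_trans ?_ b1
    apply mul_le_mul_of_nonneg_left _ (by positivity)
    calc l2 ^ 2 * (l4 / l3 ^ 2) ≤ l2 ^ 2 * 1 := by gcongr
      _ ≤ l2 ^ 2 * l2 := by
          apply mul_le_mul_of_nonneg_left _ (by positivity)
          linarith
      _ = l2 ^ 3 := by ring
  refine ⟨?_, hypos, LG.zR_le hypos (by linarith) (by linarith),
    zR_ge hν (by linarith) (by linarith) (by linarith) hlogy,
    ?_, hLF, hFL, hLF.trans F2, ?_, F1, F3, hyT, hlogy, hylog⟩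
  · have := le_abs_self y₀
    linarith
  · linarith
  · calc C * T * (Real.log (Real.log y)) ^ 2 /
        ((Real.log y) ^ 2 * Real.log (Real.log (Real.log y)))
        ≤ C * F * l3 ^ 2 / ((l2 / 2) ^ 2 * (l4 / 2)) := by gcongr
      _ = 8 * C * c₂ * l1 := by
          rw [hF, hff]
          field_simp
          ring
      _ ≤ 8 * C * (c₃ / (8 * C)) * l1 := by gcongr
      _ = c₃ * l1 := by field_simp

end Pool.Agent.TH325.PQ
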