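import Pool.Agent.TH325.PQ.Lift

set_option autoImplicit false
set_option linter.unusedSectionVars false

/-! # Choice of residue classes realising the colours (helper325) -/

namespace Pool.Agent.TH325.PQ

open Finset

variable {κ : Type} [Fintype κ] [DecidableEq κ]

/-- residues `r (k, j)`: those of the set `R k` and idle ones -/
theorem exists_res (d p : ℕ) (R : κ → Finset ℕ) (hR : ∀ k, R k ⊆ Ioo 0 p)
    (hd : ∀ k, (R k).card ≤ d) (hdisj : ∀ k l, k ≠ l → Disjoint (R k) (R l))
    (hp : 2 * (Fintype.card κ * d) + 1 ≤ p) :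
    ∃ r : κ × Fin d → ℕ, Function.Injective r ∧ (∀ c, r c ∈ Ioo 0 p) ∧
      ∀ k, ((univ : Finset (Fin d)).filter (fun j => r (k, j) ∈ R k)).card = (R k).card := by
  classical
  have h1 : ∀ k, ∃ t ⊆ (univ : Finset (Fin d)), t.card = (R k).card := fun k =>
    Finset.exists_subset_card_eq (by rw [Finset.card_univ, Fintype.card_fin]; exact hd k)
  choose V _ hV using h1
  set U : Finset ℕ := Ioo 0 p \ univ.biUnion R with hU
  have hUc : Fintype.card (κ × Fin d) ≤ Fintype.card U := by
    rw [Fintype.card_prod, Fintype.card_fin, Fintype.card_coe, hU]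
    have h2 : (univ.biUnion R).card ≤ Fintype.card κ * d := by
      refine (Finset.card_biUnion_le).trans ((Finset.sum_le_card_nsmul _ _ d fun k _ => hd k).trans ?_)
      rw [Finset.card_univ, smul_eq_mul]
    have h3 := Finset.le_card_sdiff (univ.biUnion R) (Ioo 0 p)
    rw [Nat.card_Ioo] at h3
    omega
  obtain ⟨f⟩ := Function.Embedding.nonempty_of_card_le hUc
  have e : ∀ k, V k ≃ R k := fun k => Finset.equivOfCardEq (hV k)
  set r : κ × Fin d → ℕ := fun c => if h : c.2 ∈ V c.1 then ((e c.1 ⟨c.2, h⟩ : R c.1) : ℕ) else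
    ((f c : U) : ℕ) with hr
  have hin : ∀ c : κ × Fin d, c.2 ∈ V c.1 → r c ∈ R c.1 := by
    intro c hc
    simp only [hr]
    rw [dif_pos hc]
    exact (e c.1 ⟨c.2, hc⟩).2
  have hout : ∀ c : κ × Fin d, c.2 ∉ V c.1 → r c ∈ U := by
    intro c hc
    simp only [hr]
    rw [dif_neg hc]
    exact (f c).2
  have hUR : ∀ x ∈ U, ∀ k, x ∉ R k := by
    intro x hx k hk
    rw [hU, mem_sdiff, mem_biUnion] at hx
    exact hx.2 ⟨k, mem_univ _, hk⟩
  refine ⟨r, ?_, ?_, ?_⟩
  · intro c c' hcc
    by_cases hc : c.2 ∈ V c.1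
    · by_cases hc' : c'.2 ∈ V c'.1
      · have hk : c.1 = c'.1 := by
          by_contra hne
          exact Finset.disjoint_left.1 (hdisj _ _ hne) (hin c hc) (hcc ▸ hin c' hc')
        obtain ⟨k, j⟩ := c
        obtain ⟨k', j'⟩ := c'
        simp only at hk
        subst hk
        simp only [hr] at hcc
        rw [dif_pos hc, dif_pos hc'] at hcc
        have h4 := (e k).injective (Subtype.ext hcc)
        have h5 := congrArg Subtype.val h4
        simp only at h5
        rw [h5]
      · exact absurd (hin c hc) (hUR _ (hcc ▸ hout c' hc') c.1)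
    · by_cases hc' : c'.2 ∈ V c'.1
      · exact absurd (hin c' hc') (hUR _ (hcc ▸ hout c hc) c'.1)
      · simp only [hr] at hcc
        rw [dif_neg hc, dif_neg hc'] at hcc
        exact f.injective (Subtype.ext hcc)
  · intro c
    by_cases hc : c.2 ∈ V c.1
    · exact hR _ (hin c hc)
    · have := hout c hc
      rw [hU, mem_sdiff] at this
      exact this.1
  · intro k
    rw [← hV k]
    congr 1
    ext j
    rw [mem_filter]
    constructor
    · rintro ⟨_, h⟩
      by_contra hj
      exact hUR _ (hout (k, j) hj) k h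
    · intro hj
      exact ⟨mem_univ _, hin (k, j) hj⟩

/-- the colour realised by a class -/
def pim {d : ℕ} (R : κ → Finset ℕ) (r : κ × Fin d → ℕ) : Option (κ × Fin d) → Option κ
  | none => none
  | some c => if r c ∈ R c.1 then some c.1 else none

theorem sum_pim_some {d : ℕ} (R : κ → Finset ℕ) (r : κ × Fin d → ℕ) (m : Option (κ × Fin d) → ℝ)
    (b : ℝ) (hm : ∀ c, m (some c) = b) (k : κ) :
    ∑ c with pim R r c = some k, m c =
      (((univ : Finset (Fin d)).filter (fun j => r (k, j) ∈ R k)).card : ℝ) * b := by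
  rw [Finset.sum_filter, Fintype.sum_option, Fintype.sum_prod_type]
  simp only [pim, reduceCtorEq, if_false, zero_add, hm]
  rw [Finset.sum_eq_single k]
  · rw [Finset.card_filter, Nat.cast_sum, Finset.sum_mul]
    apply Finset.sum_congr rfl
    intro j _
    by_cases h : r (k, j) ∈ R k
    · simp [h]
    · simp [h]
  · intro l _ hl
    apply Finset.sum_eq_zero
    intro j _
    by_cases h : r (l, j) ∈ R l
    · simp [h, hl]
    · simp [h]
  · intro h
    exact absurd (mem_univ _) h

theorem sum_pim_none {d : ℕ} (R : κ → Finset ℕ) (r : κ × Fin d → ℕ) (m : Option (κ × Fin d) → ℝ)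
    (b : ℝ) (hm : ∀ c, m (some c) = b) :
    ∑ c with pim R r c = none, m c = m none + ((Fintype.card κ : ℝ) * d -
      ∑ k, (((univ : Finset (Fin d)).filter (fun j => r (k, j) ∈ R k)).card : ℝ)) * b := by
  rw [Finset.sum_filter, Fintype.sum_option, Fintype.sum_prod_type]
  simp only [pim, if_true, hm]
  congr 1
  have h1 : ∀ l : κ, ∑ j : Fin d, (if (if r (l, j) ∈ R l then some l else none) = none then b else 0) =
      ((d : ℝ) - (((univ : Finset (Fin d)).filter (fun j => r (l, j) ∈ R l)).card : ℝ)) * b := by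
    intro l
    have h2 : ∀ j : Fin d, (if (if r (l, j) ∈ R l then some l else none) = none then b else 0) =
        b - (if r (l, j) ∈ R l then 1 else 0) * b := by
      intro j
      by_cases h : r (l, j) ∈ R l
      · simp [h]
      · simp [h]
    rw [Finset.sum_congr rfl (fun j _ => h2 j), Finset.sum_sub_distrib, Finset.sum_const,
      Finset.card_univ, Fintype.card_fin, nsmul_eq_mul, ← Finset.sum_mul, Finset.card_filter,
      Nat.cast_sum]
    push_cast
    ring
  rw [Finset.sum_congr rfl (fun l _ => h1 l), ← Finset.sum_mul, Finset.sum_sub_distrib,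
    Finset.sum_const, Finset.card_univ, nsmul_eq_mul]

end Pool.Agent.TH325.PQ
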