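import Pool.Agent.TH325.PQ.Num
import Pool.Agent.Helper256.KM.Mertens

set_option autoImplicit false

/-! # Roots of shifted quadratic polynomials and sums of their characters (helper325) -/

namespace Pool.Agent.TH325.PQ

open Finset Filter
open Pool.Agent.H378R2.QG (Tc PZ XX_cases)
open Pool.Agent.Helper919 (XX XX_apply XX_abs_le)

/-- `4 α` times the shifted polynomial is `(2 α n + β) ^ 2 + wf u` -/
def wf (α β γ u : ℤ) : ℤ := 4 * α * (γ + u) - β ^ 2

theorem four_mul_quad (α β γ a u : ℤ) :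
    4 * α * (α * a ^ 2 + β * a + γ + u) = (2 * α * a + β) ^ 2 + wf α β γ u := by
  unfold wf
  ring

/-- trivial factorisation (helper426) -/
theorem not_prime_quad {k : ℕ} {α x v : ℤ} (hα : 0 < α) (hk : 4 * α * (k : ℤ) = x ^ 2 - v ^ 2)
    (h1 : 4 * α < x - |v|) (h2 : x + |v| < k) : ¬ k.Prime := by
  intro hp
  have e : (x - v) * (x + v) = 4 * α * (k : ℤ) := by rw [hk]; ring
  have hv1 := le_abs_self v
  have hv2 := neg_abs_le v
  have hd : (k : ℤ) ∣ (x - v) * (x + v) := ⟨4 * α, by rw [e]; ring⟩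
  rcases (Nat.prime_iff_prime_int.mp hp).dvd_or_dvd hd with h | h
  · have := Int.le_of_dvd (by linarith) h
    linarith
  · have := Int.le_of_dvd (by linarith) h
    linarith

open Classical in
/-- the residues `r` with `p ∣ (k r + j) ^ 2 + w` -/
noncomputable def Rt (k j : ℤ) (p : ℕ) (w : ℤ) : Finset ℕ :=
  (Ioo 0 p).filter (fun r : ℕ => (p : ℤ) ∣ (k * r + j) ^ 2 + w)

theorem mem_Rt {k j : ℤ} {p : ℕ} {w : ℤ} {r : ℕ} :
    r ∈ Rt k j p w ↔ (0 < r ∧ r < p) ∧ (p : ℤ) ∣ (k * r + j) ^ 2 + w := by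
  unfold Rt
  rw [mem_filter, mem_Ioo]

/-- solving a linear congruence -/
theorem lin_solve {p : ℕ} (hp : p.Prime) {k : ℤ} (hk : ¬ (p : ℤ) ∣ k) (t : ℤ) :
    ∃ r : ℕ, r < p ∧ (p : ℤ) ∣ k * r - t := by
  have hp0 : (0 : ℤ) < p := by exact_mod_cast hp.pos
  have h1 : IsCoprime (p : ℤ) k := (Nat.prime_iff_prime_int.mp hp).coprime_iff_not_dvd.mpr hk
  obtain ⟨a, b, hab⟩ := h1
  refine ⟨((b * t) % (p : ℤ)).toNat, ?_, ?_⟩
  · have h2 := Int.emod_lt_of_pos (b * t) hp0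
    have h3 := Int.emod_nonneg (b * t) hp0.ne'
    omega
  · have h3 : ((((b * t) % (p : ℤ)).toNat : ℕ) : ℤ) = (b * t) % (p : ℤ) :=
      Int.toNat_of_nonneg (Int.emod_nonneg _ hp0.ne')
    rw [h3]
    have h4 := Int.emod_add_mul_ediv (b * t) (p : ℤ)
    refine ⟨-(a * t) - k * ((b * t) / (p : ℤ)), ?_⟩
    have h5 : (b * t) % (p : ℤ) = b * t - (p : ℤ) * ((b * t) / (p : ℤ)) := by linarith
    rw [h5]
    linear_combination t * hab

theorem Rt_card {p : ℕ} (hp : p.Prime) (hp2 : p ≠ 2) {k j w : ℤ} (hk : ¬ (p : ℤ) ∣ k)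
    (hw : ¬ (p : ℤ) ∣ w) (h0 : ¬ (p : ℤ) ∣ j ^ 2 + w) :
    ((Rt k j p w).card : ℝ) = 1 + XX (-w) p := by
  classical
  have hpi := Nat.prime_iff_prime_int.mp hp
  have hw' : ¬ (p : ℤ) ∣ -w := by rwa [dvd_neg]
  have h2' : ¬ (p : ℤ) ∣ 2 := by
    intro h
    have h3 : p ∣ 2 := by exact_mod_cast h
    exact hp2 ((Nat.prime_dvd_prime_iff_eq hp Nat.prime_two).1 h3)
  rcases XX_cases hp hp2 (-w) hw' with ⟨h1, t, ht⟩ | ⟨h1, ht⟩
  · have ht' : (p : ℤ) ∣ t ^ 2 + w := by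
      have e : t ^ 2 - -w = t ^ 2 + w := by ring
      rwa [e] at ht
    obtain ⟨r₁, hr₁, hd₁⟩ := lin_solve hp hk (t - j)
    obtain ⟨r₂, hr₂, hd₂⟩ := lin_solve hp hk (-t - j)
    have hroot : ∀ r : ℕ, ((p : ℤ) ∣ (k * r + j) ^ 2 + w ↔ (p : ℤ) ∣ k * r - (t - j) ∨ (p : ℤ) ∣ k * r - (-t - j)) := by
      intro r
      constructor
      · intro h
        have h3 : (p : ℤ) ∣ (k * r - (t - j)) * (k * r - (-t - j)) := by
          have e : (k * r - (t - j)) * (k * r - (-t - j)) = ((k * r + j) ^ 2 + w) - (t ^ 2 + w) := by ring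
          rw [e]
          exact dvd_sub h ht'
        exact hpi.dvd_or_dvd h3
      · rintro (h | h)
        · have e : (k * r + j) ^ 2 + w = (k * r - (t - j)) * (k * r + j + t) + (t ^ 2 + w) := by ring
          rw [e]
          exact dvd_add (Dvd.dvd.mul_right h _) ht'
        · have e : (k * r + j) ^ 2 + w = (k * r - (-t - j)) * (k * r + j - t) + (t ^ 2 + w) := by ring
          rw [e]
          exact dvd_add (Dvd.dvd.mul_right h _) ht'
    have huniq : ∀ (r s : ℕ) (v : ℤ), r < p → s < p → (p : ℤ) ∣ k * r - v → (p : ℤ) ∣ k * s - v → r = s := by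
      intro r s v hr hs hdr hds
      have h3 : (p : ℤ) ∣ k * ((r : ℤ) - s) := by
        have e : k * ((r : ℤ) - s) = (k * r - v) - (k * s - v) := by ring
        rw [e]
        exact dvd_sub hdr hds
      rcases hpi.dvd_or_dvd h3 with h | h
      · exact absurd h hk
      · have h4 : (r : ℤ) - s = 0 := by
          apply Int.eq_zero_of_abs_lt_dvd h
          rw [abs_lt]
          constructor <;> omega
        omega
    have hpos : ∀ r : ℕ, (p : ℤ) ∣ (k * r + j) ^ 2 + w → 0 < r := by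
      intro r h
      rcases Nat.eq_zero_or_pos r with h3 | h3
      · exfalso
        rw [h3] at h
        apply h0
        simpa using h
      · exact h3
    have hne : r₁ ≠ r₂ := by
      intro h
      rw [← h] at hd₂
      have h3 : (p : ℤ) ∣ 2 * t := by
        have e : 2 * t = (k * r₁ - (-t - j)) - (k * r₁ - (t - j)) := by ring
        rw [e]
        exact dvd_sub hd₂ hd₁
      rcases hpi.dvd_or_dvd h3 with h4 | h4
      · exact h2' h4
      · apply hw
        have h5 : (p : ℤ) ∣ t ^ 2 := Dvd.dvd.pow h4 (by norm_num)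
        have e : w = (t ^ 2 + w) - t ^ 2 := by ring
        rw [e]
        exact dvd_sub ht' h5
    have hset : Rt k j p w = {r₁, r₂} := by
      ext r
      rw [mem_Rt, mem_insert, mem_singleton]
      constructor
      · rintro ⟨⟨_, h4⟩, h5⟩
        rcases (hroot r).1 h5 with h | h
        · left
          exact huniq r r₁ _ h4 hr₁ h hd₁
        · right
          exact huniq r r₂ _ h4 hr₂ h hd₂
      · rintro (h | h)
        · rw [h]
          have h5 := (hroot r₁).2 (Or.inl hd₁)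
          exact ⟨⟨hpos r₁ h5, hr₁⟩, h5⟩
        · rw [h]
          have h5 := (hroot r₂).2 (Or.inr hd₂)
          exact ⟨⟨hpos r₂ h5, hr₂⟩, h5⟩
    rw [hset, card_pair hne, h1]
    norm_num
  · have hset : Rt k j p w = ∅ := by
      rw [Finset.eq_empty_iff_forall_notMem]
      intro r hr
      rw [mem_Rt] at hr
      apply ht (k * r + j)
      have e : (k * (r : ℤ) + j) ^ 2 - -w = (k * r + j) ^ 2 + w := by ring
      rw [e]
      exact hr.2
    rw [hset, card_empty, h1]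
    norm_num

theorem Rt_disj {k j : ℤ} {p : ℕ} {w w' : ℤ} (h : ¬ (p : ℤ) ∣ w - w') :
    Disjoint (Rt k j p w) (Rt k j p w') := by
  rw [Finset.disjoint_left]
  intro r h1 h2
  rw [mem_Rt] at h1 h2
  apply h
  have e : w - w' = ((k * r + j) ^ 2 + w) - ((k * r + j) ^ 2 + w') := by ring
  rw [e]
  exact dvd_sub h1.2 h2.2

theorem Rt_hit {k j : ℤ} {p : ℕ} {w : ℤ} {n : ℕ} (h : n % p ∈ Rt k j p w) :
    (p : ℤ) ∣ (k * n + j) ^ 2 + w := by
  rw [mem_Rt] at h
  have h1 : (p : ℤ) ∣ (n : ℤ) - ((n % p : ℕ) : ℤ) := by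
    have := Nat.mod_add_div n p
    refine ⟨((n / p : ℕ) : ℤ), ?_⟩
    have h2 : ((n % p : ℕ) : ℤ) + (p : ℤ) * ((n / p : ℕ) : ℤ) = (n : ℤ) := by exact_mod_cast this
    linarith
  have e : (k * (n : ℤ) + j) ^ 2 + w = ((k * ((n % p : ℕ) : ℤ) + j) ^ 2 + w) +
      ((n : ℤ) - ((n % p : ℕ) : ℤ)) * (k * (k * n + j + (k * ((n % p : ℕ) : ℤ) + j))) := by ring
  rw [e]
  exact dvd_add h.2 (Dvd.dvd.mul_right h1 _)

/-! ### sums over primes -/

theorem mem_PZ {y w : ℝ} (hw : 0 ≤ w) {p : ℕ} : p ∈ PZ y w ↔ p.Prime ∧ y < (p : ℝ) ∧ (p : ℝ) ≤ w := by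
  unfold PZ
  rw [mem_filter, mem_Icc]
  constructor
  · rintro ⟨⟨_, h2⟩, h3, h4⟩
    exact ⟨h3, h4, (Nat.le_floor_iff hw).1 h2⟩
  · rintro ⟨h3, h4, h5⟩
    exact ⟨⟨h3.pos, (Nat.le_floor_iff hw).2 h5⟩, h3, h4⟩

/-- change of the lower end -/
theorem Tc_lower (A : ℕ) (hA : 2 ≤ A) : ∃ M : ℝ, 0 ≤ M ∧ ∀ L : ℝ, 10 ≤ L → ∀ χ : ℕ → ℝ,
    (∀ p, |χ p| ≤ 1) → ∀ w : ℝ, L ^ A ≤ w → Tc χ (L ^ 2) w - M ≤ Tc χ (L ^ A) w := by
  obtain ⟨C, hC⟩ := Pool.Agent.Helper256.KM.mertens_inv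
  have hC0 : 0 ≤ C := (abs_nonneg _).trans (hC 3 le_rfl)
  have hA0 : (0 : ℝ) < A := by
    have : 0 < A := by omega
    exact_mod_cast this
  have hlA : 0 ≤ Real.log A := Real.log_nonneg (by
    have : 1 ≤ A := by omega
    exact_mod_cast this)
  refine ⟨Real.log A + 2 * C, by linarith, fun L hL χ hχ w hw => ?_⟩
  classical
  have hL0 : 0 < L := by linarith
  have hLA : L ^ 2 ≤ L ^ A := pow_le_pow_right₀ (by linarith) hA
  have hw0 : 0 ≤ w := le_trans (by positivity) hw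
  have hsub : PZ (L ^ A) w ⊆ PZ (L ^ 2) w := by
    intro p hp
    rw [mem_PZ hw0] at hp ⊢
    exact ⟨hp.1, lt_of_le_of_lt hLA hp.2.1, hp.2.2⟩
  unfold Tc
  rw [← Finset.sum_sdiff hsub]
  set N := ⌊L ^ A⌋₊ with hN
  set N' := ⌊L ^ 2⌋₊ with hN'
  have hL2 : 100 ≤ L ^ 2 := by nlinarith
  have hN'3 : 3 ≤ N' := Nat.le_floor (by push_cast; linarith)
  have hN3 : 3 ≤ N := hN'3.trans (Nat.floor_le_floor hLA)
  have hLN' : L ≤ (N' : ℝ) := by
    have := Nat.lt_floor_add_one (L ^ 2)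
    have h2 : L + 1 ≤ L ^ 2 := by nlinarith
    linarith
  have hNL : (N : ℝ) ≤ L ^ A := Nat.floor_le (by positivity)
  have h1 : ∑ p ∈ PZ (L ^ 2) w \ PZ (L ^ A) w, χ p / p ≤
      ∑ p ∈ (Icc 1 N).filter Nat.Prime \ (Icc 1 N').filter Nat.Prime, (1 : ℝ) / p := by
    have h2 : ∀ p ∈ PZ (L ^ 2) w \ PZ (L ^ A) w, χ p / p ≤ (1 : ℝ) / p := by
      intro p _
      apply div_le_div_of_nonneg_right _ (Nat.cast_nonneg p)
      exact (abs_le.1 (hχ p)).2
    refine (Finset.sum_le_sum h2).trans ?_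
    apply Finset.sum_le_sum_of_subset_of_nonneg
    · intro p hp
      rw [Finset.mem_sdiff, mem_PZ hw0, mem_PZ hw0] at hp
      obtain ⟨⟨h3, h4, h5⟩, h6⟩ := hp
      rw [Finset.mem_sdiff, mem_filter, mem_filter, mem_Icc, mem_Icc]
      refine ⟨⟨⟨h3.pos, Nat.le_floor ?_⟩, h3⟩, ?_⟩
      · by_contra hlt
        push Not at hlt
        exact h6 ⟨h3, hlt, h5⟩
      · rintro ⟨⟨_, h7⟩, _⟩
        have : (p : ℝ) ≤ L ^ 2 := (Nat.le_floor_iff (by positivity)).1 h7
        linarith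
    · intro p _ _
      positivity
  have hsub2 : (Icc 1 N').filter Nat.Prime ⊆ (Icc 1 N).filter Nat.Prime := by
    apply Finset.filter_subset_filter
    apply Finset.Icc_subset_Icc_right
    exact Nat.floor_le_floor hLA
  have h3 := Finset.sum_sdiff (f := fun p : ℕ => (1 : ℝ) / p) hsub2
  have h4 := (abs_le.1 (hC N hN3)).2
  have h5 := (abs_le.1 (hC N' hN'3)).1
  have hlogL : 1 < Real.log L := by
    rw [Real.lt_log_iff_exp_lt hL0]
    have := Real.exp_one_lt_d9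
    linarith
  have h6 : Real.log (Real.log N) ≤ Real.log A + Real.log (Real.log L) := by
    have h7 : Real.log N ≤ A * Real.log L := by
      have : Real.log N ≤ Real.log (L ^ A) := Real.log_le_log (by
        have : 0 < N := by omega
        exact_mod_cast this) hNL
      rwa [Real.log_pow] at this
    have h8 : 0 < Real.log N := Real.log_pos (by
      have : 1 < N := by omega
      exact_mod_cast this)
    refine (Real.log_le_log h8 h7).trans (le_of_eq ?_)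
    rw [Real.log_mul hA0.ne' (by linarith)]
  have h7 : Real.log (Real.log L) ≤ Real.log (Real.log N') := by
    apply Real.log_le_log (by linarith)
    exact Real.log_le_log hL0 hLN'
  linarith

/-- change of one value -/
theorem Tc_change (χ χ' : ℕ → ℝ) (ps : ℕ) (h : ∀ p, p ≠ ps → χ' p = χ p) (h1 : ∀ p, |χ p| ≤ 1)
    (h1' : ∀ p, |χ' p| ≤ 1) {y w : ℝ} (hy : 2 ≤ y) (hw : 0 ≤ w) : Tc χ y w - 1 ≤ Tc χ' y w := by
  classical
  unfold Tc
  by_cases hps : ps ∈ PZ y w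
  · rw [← Finset.add_sum_erase _ _ hps, ← Finset.add_sum_erase (a := ps) _ (fun p => χ' p / p) hps]
    have h2 : ∑ p ∈ (PZ y w).erase ps, χ' p / p = ∑ p ∈ (PZ y w).erase ps, χ p / p :=
      Finset.sum_congr rfl fun p hp => by rw [h p (Finset.ne_of_mem_erase hp)]
    rw [h2]
    rw [mem_PZ hw] at hps
    have h3 : χ ps / ps - 1 ≤ χ' ps / ps := by
      have hp0 : (0 : ℝ) < ps := by linarith [hps.2.1]
      have h4 := (abs_le.1 (h1 ps)).2
      have h5 := (abs_le.1 (h1' ps)).1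
      have h6 : χ ps / ps - χ' ps / ps ≤ 1 := by
        rw [← sub_div, div_le_one hp0]
        linarith [hps.2.1]
      linarith
    linarith
  · have h2 : ∑ p ∈ PZ y w, χ' p / p = ∑ p ∈ PZ y w, χ p / p :=
      Finset.sum_congr rfl fun p hp => by
        rw [h p (by rintro rfl; exact hps hp)]
    rw [h2]
    linarith

end Pool.Agent.TH325.PQ
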