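import Pool.Agent.H426R3.SQ.S3e
import Pool.Agent.TH325.PQ.SurvA

set_option autoImplicit false

/-! # Survivors of Rankin's choice with excluded primes (helper807, after S3epre of helper255 and
helper318): a thin set `S` of primes and one prime `ps` are removed from the conditions. -/

namespace Pool.Agent.TH325.PQ

open Finset Pool.Agent.H256R2.SC Filter Topology Pool.Agent.H426R3.SQ

open scoped Classical

namespace SurvX

theorem ev_sq : ∀ᶠ y : ℝ in atTop, 20 * (Real.log (Real.log y)) ^ 2 ≤ Real.log y := by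
  have h0 : ∀ᶠ x : ℝ in atTop, ‖Real.log x ^ 2‖ ≤ (1 / 20 : ℝ) * ‖id x‖ :=
    (Real.isLittleO_pow_log_id_atTop (n := 2)).bound (by norm_num)
  filter_upwards [Real.tendsto_log_atTop.eventually h0,
    Real.tendsto_log_atTop.eventually_ge_atTop 0] with y hy h1
  rw [Real.norm_of_nonneg (by positivity), id, Real.norm_of_nonneg h1] at hy
  linarith

theorem card_mult (T q : ℕ) (_hq : 0 < q) :
    (((Finset.Icc 1 T).filter (fun u : ℕ => q ∣ u)).card : ℝ) ≤ T * (1 / (q : ℝ)) := by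
  have h1 : ((Finset.Icc 1 T).filter (fun u : ℕ => q ∣ u)).card = T / q := by
    have := Nat.Ioc_filter_dvd_card_eq_div T q
    rw [← this]
    congr 1
  rw [h1, mul_one_div]
  exact Nat.cast_div_le

end SurvX

open S3h SurvX in
/-- S3e from S1 (`h1`) and S2e (`h2`) -/
theorem survivors_ex_of
    (h1 : ∃ C : ℝ, 0 < C ∧ ∀ A : ℕ, 1 ≤ A →
      ∑ a ∈ Finset.Icc 1 A, (1 / (a : ℝ)) * ∏ p ∈ a.primeFactors, (1 + 3 / (p : ℝ)) ≤
        C * (1 + Real.log A))
    (h2 : ∃ C : ℝ, 0 < C ∧ ∃ x₀ : ℝ, ∀ x : ℝ, x₀ ≤ x → ∀ z : ℝ, 2 ≤ z →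
      z ≤ Real.sqrt x → ∀ a : ℕ, 1 ≤ a → ∀ e : ℤ, e ≠ 0 →
      ∀ Ex : Finset ℕ, ∑ p ∈ Ex, (1 : ℝ) / (p : ℝ) ≤ 2 →
      (((Finset.Icc 1 ⌊x⌋₊).filter (fun q : ℕ => q.Prime ∧
        ∀ l : ℕ, l.Prime → (l : ℝ) ≤ z → l ∉ Ex → ¬ (l : ℤ) ∣ (a : ℤ) * q + e)).card : ℝ) ≤
        C * x / (Real.log x * Real.log z) * (∏ p ∈ a.primeFactors, (1 + 3 / (p : ℝ))) *
          ∏ p ∈ e.natAbs.primeFactors, (1 + 3 / (p : ℝ))) :
    ∃ C : ℝ, 0 < C ∧ ∃ y₀ : ℝ, ∀ y : ℝ, y₀ ≤ y → ∀ T : ℕ, y ≤ T →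
    (T : ℝ) ≤ y * (Real.log y) ^ 2 →
    ∀ (S : Finset ℕ) (ps : ℕ), (∀ q ∈ S, q.Prime ∧ 2 < q) →
    ∑ q ∈ S, (1 : ℝ) / q ≤ 12 / (Real.log y) ^ 2 → (ps = 1 ∨ (ps.Prime ∧ 2 < ps)) →
    ∀ e : ℤ, e ≠ 0 →
    (((Finset.Icc 1 T).filter (fun u : ℕ =>
      (∀ p : ℕ, p.Prime → zR y < (p : ℝ) → (p : ℝ) ≤ y → p ∉ S → p ≠ ps → ¬ p ∣ u) ∧
      (∀ p : ℕ, p.Prime → (p : ℝ) ≤ zR y → p ∉ S → p ≠ ps →
        ¬ (p : ℤ) ∣ (u : ℤ) + e))).card : ℝ) ≤
      C * T * (Real.log (Real.log y)) ^ 2 /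
        ((Real.log y) ^ 2 * Real.log (Real.log (Real.log y))) *
        ∏ p ∈ e.natAbs.primeFactors, (1 + 3 / (p : ℝ)) := by
  obtain ⟨C1, hC1, hm⟩ := h1
  obtain ⟨C2', hC2', x₀, hs'⟩ := h2
  obtain ⟨y1, hsm⟩ := smooth_count
  obtain ⟨y2, hy2⟩ := Filter.eventually_atTop.1 ev_large
  obtain ⟨y3, hy3⟩ := Filter.eventually_atTop.1 ev_sq
  refine ⟨30 * C1 * C2' + 14, by positivity, max (max (max x₀ y1) y2) y3, ?_⟩
  intro y hyy T hT1 hT2 S0 ps hS0 hSsum hps e he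
  have hy : max (max x₀ y1) y2 ≤ y := (le_max_left _ _).trans hyy
  have h20 : 20 * (Real.log (Real.log y)) ^ 2 ≤ Real.log y := hy3 y ((le_max_right _ _).trans hyy)
  set Ex : Finset ℕ := insert ps S0 with hExdef
  set P : ℝ := ∏ p ∈ e.natAbs.primeFactors, (1 + 3 / (p : ℝ)) with hP
  have hP1 : 1 ≤ P := by
    rw [hP]
    have h3 : ∀ p ∈ e.natAbs.primeFactors, (1 : ℝ) ≤ 1 + 3 / (p : ℝ) := fun p _ => by
      have : (0 : ℝ) ≤ 3 / (p : ℝ) := by positivity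
      linarith
    calc (1 : ℝ) = ∏ p ∈ e.natAbs.primeFactors, (1 : ℝ) := by simp
      _ ≤ _ := Finset.prod_le_prod (fun p _ => zero_le_one) h3
  have hP0 : 0 < P := lt_of_lt_of_le one_pos hP1
  obtain ⟨C2, hC2e⟩ : ∃ C2 : ℝ, C2 = C2' * P := ⟨_, rfl⟩
  have hC2 : 0 < C2 := by rw [hC2e]; positivity
  have hps1 : (1 : ℝ) ≤ ps := by
    rcases hps with h | h
    · rw [h]; norm_num
    · exact_mod_cast h.1.one_lt.le
  obtain ⟨_, _, _, hq12, _, _⟩ := hy2 y ((le_max_right _ _).trans hy)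
  have hLL10 : 10 ≤ Real.log y := by
    obtain ⟨_, b2, _, b4, _, _⟩ := hy2 y ((le_max_right _ _).trans hy)
    linarith
  have hEx : ∑ p ∈ Ex, (1 : ℝ) / (p : ℝ) ≤ 2 := by
    have h12 : (12 : ℝ) / (Real.log y) ^ 2 ≤ 1 := by
      rw [div_le_one (by positivity)]
      nlinarith
    by_cases hmem : ps ∈ S0
    · rw [hExdef, Finset.insert_eq_of_mem hmem]
      linarith
    · rw [hExdef, Finset.sum_insert hmem]
      have : (1 : ℝ) / ps ≤ 1 := by
        rw [div_le_one (by linarith)]; exact hps1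
      linarith
  have hs : ∀ x : ℝ, x₀ ≤ x → ∀ z : ℝ, 2 ≤ z → z ≤ Real.sqrt x → ∀ a : ℕ, 1 ≤ a →
      (((Finset.Icc 1 ⌊x⌋₊).filter (fun q : ℕ => q.Prime ∧
        ∀ l : ℕ, l.Prime → (l : ℝ) ≤ z → l ∉ Ex → ¬ (l : ℤ) ∣ (a : ℤ) * q + e)).card : ℝ) ≤
        C2 * x / (Real.log x * Real.log z) * ∏ p ∈ a.primeFactors, (1 + 3 / (p : ℝ)) := by
    intro x hx z hz hzx a ha
    refine (hs' x hx z hz hzx a ha e he Ex hEx).trans (le_of_eq ?_)
    rw [hC2e]
    ring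
  have hyx : x₀ ≤ y := (le_max_left _ _).trans ((le_max_left _ _).trans hy)
  have hyy1 : y1 ≤ y := (le_max_right _ _).trans ((le_max_left _ _).trans hy)
  obtain ⟨l3, l2, l1, l12, l23, hy1⟩ := hy2 y ((le_max_right _ _).trans hy)
  set LL := Real.log y with hLL
  set L2 := Real.log LL with hL2
  set L3 := Real.log L2 with hL3
  have hy0 : 0 < y := by linarith
  have hzlog : Real.log (zR y) = LL * L3 / (10 * L2) := by
    unfold zR
    rw [Real.log_exp]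
  have hz0 : 0 < zR y := Real.exp_pos _
  have hlz0 : 1 ≤ LL * L3 / (10 * L2) := by
    rw [le_div_iff₀ (by positivity)]
    nlinarith
  have hz2 : 2 ≤ zR y := by
    rw [← Real.log_le_log_iff (by norm_num) hz0, hzlog]
    have : Real.log 2 ≤ 1 := by
      have := Real.log_two_lt_d9
      linarith
    linarith
  have hlz1 : LL * L3 / (10 * L2) ≤ LL / 2 := by
    rw [div_le_iff₀ (by positivity)]
    nlinarith
  have hzs : ∀ x : ℝ, y ≤ x → zR y ≤ Real.sqrt x := by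
    intro x hx
    have h3 : zR y ≤ Real.sqrt y := by
      rw [← Real.log_le_log_iff hz0 (Real.sqrt_pos.2 hy0), hzlog, Real.log_sqrt hy0.le]
      exact hlz1
    exact h3.trans (Real.sqrt_le_sqrt hx)
  set A : ℕ := ⌊LL ^ 2⌋₊ with hA
  have hA1 : 1 ≤ A := by
    rw [hA, Nat.one_le_floor_iff]
    nlinarith
  set Q : ℕ → Finset ℕ := fun a => (Finset.Icc 1 ⌊(T : ℝ) / a⌋₊).filter (fun q : ℕ => q.Prime ∧ y < (q : ℝ) ∧
        ∀ l : ℕ, l.Prime → (l : ℝ) ≤ zR y → l ∉ Ex → ¬ (l : ℤ) ∣ (a : ℤ) * q + e) with hQ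
  set Sm := (Finset.Icc 1 T).filter (fun m => ∀ p : ℕ, p.Prime → p ∣ m →
      Real.log p ≤ LL * L3 / (10 * L2)) with hSm
  set B1 : Finset ℕ := S0.biUnion (fun q => (Finset.Icc 1 T).filter (fun u : ℕ => q ∣ u)) with hB1
  set B2 : Finset ℕ := if zR y < (ps : ℝ) then (Finset.Icc 1 T).filter (fun u : ℕ => ps ∣ u)
    else ∅ with hB2
  set S := (Finset.Icc 1 T).filter (fun u : ℕ =>
      (∀ p : ℕ, p.Prime → zR y < (p : ℝ) → (p : ℝ) ≤ y → p ∉ S0 → p ≠ ps → ¬ p ∣ u) ∧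
      (∀ p : ℕ, p.Prime → (p : ℝ) ≤ zR y → p ∉ S0 → p ≠ ps →
        ¬ (p : ℤ) ∣ (u : ℤ) + e)) with hS
  have hcov : S ⊆ (B1 ∪ B2) ∪
      (Sm ∪ (Finset.Icc 1 A).biUnion (fun a => (Q a).image (fun q => a * q))) := by
    intro u hu
    rw [hS, Finset.mem_filter, Finset.mem_Icc] at hu
    obtain ⟨⟨hu1, huT⟩, hu2', hu3'⟩ := hu
    rw [Finset.mem_union]
    by_cases hb : u ∈ B1 ∪ B2
    · exact Or.inl hb
    right
    rw [Finset.mem_union, not_or] at hb
    obtain ⟨hb1, hb2⟩ := hb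
    have hu2 : ∀ p : ℕ, p.Prime → zR y < (p : ℝ) → (p : ℝ) ≤ y → ¬ p ∣ u := by
      intro p hp hzp hpy hpu
      by_cases hpS : p ∈ S0
      · apply hb1
        rw [hB1, Finset.mem_biUnion]
        exact ⟨p, hpS, Finset.mem_filter.2 ⟨Finset.mem_Icc.2 ⟨hu1, huT⟩, hpu⟩⟩
      · by_cases hpps : p = ps
        · apply hb2
          rw [hB2, if_pos (hpps ▸ hzp)]
          exact Finset.mem_filter.2 ⟨Finset.mem_Icc.2 ⟨hu1, huT⟩, hpps ▸ hpu⟩
        · exact hu2' p hp hzp hpy hpS hpps hpu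
    have hu3 : ∀ p : ℕ, p.Prime → (p : ℝ) ≤ zR y → p ∉ Ex → ¬ (p : ℤ) ∣ (u : ℤ) + e := by
      intro p hp hpz hpE
      rw [hExdef, Finset.mem_insert, not_or] at hpE
      exact hu3' p hp hpz hpE.2 hpE.1
    rw [Finset.mem_union]
    by_cases hsmooth : ∀ p : ℕ, p.Prime → p ∣ u → Real.log p ≤ LL * L3 / (10 * L2)
    · left
      rw [hSm, Finset.mem_filter, Finset.mem_Icc]
      exact ⟨⟨hu1, huT⟩, hsmooth⟩
    · right
      push Not at hsmooth
      obtain ⟨p, hp, hpu, hpl⟩ := hsmooth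
      have hp0 : (0 : ℝ) < p := by exact_mod_cast hp.pos
      have hzp : zR y < (p : ℝ) := by
        rw [← Real.log_lt_log_iff hz0 hp0, hzlog]
        exact hpl
      have hpy : y < (p : ℝ) := by
        by_contra h
        exact hu2 p hp hzp (not_lt.1 h) hpu
      obtain ⟨a, ha⟩ := hpu
      have ha0 : 1 ≤ a := by
        rcases Nat.eq_zero_or_pos a with h0 | h0
        · rw [h0, mul_zero] at ha; omega
        · exact h0
      have ha0' : (1 : ℝ) ≤ a := by exact_mod_cast ha0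
      have huT' : (a : ℝ) * p ≤ T := by
        have : p * a ≤ T := by rw [← ha]; exact huT
        have : ((p * a : ℕ) : ℝ) ≤ T := by exact_mod_cast this
        push_cast at this
        linarith
      have haA : a ≤ A := by
        rw [hA, Nat.le_floor_iff (by positivity)]
        have h4 : (a : ℝ) * y ≤ y * LL ^ 2 := by
          calc (a : ℝ) * y ≤ a * p := by
                apply mul_le_mul_of_nonneg_left hpy.le; linarith
            _ ≤ T := huT'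
            _ ≤ _ := hT2
        nlinarith
      rw [Finset.mem_biUnion]
      refine ⟨a, Finset.mem_Icc.2 ⟨ha0, haA⟩, ?_⟩
      rw [Finset.mem_image]
      refine ⟨p, ?_, by rw [ha]; ring⟩
      rw [hQ, Finset.mem_filter, Finset.mem_Icc]
      refine ⟨⟨hp.one_lt.le, ?_⟩, hp, hpy, ?_⟩
      · rw [Nat.le_floor_iff (by positivity), le_div_iff₀ (by linarith)]
        linarith
      · intro l hl hlz hlE
        have := hu3 l hl hlz hlE
        rw [ha] at this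
        push_cast at this
        rw [mul_comm (a : ℤ)]
        exact this
  have hcard : (S.card : ℝ) ≤ (B1.card + B2.card) +
      (Sm.card + ∑ a ∈ Finset.Icc 1 A, ((Q a).card : ℝ)) := by
    have h5 : S.card ≤ (B1.card + B2.card) + (Sm.card + ∑ a ∈ Finset.Icc 1 A, (Q a).card) := by
      refine (Finset.card_le_card hcov).trans ((Finset.card_union_le _ _).trans ?_)
      refine Nat.add_le_add (Finset.card_union_le _ _) ((Finset.card_union_le _ _).trans ?_)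
      apply Nat.add_le_add_left
      refine Finset.card_biUnion_le.trans ?_
      exact Finset.sum_le_sum fun a _ => Finset.card_image_le
    exact_mod_cast h5
  have hsmT : (Sm.card : ℝ) ≤ T / LL ^ 3 := hsm y hyy1 T hT1
  have hT0 : (0 : ℝ) ≤ T := by positivity
  have hB1c : (B1.card : ℝ) ≤ 12 * T / LL ^ 2 := by
    have h5 : (B1.card : ℝ) ≤ ∑ q ∈ S0, (((Finset.Icc 1 T).filter (fun u : ℕ => q ∣ u)).card : ℝ) := by
      exact_mod_cast Finset.card_biUnion_le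
    refine h5.trans ((Finset.sum_le_sum fun q hq => card_mult T q (hS0 q hq).1.pos).trans ?_)
    rw [← Finset.mul_sum]
    calc (T : ℝ) * ∑ q ∈ S0, (1 : ℝ) / q ≤ T * (12 / LL ^ 2) :=
          mul_le_mul_of_nonneg_left hSsum hT0
      _ = _ := by ring
  have hB2c : (B2.card : ℝ) ≤ T / LL ^ 2 := by
    rw [hB2]
    split_ifs with hz
    · have hps0 : 0 < ps := by
        rcases hps with h | h
        · omega
        · exact h.1.pos
      refine (card_mult T ps hps0).trans ?_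
      rw [mul_one_div]
      apply div_le_div_of_nonneg_left hT0 (by positivity)
      refine le_trans ?_ hz.le
      rw [← Real.log_le_log_iff (by positivity) hz0, hzlog, Real.log_pow]
      rw [le_div_iff₀ (by positivity)]
      push_cast
      have : LL ≤ LL * L3 := le_mul_of_one_le_right (by linarith) l3
      nlinarith
    · rw [Finset.card_empty]
      push_cast
      positivity
  set lz := LL * L3 / (10 * L2) with hlz
  have hq : ∀ a ∈ Finset.Icc 1 A, ((Q a).card : ℝ) ≤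
      C2 * T / (LL * lz) * ((1 / (a : ℝ)) * ∏ p ∈ a.primeFactors, (1 + 3 / (p : ℝ))) := by
    intro a ha
    rw [Finset.mem_Icc] at ha
    have ha0 : (1 : ℝ) ≤ a := by exact_mod_cast ha.1
    have hprod : 0 ≤ ∏ p ∈ a.primeFactors, (1 + 3 / (p : ℝ)) :=
      Finset.prod_nonneg fun p _ => by positivity
    by_cases hya : y < (T : ℝ) / a
    · have h6 := hs ((T : ℝ) / a) (hyx.trans hya.le) (zR y) hz2 (hzs _ hya.le) a ha.1
      have h7 : ((Q a).card : ℝ) ≤ (((Finset.Icc 1 ⌊(T : ℝ) / a⌋₊).filter (fun q : ℕ => q.Prime ∧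
          ∀ l : ℕ, l.Prime → (l : ℝ) ≤ zR y → l ∉ Ex → ¬ (l : ℤ) ∣ (a : ℤ) * q + e)).card : ℝ) := by
        have : (Q a).card ≤ ((Finset.Icc 1 ⌊(T : ℝ) / a⌋₊).filter (fun q : ℕ => q.Prime ∧
          ∀ l : ℕ, l.Prime → (l : ℝ) ≤ zR y → l ∉ Ex → ¬ (l : ℤ) ∣ (a : ℤ) * q + e)).card := by
          apply Finset.card_le_card
          intro q hq'
          rw [hQ, Finset.mem_filter] at hq'
          rw [Finset.mem_filter]
          exact ⟨hq'.1, hq'.2.1, hq'.2.2.2⟩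
        exact_mod_cast this
      refine h7.trans (h6.trans ?_)
      rw [hzlog]
      have h8 : LL ≤ Real.log ((T : ℝ) / a) := Real.log_le_log hy0 hya.le
      have h9 : C2 * ((T : ℝ) / a) / (Real.log ((T : ℝ) / a) * lz) ≤ C2 * ((T : ℝ) / a) / (LL * lz) := by
        apply div_le_div_of_nonneg_left (by positivity) (by positivity)
        exact mul_le_mul_of_nonneg_right h8 (by linarith)
      calc _ ≤ C2 * ((T : ℝ) / a) / (LL * lz) * ∏ p ∈ a.primeFactors, (1 + 3 / (p : ℝ)) :=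
            mul_le_mul_of_nonneg_right h9 hprod
        _ = _ := by
            field_simp
    · have h10 : (Q a) = ∅ := by
        rw [Finset.eq_empty_iff_forall_notMem]
        intro q hq'
        rw [hQ, Finset.mem_filter, Finset.mem_Icc, Nat.le_floor_iff (by positivity)] at hq'
        exact hya (lt_of_lt_of_le hq'.2.2.1 hq'.1.2)
      rw [h10, Finset.card_empty]
      push_cast
      have : 0 ≤ lz := by linarith
      positivity
  have hsum : ∑ a ∈ Finset.Icc 1 A, ((Q a).card : ℝ) ≤ C2 * T / (LL * lz) * (C1 * (1 + Real.log A)) := by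
    refine (Finset.sum_le_sum hq).trans ?_
    rw [← Finset.mul_sum]
    exact mul_le_mul_of_nonneg_left (hm A hA1) (by have : 0 ≤ lz := by linarith
                                                   positivity)
  have hlogA : Real.log A ≤ 2 * L2 := by
    have h11 : (A : ℝ) ≤ LL ^ 2 := Nat.floor_le (by positivity)
    have h12 : (0 : ℝ) < A := by exact_mod_cast hA1
    refine (Real.log_le_log h12 h11).trans (le_of_eq ?_)
    rw [Real.log_pow]
    push_cast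
    ring
  have hsum2 : ∑ a ∈ Finset.Icc 1 A, ((Q a).card : ℝ) ≤ 30 * C1 * C2 * T * L2 ^ 2 / (LL ^ 2 * L3) := by
    refine hsum.trans ?_
    have e1 : C2 * T / (LL * lz) * (C1 * (1 + Real.log A)) =
        10 * C1 * C2 * T * L2 * (1 + Real.log A) / (LL ^ 2 * L3) := by
      rw [hlz]
      have : LL ≠ 0 := by positivity
      have : L2 ≠ 0 := by positivity
      have : L3 ≠ 0 := by positivity
      field_simp
    rw [e1]
    apply div_le_div_of_nonneg_right _ (by positivity)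
    have e2 : 1 + Real.log A ≤ 3 * L2 := by linarith
    calc 10 * C1 * C2 * T * L2 * (1 + Real.log A) ≤ 10 * C1 * C2 * T * L2 * (3 * L2) :=
          mul_le_mul_of_nonneg_left e2 (by positivity)
      _ = 30 * C1 * C2 * T * L2 ^ 2 := by ring
  have hsm2 : (T : ℝ) / LL ^ 3 ≤ 1 * T * L2 ^ 2 / (LL ^ 2 * L3) := by
    rw [div_le_div_iff₀ (by positivity) (by positivity)]
    have e3 : L3 ≤ LL * L2 ^ 2 := by
      have a1 : L3 ≤ L2 := l23
      have a2 : L2 ≤ L2 ^ 2 := by nlinarith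
      have a3 : L2 ^ 2 ≤ LL * L2 ^ 2 := by nlinarith [sq_nonneg L2]
      linarith
    calc (T : ℝ) * (LL ^ 2 * L3) = T * LL ^ 2 * L3 := by ring
      _ ≤ T * LL ^ 2 * (LL * L2 ^ 2) := mul_le_mul_of_nonneg_left e3 (by positivity)
      _ = 1 * T * L2 ^ 2 * LL ^ 3 := by ring
  have e4 : (30 * C1 * C2' + 14) * T * L2 ^ 2 / (LL ^ 2 * L3) * P =
      30 * C1 * C2 * T * L2 ^ 2 / (LL ^ 2 * L3) + 14 * (1 * T * L2 ^ 2 / (LL ^ 2 * L3) * P) := by
    rw [hC2e]
    ring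
  rw [e4]
  have e7 : (T : ℝ) / LL ^ 2 ≤ 1 * T * L2 ^ 2 / (LL ^ 2 * L3) := by
    rw [div_le_div_iff₀ (by positivity) (by positivity)]
    have e3 : L3 ≤ L2 ^ 2 := by
      have a1 : L3 ≤ L2 := l23
      have a2 : L2 ≤ L2 ^ 2 := by nlinarith
      linarith
    calc (T : ℝ) * (LL ^ 2 * L3) = T * LL ^ 2 * L3 := by ring
      _ ≤ T * LL ^ 2 * (L2 ^ 2) := mul_le_mul_of_nonneg_left e3 (by positivity)
      _ = 1 * T * L2 ^ 2 * LL ^ 2 := by ring
  have e8 : 12 * (T : ℝ) / LL ^ 2 = 12 * (T / LL ^ 2) := by ring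
  rw [e8] at hB1c
  have e5 : 0 ≤ 1 * T * L2 ^ 2 / (LL ^ 2 * L3) := by positivity
  have e6 : 1 * T * L2 ^ 2 / (LL ^ 2 * L3) ≤ 1 * T * L2 ^ 2 / (LL ^ 2 * L3) * P :=
    le_mul_of_one_le_right e5 hP1
  linarith

theorem survivors_ex : ∃ C : ℝ, 0 < C ∧ ∃ y₀ : ℝ, ∀ y : ℝ, y₀ ≤ y → ∀ T : ℕ, y ≤ T →
    (T : ℝ) ≤ y * (Real.log y) ^ 2 →
    ∀ (S : Finset ℕ) (ps : ℕ), (∀ q ∈ S, q.Prime ∧ 2 < q) →
    ∑ q ∈ S, (1 : ℝ) / q ≤ 12 / (Real.log y) ^ 2 → (ps = 1 ∨ (ps.Prime ∧ 2 < ps)) →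
    ∀ e : ℤ, e ≠ 0 →
    (((Finset.Icc 1 T).filter (fun u : ℕ =>
      (∀ p : ℕ, p.Prime → zR y < (p : ℝ) → (p : ℝ) ≤ y → p ∉ S → p ≠ ps → ¬ p ∣ u) ∧
      (∀ p : ℕ, p.Prime → (p : ℝ) ≤ zR y → p ∉ S → p ≠ ps →
        ¬ (p : ℤ) ∣ (u : ℤ) + e))).card : ℝ) ≤
      C * T * (Real.log (Real.log y)) ^ 2 /
        ((Real.log y) ^ 2 * Real.log (Real.log (Real.log y))) *
        ∏ p ∈ e.natAbs.primeFactors, (1 + 3 / (p : ℝ)) :=
  survivors_ex_of mult_avg sieve_lin_ex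

end Pool.Agent.TH325.PQ
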