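import Pool.Agent.TH325.PQ.Roots
import Pool.Agent.TH325.PQ.Surv

set_option autoImplicit false

/-! # The surviving shifts (helper325, after helper426) -/

namespace Pool.Agent.TH325.PQ

open Finset
open Pool.Agent.H426R3.SQ (zR ff)
open Pool.Agent.H378R2 (yy PW GoodP GoodS)

open scoped Classical

/-- the survivors of one half line -/
noncomputable def SVX (y : ℝ) (T : ℕ) (S : Finset ℕ) (ps : ℕ) (e : ℤ) : Finset ℕ :=
  (Finset.Icc 1 T).filter (fun u : ℕ =>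
      (∀ p : ℕ, p.Prime → zR y < (p : ℝ) → (p : ℝ) ≤ y → p ∉ S → p ≠ ps → ¬ p ∣ u) ∧
      (∀ p : ℕ, p.Prime → (p : ℝ) ≤ zR y → p ∉ S → p ≠ ps →
        ¬ (p : ℤ) ∣ (u : ℤ) + e))

/-- the surviving shifts: `v₁` and `v₂` are the values at the classes modulo the small and the other primes -/
noncomputable def GX (v₁ v₂ : ℤ) (y : ℝ) (T : ℕ) (S : Finset ℕ) (ps : ℕ) : Finset ℤ :=
  (Icc (-(T : ℤ)) (T : ℤ)).filter (fun u =>
    (∀ p : ℕ, p.Prime → zR y < (p : ℝ) → (p : ℝ) ≤ y → p ∉ S → p ≠ ps → ¬ (p : ℤ) ∣ v₂ + u) ∧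
    (∀ p : ℕ, p.Prime → (p : ℝ) ≤ zR y → p ∉ S → p ≠ ps → ¬ (p : ℤ) ∣ v₁ + u))

theorem GX_card (v₁ v₂ : ℤ) (y : ℝ) (T T₀ : ℕ) (hT : (T : ℤ) + |v₂| ≤ T₀) (S : Finset ℕ) (ps : ℕ) :
    ((GX v₁ v₂ y T S ps).card : ℝ) ≤ ((SVX y T₀ S ps (v₁ - v₂)).card : ℝ) +
      ((SVX y T₀ S ps (-(v₁ - v₂))).card : ℝ) + 1 := by
  set e : ℤ := v₁ - v₂ with he
  have hsub : GX v₁ v₂ y T S ps ⊆ ((SVX y T₀ S ps e).image (fun v : ℕ => (v : ℤ) - v₂) ∪
      (SVX y T₀ S ps (-e)).image (fun v : ℕ => -(v : ℤ) - v₂)) ∪ {-v₂} := by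
    intro u hu
    unfold GX at hu
    rw [mem_filter, mem_Icc] at hu
    obtain ⟨⟨h1, h2⟩, h6, h7⟩ := hu
    have hg1 := le_abs_self v₂
    have hg2 := neg_abs_le v₂
    by_cases hne : v₂ + u = 0
    · apply mem_union_right
      rw [mem_singleton]
      linarith
    apply mem_union_left
    rcases lt_or_gt_of_ne hne with h | h
    · apply mem_union_right
      obtain ⟨v, hv⟩ := Int.eq_ofNat_of_zero_le (show 0 ≤ -(v₂ + u) by linarith)
      have hv' : u = -(v : ℤ) - v₂ := by linarith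
      refine mem_image.mpr ⟨v, ?_, hv'.symm⟩
      unfold SVX
      rw [mem_filter, mem_Icc]
      refine ⟨⟨by omega, by omega⟩, fun p hp hp1 hp2 hpS hps hd => h6 p hp hp1 hp2 hpS hps ?_,
        fun p hp hp1 hpS hps hd => h7 p hp hp1 hpS hps ?_⟩
      · have e1 : v₂ + u = -(v : ℤ) := by rw [hv']; ring
        rw [e1]
        exact (Int.dvd_neg).mpr (by exact_mod_cast hd)
      · have e1 : v₁ + u = -((v : ℤ) + (-e)) := by rw [hv', he]; ring
        rw [e1]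
        exact (Int.dvd_neg).mpr hd
    · apply mem_union_left
      obtain ⟨v, hv⟩ := Int.eq_ofNat_of_zero_le h.le
      have hv' : u = (v : ℤ) - v₂ := by linarith
      refine mem_image.mpr ⟨v, ?_, hv'.symm⟩
      unfold SVX
      rw [mem_filter, mem_Icc]
      refine ⟨⟨by omega, by omega⟩, fun p hp hp1 hp2 hpS hps hd => h6 p hp hp1 hp2 hpS hps ?_,
        fun p hp hp1 hpS hps hd => h7 p hp hp1 hpS hps ?_⟩
      · have e1 : v₂ + u = (v : ℤ) := by rw [hv']; ring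
        rw [e1]
        exact_mod_cast hd
      · have e1 : v₁ + u = (v : ℤ) + e := by rw [hv', he]; ring
        rw [e1]
        exact hd
  have h1 : (GX v₁ v₂ y T S ps).card ≤ (SVX y T₀ S ps e).card + (SVX y T₀ S ps (-e)).card + 1 := by
    refine (card_le_card hsub).trans ((card_union_le _ _).trans ?_)
    have h2 := card_union_le ((SVX y T₀ S ps e).image (fun v : ℕ => (v : ℤ) - v₂))
      ((SVX y T₀ S ps (-e)).image (fun v : ℕ => -(v : ℤ) - v₂))
    have h3 : ((SVX y T₀ S ps e).image (fun v : ℕ => (v : ℤ) - v₂)).card ≤ (SVX y T₀ S ps e).card :=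
      card_image_le
    have h4 : ((SVX y T₀ S ps (-e)).image (fun v : ℕ => -(v : ℤ) - v₂)).card ≤ (SVX y T₀ S ps (-e)).card :=
      card_image_le
    rw [card_singleton]
    omega
  exact_mod_cast h1

/-- the number of the surviving shifts, and the other inequalities between the parameters -/
theorem surv_ana {m : ℕ} (v₁ v₂ : Fin m → ℤ) (hne : ∀ i, v₁ i - v₂ i ≠ 0) (c₃ K y₀ ν₀ : ℝ) (hc₃ : 0 < c₃)
    (hK : 0 ≤ K) (hν : 0 ≤ ν₀) :
    ∃ c₂ : ℝ, 0 < c₂ ∧ ∃ X₀ : ℝ, ∀ X : ℝ, X₀ ≤ X → ∀ y : ℝ, y = (yy X : ℝ) →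
    ∀ T : ℕ, T = ⌊c₂ / 2 * ff X⌋₊ →
    y₀ ≤ y ∧ 0 < y ∧ zR y ≤ y ∧ ν₀ < zR y ∧ 1 ≤ T ∧ (T : ℝ) ≤ c₂ * ff X ∧
      K * T ≤ (Real.log X) ^ (11 / 10 : ℝ) ∧ y ≤ Real.log X / 1000 ∧
      ∀ (S : Finset ℕ) (ps : ℕ), GoodS X S → GoodP 2 ps →
        ∀ i, ((GX (v₁ i) (v₂ i) y T S ps).card : ℝ) ≤ c₃ * Real.log X := by
  obtain ⟨Cs, hCs, y₁, hsur⟩ := survivors_ex
  set Pe : Fin m → ℝ := fun i => ∏ p ∈ (v₁ i - v₂ i).natAbs.primeFactors, (1 + 3 / (p : ℝ)) with hPe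
  have hPe0 : ∀ i, 0 < Pe i := fun i => Finset.prod_pos fun p _ => by positivity
  set C : ℝ := ∑ i, 2 * Cs * Pe i + 1 with hC
  have hCi : ∀ i, 2 * Cs * Pe i ≤ C := by
    intro i
    have := Finset.single_le_sum (f := fun i => 2 * Cs * Pe i)
      (fun i _ => by have := hPe0 i; positivity) (mem_univ i)
    rw [hC]
    linarith
  have hC0 : 0 < C := by
    rw [hC]
    have : 0 ≤ ∑ i, 2 * Cs * Pe i := Finset.sum_nonneg fun i _ => by
      have := hPe0 i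
      positivity
    linarith
  set V : ℝ := ∑ i, |(v₂ i : ℝ)| with hV
  have hVi : ∀ i, |(v₂ i : ℝ)| ≤ V := fun i =>
    Finset.single_le_sum (f := fun i => |(v₂ i : ℝ)|) (fun i _ => abs_nonneg _) (mem_univ i)
  have hV0 : 0 ≤ V := Finset.sum_nonneg fun i _ => abs_nonneg _
  obtain ⟨c₂, hc₂, X₀, hana⟩ := yana C (c₃ / 2) K (max y₀ y₁) (ν₀ + 4) hC0
    (half_pos hc₃) hK (by linarith)
  refine ⟨c₂, hc₂, max X₀ (Real.exp (max (max (2 / c₃) (2 * V + 10)) 10)), fun X hX y hy T hT => ?_⟩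
  obtain ⟨a1, a2, a3, a4, a5, a6, a7, a8, a9, a10, a11, a12, a13, a14⟩ :=
    hana X ((le_max_left _ _).trans hX) y (c₂ * ff X) hy rfl _ rfl
  set T₀ := ⌊c₂ * ff X⌋₊ with hT₀
  have hXp : 0 < X := (Real.exp_pos _).trans_le ((le_max_right _ _).trans hX)
  have hLm : max (max (2 / c₃) (2 * V + 10)) 10 ≤ Real.log X := by
    rw [Real.le_log_iff_exp_le hXp]
    exact (le_max_right _ _).trans hX
  have hL1 : 2 / c₃ ≤ Real.log X := (le_max_left _ _).trans ((le_max_left _ _).trans hLm)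
  have hL2 : 2 * V + 10 ≤ Real.log X := (le_max_right _ _).trans ((le_max_left _ _).trans hLm)
  have hL3 : 10 ≤ Real.log X := (le_max_right _ _).trans hLm
  have hF0 : 0 ≤ c₂ / 2 * ff X := by linarith
  have hTle : (T : ℝ) ≤ c₂ / 2 * ff X := by rw [hT]; exact Nat.floor_le hF0
  have hT1 : 1 ≤ T := by
    rw [hT]
    apply Nat.le_floor
    rw [Nat.cast_one]
    linarith
  refine ⟨(le_max_left _ _).trans a1, a2, a3, by linarith, hT1, by linarith, ?_, a12, ?_⟩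
  · refine le_trans ?_ a11
    apply mul_le_mul_of_nonneg_left _ hK
    linarith
  intro S ps hS hps i
  have hTT : (T : ℤ) + |v₂ i| ≤ T₀ := by
    have h0 := hVi i
    have h1 : (T : ℝ) + |(v₂ i : ℝ)| ≤ T₀ := by linarith
    exact_mod_cast h1
  refine (GX_card (v₁ i) (v₂ i) y T T₀ hTT S ps).trans ?_
  have hSp : ∀ q ∈ S, q.Prime ∧ 2 < q := by
    intro q hq
    refine ⟨(hS.1 q hq).1, ?_⟩
    have h1 := (hS.1 q hq).2.1
    have h2 : 2 ≤ Pool.Agent.H378R2.z2 X := by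
      have h3 : Real.log (Real.log X) ^ 3 ≤ (Pool.Agent.H378R2.z2 X : ℝ) := Nat.le_ceil _
      have h4 : (2 : ℝ) ≤ Real.log (Real.log X) := by
        have h6 : zR y ≤ y := a3
        have h7 : (4 : ℝ) < y := by linarith
        have h8 : (4000 : ℝ) < Real.log X := by linarith
        rw [Real.le_log_iff_exp_le (by linarith)]
        have h9 : Real.exp 2 = (Real.exp 1) ^ 2 := by
          rw [← Real.exp_nat_mul]; norm_num
        have h10 := Real.exp_one_lt_d9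
        have h11 : (Real.exp 1) ^ 2 ≤ 3 ^ 2 := pow_le_pow_left₀ (Real.exp_pos _).le (by linarith) 2
        rw [h9]
        linarith
      have h5 : (2 : ℝ) ≤ Real.log (Real.log X) ^ 3 := by nlinarith [sq_nonneg (Real.log (Real.log X))]
      exact_mod_cast h5.trans h3
    omega
  have hSs : ∑ q ∈ S, (1 : ℝ) / q ≤ 12 / (Real.log y) ^ 2 := by
    refine hS.2.trans ?_
    have h5 : (Real.log y) ^ 2 ≤ (Real.log (Real.log X)) ^ 2 := pow_le_pow_left₀ a13.le a14 2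
    have h6 : 0 < (Real.log y) ^ 2 := by positivity
    rw [div_le_div_iff₀ (by linarith) h6]
    linarith
  have hne' : -(v₁ i - v₂ i) ≠ 0 := neg_ne_zero.mpr (hne i)
  have h1 := hsur y ((le_max_right _ _).trans a1) T₀ a5 a8 S ps hSp hSs hps (v₁ i - v₂ i) (hne i)
  have h2 := hsur y ((le_max_right _ _).trans a1) T₀ a5 a8 S ps hSp hSs hps (-(v₁ i - v₂ i)) hne'
  rw [Int.natAbs_neg] at h2
  have h1' : ((SVX y T₀ S ps (v₁ i - v₂ i)).card : ℝ) ≤ Cs * T₀ * (Real.log (Real.log y)) ^ 2 /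
      ((Real.log y) ^ 2 * Real.log (Real.log (Real.log y))) * Pe i := by
    refine le_trans (le_of_eq ?_) h1
    unfold SVX
    congr!
  have h2' : ((SVX y T₀ S ps (-(v₁ i - v₂ i))).card : ℝ) ≤ Cs * T₀ * (Real.log (Real.log y)) ^ 2 /
      ((Real.log y) ^ 2 * Real.log (Real.log (Real.log y))) * Pe i := by
    refine le_trans (le_of_eq ?_) h2
    unfold SVX
    congr!
  have hB0 : 0 ≤ (T₀ : ℝ) * (Real.log (Real.log y)) ^ 2 /
      ((Real.log y) ^ 2 * Real.log (Real.log (Real.log y))) := by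
    by_contra hneg
    push Not at hneg
    have h3 : Cs * T₀ * (Real.log (Real.log y)) ^ 2 /
      ((Real.log y) ^ 2 * Real.log (Real.log (Real.log y))) * Pe i = (Cs * Pe i) * ((T₀ : ℝ) * (Real.log (Real.log y)) ^ 2 /
      ((Real.log y) ^ 2 * Real.log (Real.log (Real.log y)))) := by ring
    rw [h3] at h1'
    have h4 : 0 < Cs * Pe i := by
      have := hPe0 i
      positivity
    have h5 : (0 : ℝ) ≤ ((SVX y T₀ S ps (v₁ i - v₂ i)).card : ℝ) := Nat.cast_nonneg _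
    have h6 := mul_neg_of_pos_of_neg h4 hneg
    linarith
  have h3 : C * (T₀ : ℝ) * (Real.log (Real.log y)) ^ 2 /
      ((Real.log y) ^ 2 * Real.log (Real.log (Real.log y))) = C * ((T₀ : ℝ) * (Real.log (Real.log y)) ^ 2 /
      ((Real.log y) ^ 2 * Real.log (Real.log (Real.log y)))) := by ring
  rw [h3] at a9
  have h3' := mul_le_mul_of_nonneg_right (hCi i) hB0
  have h3'' : 2 * Cs * Pe i * ((T₀ : ℝ) * (Real.log (Real.log y)) ^ 2 /
      ((Real.log y) ^ 2 * Real.log (Real.log (Real.log y)))) =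
      Cs * T₀ * (Real.log (Real.log y)) ^ 2 /
      ((Real.log y) ^ 2 * Real.log (Real.log (Real.log y))) * Pe i +
      Cs * T₀ * (Real.log (Real.log y)) ^ 2 /
      ((Real.log y) ^ 2 * Real.log (Real.log (Real.log y))) * Pe i := by ring
  rw [h3''] at h3'
  have h4 : 1 ≤ c₃ / 2 * Real.log X := by
    rw [div_le_iff₀ hc₃] at hL1
    linarith
  linarith

end Pool.Agent.TH325.PQ
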